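import Pool.Agent.W301.TD.ExpSum

/-! Frequencies of blocks among the lowest digits of powers. -/

set_option autoImplicit false

namespace Pool.Agent.W301.TD.AA

open Finset Filter Topology
open Pool.Agent.W301.RM
open Pool.Agent.Helper602.MK (ee)
open Pool.Agent.Helper602.MK.N_J5b (norm_ee ee_add ee_int)

/-- the number of places `ι < m` at which the block `a` of length `k` stands in `X` -/
def bc (q k a m X : ℕ) : ℕ := ((range m).filter (fun ι => X / q ^ ι % q ^ k = a)).card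

lemma bc_add (q k a m n X : ℕ) :
    bc q k a (m + n) X = bc q k a m X + ((range n).filter (fun i => X / q ^ (m + i) % q ^ k = a)).card := by
  unfold bc
  rw [card_filter, card_filter, card_filter, sum_range_add]

lemma digit_wd {q k i m : ℕ} (hq : 2 ≤ q) (h : i + k ≤ m) (X : ℕ) :
    wd q k i ((X : ℝ) / (q : ℝ) ^ m) = ((X / q ^ (m - i - k) % q ^ k : ℕ) : ℤ) := by
  have hq0 : (0 : ℝ) < q := by positivity
  unfold wd
  have e : (q : ℝ) ^ (i + k) * ((X : ℝ) / (q : ℝ) ^ m) = (X : ℝ) / ((q ^ (m - i - k) : ℕ) : ℝ) := by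
    have h1 : (q : ℝ) ^ m = (q : ℝ) ^ (i + k) * (q : ℝ) ^ (m - i - k) := by
      rw [← pow_add]; congr 1; omega
    rw [h1]
    push_cast
    field_simp
  rw [e, Int.floor_div_natCast, Int.floor_natCast]
  push_cast
  rfl

lemma ob_window {q k a N j : ℕ} (hq : 2 ≤ q) (hk : 1 ≤ k) (X : ℕ) :
    ob q k a N ((X : ℝ) / (q : ℝ) ^ ((j + 1) * N + k - 1)) =
      ((range N).filter (fun i => X / q ^ (j * N + i) % q ^ k = a)).card := by
  unfold ob
  rw [card_filter, card_filter, ← sum_range_reflect]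
  apply sum_congr rfl
  intro i hi
  rw [mem_range] at hi
  have h1 : (j + 1) * N = j * N + N := by ring
  have h2 : (N - 1 - i) + k ≤ (j + 1) * N + k - 1 := by omega
  rw [digit_wd hq h2]
  have h3 : (j + 1) * N + k - 1 - (N - 1 - i) - k = j * N + i := by omega
  rw [h3]
  norm_cast

/-- summing windows -/
lemma bc_windows {q k a N : ℕ} (X : ℕ) {ε : ℝ} (hε : 0 ≤ ε) (hq : 1 ≤ q) (j₀ J : ℕ)
    (h : ∀ j, j₀ ≤ j → j < J →
      |(((range N).filter (fun i => X / q ^ (j * N + i) % q ^ k = a)).card : ℝ) - N / ((q ^ k : ℕ) : ℝ)| ≤ ε * N) :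
    ∀ m : ℕ, m < J * N → |(bc q k a m X : ℝ) - m / ((q ^ k : ℕ) : ℝ)| ≤ (j₀ + 1) * N + ε * m := by
  have hQ : (1 : ℝ) ≤ ((q ^ k : ℕ) : ℝ) := by exact_mod_cast Nat.one_le_pow _ _ hq
  have triv : ∀ m n : ℕ, |(((range n).filter (fun i => X / q ^ (m + i) % q ^ k = a)).card : ℝ) - n / ((q ^ k : ℕ) : ℝ)| ≤ n := by
    intro m n
    have h1 : (((range n).filter (fun i => X / q ^ (m + i) % q ^ k = a)).card : ℝ) ≤ n := by
      exact_mod_cast (card_filter_le _ _).trans (by simp)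
    have h2 : (0 : ℝ) ≤ (((range n).filter (fun i => X / q ^ (m + i) % q ^ k = a)).card : ℝ) := Nat.cast_nonneg _
    have h3 : (n : ℝ) / ((q ^ k : ℕ) : ℝ) ≤ n := div_le_self (Nat.cast_nonneg _) hQ
    have h4 : (0 : ℝ) ≤ (n : ℝ) / ((q ^ k : ℕ) : ℝ) := by positivity
    rw [abs_le]; constructor <;> linarith
  have step : ∀ j, j ≤ J → |(bc q k a (j * N) X : ℝ) - (j * N : ℕ) / ((q ^ k : ℕ) : ℝ)| ≤ j₀ * N + ε * (j * N : ℕ) := by
    intro j
    induction j with
    | zero =>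
      intro _
      have : bc q k a (0 * N) X = 0 := by unfold bc; simp
      rw [this]
      simp only [zero_mul, Nat.cast_zero, zero_div, sub_zero, abs_zero, mul_zero, add_zero]
      positivity
    | succ j ih =>
      intro hj
      rcases Nat.lt_or_ge j j₀ with h1 | h1
      · have h2 := triv 0 ((j + 1) * N)
        have h3 : ((range ((j + 1) * N)).filter (fun i => X / q ^ (0 + i) % q ^ k = a)).card = bc q k a ((j + 1) * N) X := by
          unfold bc; simp only [zero_add]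
        rw [h3] at h2
        refine h2.trans ?_
        have h4 : (((j + 1) * N : ℕ) : ℝ) ≤ j₀ * N := by
          push_cast
          apply mul_le_mul_of_nonneg_right _ (Nat.cast_nonneg _)
          exact_mod_cast h1
        have h5 : 0 ≤ ε * (((j + 1) * N : ℕ) : ℝ) := by positivity
        linarith
      · have h2 := ih (by omega)
        have h3 := h j h1 (by omega)
        have h4 : (j + 1) * N = j * N + N := by ring
        rw [h4, bc_add]
        push_cast at h2 h3 ⊢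
        have h5 : ((bc q k a (j * N) X : ℝ) + (((range N).filter (fun i => X / q ^ (j * N + i) % q ^ k = a)).card : ℝ)) -
            (j * N + N) / (q : ℝ) ^ k = ((bc q k a (j * N) X : ℝ) - j * N / (q : ℝ) ^ k) +
            ((((range N).filter (fun i => X / q ^ (j * N + i) % q ^ k = a)).card : ℝ) - N / (q : ℝ) ^ k) := by ring
        rw [h5]
        refine (abs_add_le _ _).trans ?_
        linarith
  intro m hm
  rcases Nat.eq_zero_or_pos N with hN | hN
  · subst hN; simp at hm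
  have h1 := Nat.div_add_mod m N
  set j := m / N with hj
  set r := m % N with hr
  have hjJ : j ≤ J := by
    have : j < J := by rw [hj, Nat.div_lt_iff_lt_mul hN]; exact hm
    omega
  have h2 := step j hjJ
  have h3 := triv (j * N) r
  have h4 : m = j * N + r := by rw [← h1, mul_comm]
  rw [h4, bc_add]
  have h5 : (r : ℝ) ≤ N := by exact_mod_cast (Nat.mod_lt m hN).le
  push_cast at h2 h3 ⊢
  have h6 : ((bc q k a (j * N) X : ℝ) + (((range r).filter (fun i => X / q ^ (j * N + i) % q ^ k = a)).card : ℝ)) -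
      (j * N + r) / (q : ℝ) ^ k = ((bc q k a (j * N) X : ℝ) - j * N / (q : ℝ) ^ k) +
      ((((range r).filter (fun i => X / q ^ (j * N + i) % q ^ k = a)).card : ℝ) - r / (q : ℝ) ^ k) := by ring
  rw [h6]
  refine (abs_add_le _ _).trans ?_
  have h7 : 0 ≤ ε * r := by positivity
  linarith

/-- the exponential sums needed -/
lemma small_low {q : ℕ} (hq : q.Prime) {p l N k j e R M : ℕ} {B : ℝ} (hk : 1 ≤ k) (hj : k + 1 ≤ j)
    (hN : 2 ≤ N) (hl : ¬ q ∣ l) (he : e ≤ k * N + k) (hR : (R : ℝ) ≤ (q : ℝ) ^ ((1 / 2 : ℝ) * N))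
    (hsum : ∀ ι : ℕ, N ≤ ι → ι ≤ (j + 1) * N + k → ∀ A : ℤ, ¬ (q : ℤ) ∣ A →
      ‖∑ n ∈ range M, ee ((A : ℝ) * (p : ℝ) ^ n / (q : ℝ) ^ ι)‖ ≤ B * M) :
    Small (range M) (fun n => ((l * p ^ n : ℕ) : ℝ) / (q : ℝ) ^ ((j + 1) * N + k - 1)) q 1 (fun _ => e) R B := by
  intro lam hlam hne
  have hq0 : (0 : ℝ) < q := by exact_mod_cast hq.pos
  have hqZ : Prime (q : ℤ) := Nat.prime_iff_prime_int.1 hq
  rw [Fin.sum_univ_one] at hne ⊢
  have hlam0 : lam 0 ≠ 0 := left_ne_zero_of_mul hne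
  obtain ⟨v, A', hA', hv⟩ := (Int.finiteMultiplicity_iff.2 ⟨by simpa using hq.ne_one, hlam0⟩ :
    FiniteMultiplicity (q : ℤ) (lam 0)).exists_eq_pow_mul_and_not_dvd |>.elim (fun c hc =>
      (⟨multiplicity (q : ℤ) (lam 0), c, hc.2, hc.1⟩ : ∃ v : ℕ, ∃ A' : ℤ, ¬ (q : ℤ) ∣ A' ∧ lam 0 = (q : ℤ) ^ v * A'))
  have hv2 : 2 * v ≤ N := by
    have h1 : (q : ℤ) ^ v ≤ |lam 0| := by
      rw [hv, abs_mul, abs_of_nonneg (by positivity : (0 : ℤ) ≤ (q : ℤ) ^ v)]
      have : 1 ≤ |A'| := Int.one_le_abs (fun h => by rw [h] at hA'; exact hA' (dvd_zero _))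
      exact le_mul_of_one_le_right (by positivity) this
    have h2 : (q : ℝ) ^ v ≤ (q : ℝ) ^ ((1 / 2 : ℝ) * N) := by
      have h3 := hlam 0
      have h4 : (q : ℤ) ^ v < R := lt_of_le_of_lt h1 h3
      have h5 : (q : ℝ) ^ v < R := by exact_mod_cast h4
      linarith
    rw [← Real.rpow_natCast, Real.rpow_le_rpow_left_iff (by exact_mod_cast hq.one_lt)] at h2
    have h3 : (2 * v : ℝ) ≤ N := by linarith
    exact_mod_cast h3
  set m := (j + 1) * N + k - 1 with hm
  have hm1 : (k + 2) * N ≤ (j + 1) * N := Nat.mul_le_mul_right _ (by omega)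
  have hm2 : (k + 2) * N = k * N + 2 * N := by ring
  have hevm : e + v + N ≤ m := by omega
  set ι := m - e - v with hι
  have hA2 : ¬ (q : ℤ) ∣ A' * l := by
    intro h
    rcases hqZ.dvd_or_dvd h with h | h
    · exact hA' h
    · exact hl (by exact_mod_cast h)
  have h1 := hsum ι (by omega) (by omega) (A' * l) hA2
  have h2 : ∀ n, Pool.Agent.H807R2.Dav.ee (((lam 0 * (q : ℤ) ^ e : ℤ) : ℝ) * (((l * p ^ n : ℕ) : ℝ) / (q : ℝ) ^ m)) =
      ee (((A' * l : ℤ) : ℝ) * (p : ℝ) ^ n / (q : ℝ) ^ ι) := by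
    intro n
    rw [ee_ee]
    congr 1
    rw [hv]
    have h3 : (q : ℝ) ^ m = (q : ℝ) ^ ι * (q : ℝ) ^ e * (q : ℝ) ^ v := by
      rw [← pow_add, ← pow_add]; congr 1; omega
    rw [h3]
    push_cast
    field_simp
  rw [card_range]
  refine le_trans (le_of_eq ?_) h1
  congr 1
  exact sum_congr rfl fun n _ => h2 n

open Classical in
/-- **Frequencies of blocks among the lowest `C log n` digits of almost all powers.** -/
theorem lowFreq (q p k : ℕ) (hq : q.Prime) (hp2 : 2 ≤ p) (hp : ¬ q ∣ p) (hk : 1 ≤ k) (C ε : ℝ)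
    (hC : 0 < C) (hε : 0 < ε) :
    ∃ c : ℝ, 0 < c ∧ ∃ M0 : ℕ, ∀ M : ℕ, M0 ≤ M → ∀ l : ℕ, ¬ q ∣ l →
      (((range M).filter (fun n => ¬ ∀ m : ℕ, (m : ℝ) ≤ C * Real.log M → ∀ a < q ^ k,
        |(bc q k a m (l * p ^ n) : ℝ) - m / ((q ^ k : ℕ) : ℝ)| ≤ ε * Real.log M)).card : ℝ) ≤
        (M : ℝ) ^ (1 - c) := by
  have hqR : (2 : ℝ) ≤ q := by exact_mod_cast hq.two_le
  have hq0 : (0 : ℝ) < q := by linarith
  have hq1 : (1 : ℝ) < q := by linarith
  have hlq : 0 < Real.log q := Real.log_pos hq1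
  have hkR : (1 : ℝ) ≤ k := by exact_mod_cast hk
  obtain ⟨s, hs⟩ := exists_tower hq hp2 hp
  have hg : 1 ≤ (q ^ 2).totient := Nat.totient_pos.2 (pow_pos hq.pos 2)
  set lq := Real.log q with hlqd
  -- parameters
  set ε' : ℝ := min (ε * lq / (2 * (k + 2))) 1 with hε'
  have hε'0 : 0 < ε' := lt_min (by positivity) one_pos
  have hε'1 : ε' ≤ 1 := min_le_right _ _
  have hε'2 : (k + 2) * ε' ≤ ε * lq / 2 := by
    have h1 : ε' ≤ ε * lq / (2 * (k + 2)) := min_le_left _ _
    rw [le_div_iff₀ (by positivity)] at h1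
    linarith
  set ε1 : ℝ := min (ε / (2 * C)) 1 with hε1
  have hε10 : 0 < ε1 := lt_min (by positivity) one_pos
  have hε12 : ε1 * C ≤ ε / 2 := by
    have h1 : ε1 ≤ ε / (2 * C) := min_le_left _ _
    rw [le_div_iff₀ (by positivity)] at h1
    linarith
  set J : ℕ := ⌈2 * (C * lq) / ε'⌉₊ + 1 with hJ
  obtain ⟨η, hη, x1, hsum⟩ := expsum hq hp hg hs (ε' / 2) ((J + 1) * ε' + k + 1) (by positivity) (by linarith)
    (by positivity)
  obtain ⟨c, hc, N0, hbf⟩ := bfreq q k hq.two_le hk (1 / 2) (η / ε') ε1 (by norm_num) (by positivity) hε10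
    (min_le_right _ _)
  have hlim : Tendsto (fun M : ℕ => Real.logb q M) atTop atTop :=
    (Real.tendsto_logb_atTop hq1).comp tendsto_natCast_atTop_atTop
  obtain ⟨M0, hM0⟩ := eventually_atTop.1 ((hlim.eventually_ge_atTop (2 * (N0 + 4) / ε' + 4 * (J + 1) / (c * ε') + 1)).and
    ((hlim.eventually_ge_atTop x1).and (eventually_ge_atTop 1)))
  refine ⟨c * ε' / 4, by positivity, M0, fun M hM l hl => ?_⟩
  obtain ⟨g1, g2, g3⟩ := hM0 M hM
  have hM1 : (1 : ℝ) ≤ M := by exact_mod_cast g3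
  have hMpos : (0 : ℝ) < M := by linarith
  set x : ℝ := Real.logb q M with hx
  have hqx : (q : ℝ) ^ x = M := Real.rpow_logb hq0 hq1.ne' hMpos
  have hxl : x * lq = Real.log M := by rw [hx, Real.logb, div_mul_cancel₀ _ hlq.ne']
  have hx1 : 1 ≤ x := by
    have h1 : 0 ≤ 2 * ((N0 : ℝ) + 4) / ε' := by positivity
    have h2 : 0 ≤ 4 * ((J : ℝ) + 1) / (c * ε') := by positivity
    linarith
  have hx0 : 0 ≤ x := by linarith
  have hxa : 2 * ((N0 : ℝ) + 4) ≤ ε' * x := by
    have h1 : 2 * ((N0 : ℝ) + 4) / ε' ≤ x := by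
      have h2 : 0 ≤ 4 * ((J : ℝ) + 1) / (c * ε') := by positivity
      linarith
    rw [div_le_iff₀ hε'0] at h1
    linarith
  have hxb : 4 * ((J : ℝ) + 1) ≤ c * ε' * x := by
    have h1 : 4 * ((J : ℝ) + 1) / (c * ε') ≤ x := by
      have h2 : 0 ≤ 2 * ((N0 : ℝ) + 4) / ε' := by positivity
      linarith
    rw [div_le_iff₀ (by positivity)] at h1
    linarith
  set N : ℕ := ⌊ε' * x⌋₊ with hN
  have hNa : (N : ℝ) ≤ ε' * x := Nat.floor_le (by positivity)
  have hNb : ε' * x < N + 1 := Nat.lt_floor_add_one _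
  have hNc : ε' * x / 2 ≤ N := by
    have : (0 : ℝ) ≤ N0 := Nat.cast_nonneg _
    linarith
  have hN0 : N0 ≤ N := by
    have : (N0 : ℝ) ≤ N := by linarith
    exact_mod_cast this
  have hN2 : 2 ≤ N := by
    have h1 : (0 : ℝ) ≤ N0 := Nat.cast_nonneg _
    have : (2 : ℝ) ≤ N := by linarith
    exact_mod_cast this
  have mono : ∀ {a b : ℝ}, a ≤ b → (q : ℝ) ^ a ≤ (q : ℝ) ^ b := fun h =>
    Real.rpow_le_rpow_of_exponent_le hq1.le h
  have padd : ∀ a b : ℝ, (q : ℝ) ^ a * (q : ℝ) ^ b = (q : ℝ) ^ (a + b) := fun a b => (Real.rpow_add hq0 a b).symm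
  set y : ℕ → ℕ → ℝ := fun j n => ((l * p ^ n : ℕ) : ℝ) / (q : ℝ) ^ ((j + 1) * N + k - 1) with hy
  set Bd : ℕ → Finset ℕ := fun j => (range M).filter (fun n => ¬ ∀ n' ≤ N, ∀ a < q ^ k,
    |(ob q k a n' (y j n) : ℝ) - n' / ((q ^ k : ℕ) : ℝ)| ≤ ε1 * N) with hBd
  have hne : (range M).Nonempty := ⟨0, mem_range.2 (by omega)⟩
  have hBdc : ∀ j, k + 1 ≤ j → j < J → ((Bd j).card : ℝ) ≤ (q : ℝ) ^ (-(c * N)) * M := by
    intro j hj1 hj2
    have h1 := hbf N hN0 (range M) hne (y j) (fun e he R _ hR =>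
      small_low hq (B := (q : ℝ) ^ (-(η / ε' * N))) hk hj1 hN2 hl he hR (fun ι hι1 hι2 A hA => by
        have h2 := hsum x g2 M hqx.symm ι (by
          have : (N : ℝ) ≤ ι := by exact_mod_cast hι1
          linarith) (by
          have h3 : (ι : ℝ) ≤ (j + 1) * N + k := by exact_mod_cast hι2
          have h4 : (j : ℝ) + 1 ≤ J + 1 := by
            have : (j : ℝ) ≤ J := by exact_mod_cast hj2.le
            linarith
          have h5 : ((j : ℝ) + 1) * N ≤ (J + 1) * (ε' * x) :=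
            mul_le_mul h4 hNa (Nat.cast_nonneg _) (by positivity)
          have h6 : (k : ℝ) ≤ (k + 1) * x := by nlinarith
          calc (ι : ℝ) ≤ (J + 1) * (ε' * x) + (k + 1) * x := by linarith
            _ = ((J + 1) * ε' + k + 1) * x := by ring) A hA
        refine h2.trans (mul_le_mul_of_nonneg_right (mono ?_) hMpos.le)
        have h7 : η / ε' * N ≤ η / ε' * (ε' * x) := mul_le_mul_of_nonneg_left hNa (by positivity)
        have h8 : η / ε' * (ε' * x) = η * x := by field_simp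
        linarith))
    rw [card_range] at h1
    exact h1
  have hsub : (range M).filter (fun n => ¬ ∀ m : ℕ, (m : ℝ) ≤ C * Real.log M → ∀ a < q ^ k,
      |(bc q k a m (l * p ^ n) : ℝ) - m / ((q ^ k : ℕ) : ℝ)| ≤ ε * Real.log M) ⊆
      ((range J).filter (fun j => k + 1 ≤ j)).biUnion Bd := by
    intro n hn
    rw [mem_filter] at hn
    by_contra hcon
    apply hn.2
    intro m hm a ha
    have hw : ∀ j, k + 1 ≤ j → j < J →
        |(((range N).filter (fun i => (l * p ^ n) / q ^ (j * N + i) % q ^ k = a)).card : ℝ) -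
          N / ((q ^ k : ℕ) : ℝ)| ≤ ε1 * N := by
      intro j hj1 hj2
      rw [← ob_window hq.two_le hk]
      by_contra h2
      apply hcon
      rw [mem_biUnion]
      refine ⟨j, mem_filter.2 ⟨mem_range.2 hj2, hj1⟩, ?_⟩
      rw [hBd]
      refine mem_filter.2 ⟨hn.1, fun h3 => h2 ?_⟩
      exact h3 N le_rfl a ha
    have hmJ : m < J * N := by
      have h1 : 2 * (C * lq) / ε' + 1 ≤ J := by
        rw [hJ]; push_cast
        have := Nat.le_ceil (2 * (C * lq) / ε')
        linarith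
      have h2 : (2 * (C * lq) / ε' + 1) * N ≤ J * N := mul_le_mul_of_nonneg_right h1 (Nat.cast_nonneg _)
      have h3 : 2 * (C * lq) / ε' * (ε' * x / 2) ≤ 2 * (C * lq) / ε' * N :=
        mul_le_mul_of_nonneg_left hNc (by positivity)
      have h4 : 2 * (C * lq) / ε' * (ε' * x / 2) = C * (x * lq) := by field_simp
      have h5 : (m : ℝ) < J * N := by
        have h6 : (2 : ℝ) ≤ N := by exact_mod_cast hN2
        rw [hxl] at h4
        nlinarith
      exact_mod_cast h5
    have h1 := bc_windows (a := a) (l * p ^ n) hε10.le hq.one_lt.le (k + 1) J hw m hmJ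
    refine h1.trans ?_
    have h2 : ε1 * m ≤ ε / 2 * Real.log M := by
      calc ε1 * m ≤ ε1 * (C * Real.log M) := mul_le_mul_of_nonneg_left hm hε10.le
        _ = (ε1 * C) * Real.log M := by ring
        _ ≤ _ := mul_le_mul_of_nonneg_right hε12 (Real.log_nonneg hM1)
    have h3 : (((k + 1 : ℕ) : ℝ) + 1) * N ≤ ε / 2 * Real.log M := by
      push_cast
      calc ((k : ℝ) + 1 + 1) * N ≤ (k + 2) * (ε' * x) := by
            have : (k : ℝ) + 1 + 1 = k + 2 := by ring
            rw [this]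
            exact mul_le_mul_of_nonneg_left hNa (by positivity)
        _ = ((k + 2) * ε') * x := by ring
        _ ≤ (ε * lq / 2) * x := mul_le_mul_of_nonneg_right hε'2 hx0
        _ = ε / 2 * (x * lq) := by ring
        _ = _ := by rw [hxl]
    linarith
  calc (((range M).filter (fun n => ¬ ∀ m : ℕ, (m : ℝ) ≤ C * Real.log M → ∀ a < q ^ k,
        |(bc q k a m (l * p ^ n) : ℝ) - m / ((q ^ k : ℕ) : ℝ)| ≤ ε * Real.log M)).card : ℝ) ≤
        ((((range J).filter (fun j => k + 1 ≤ j)).biUnion Bd).card : ℝ) := by exact_mod_cast card_le_card hsub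
    _ ≤ ∑ j ∈ (range J).filter (fun j => k + 1 ≤ j), ((Bd j).card : ℝ) := by
        exact_mod_cast (card_biUnion_le (s := (range J).filter (fun j => k + 1 ≤ j)) (t := Bd))
    _ ≤ ∑ j ∈ (range J).filter (fun j => k + 1 ≤ j), (q : ℝ) ^ (-(c * N)) * M := by
        apply sum_le_sum
        intro j hj
        rw [mem_filter, mem_range] at hj
        exact hBdc j hj.2 hj.1
    _ ≤ J * ((q : ℝ) ^ (-(c * N)) * M) := by
        rw [sum_const, nsmul_eq_mul]
        apply mul_le_mul_of_nonneg_right _ (by positivity)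
        exact_mod_cast (card_filter_le _ _).trans (by simp)
    _ ≤ (M : ℝ) ^ (1 - c * ε' / 4) := by
        have h1 : (J : ℝ) ≤ (q : ℝ) ^ (c * ε' / 4 * x) := by
          have h2 : (J : ℝ) ≤ (q : ℝ) ^ (J : ℝ) := by
            rw [Real.rpow_natCast]
            exact_mod_cast (Nat.lt_pow_self hq.one_lt).le
          exact h2.trans (mono (by linarith))
        have h2 : (q : ℝ) ^ (-(c * N)) ≤ (q : ℝ) ^ (-(c * ε' / 2 * x)) := by
          apply mono
          have : c * (ε' * x / 2) ≤ c * N := mul_le_mul_of_nonneg_left hNc hc.le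
          linarith
        have h3 : (M : ℝ) ^ (1 - c * ε' / 4) = (q : ℝ) ^ (c * ε' / 4 * x) * ((q : ℝ) ^ (-(c * ε' / 2 * x)) * M) := by
          nth_rewrite 2 [← hqx]
          rw [← hqx, ← Real.rpow_mul hq0.le, padd, padd]
          congr 1; ring
        rw [h3]
        apply mul_le_mul h1 _ (by positivity) (by positivity)
        exact mul_le_mul_of_nonneg_right h2 hMpos.le

end Pool.Agent.W301.TD.AA
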