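import Pool.Agent.W301.TD.OneDigit

/-! All digits of `l p^n`, any `p`. -/

set_option autoImplicit false

namespace Pool.Agent.W301.TD

open Finset

variable {q p : ℕ} {D : Finset ℕ}

lemma F_general (l N m : ℕ) (hq : 2 ≤ q) :
    F q D p l N m ≤ ∑ r ∈ range (q - 1), F q D (p ^ (q - 1)) (l * p ^ r) N m := by
  have hq1 : 0 < q - 1 := by omega
  unfold F
  rw [← card_sigma]
  refine card_le_card_of_injOn (fun n => ⟨n % (q - 1), n / (q - 1)⟩) ?_ ?_
  · intro n hn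
    simp only [coe_filter, mem_range, Set.mem_ofPred_eq] at hn
    simp only [coe_sigma, Set.mem_sigma_iff, mem_coe, mem_filter, mem_range]
    refine ⟨Nat.mod_lt _ hq1, (Nat.div_le_self _ _).trans_lt hn.1, ?_⟩
    intro ι hι
    have : l * p ^ (n % (q - 1)) * (p ^ (q - 1)) ^ (n / (q - 1)) = l * p ^ n := by
      rw [← pow_mul, mul_assoc, ← pow_add, Nat.mod_add_div]
    rw [this]
    exact hn.2 ι hι
  · intro n _ n' _ h
    simp only [Sigma.mk.injEq, heq_eq_eq] at h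
    rw [← Nat.mod_add_div n (q - 1), ← Nat.mod_add_div n' (q - 1), h.1, h.2]

/-- the bound for the lowest `m` digits of `l p^n`, any `p` -/
theorem F_bound' (hq : q.Prime) (hq3 : 3 ≤ q) {κ : ℕ} (hκ : 1 ≤ κ) {η : ℝ} (hη : 0 < η)
    (hηq : 5 / 3 ≤ q * η) (hη1 : η ≤ 1) (hM' : Mom q D κ η) (hD1 : 1 ≤ D.card) (hDq : D.card ≤ q)
    (hDη : 1 ≤ (D.card : ℝ) ^ 2 * η) (hp : 2 ≤ p) (hpq : p.Coprime q) :
    ∃ C : ℝ, 0 < C ∧ ∀ l : ℕ, l.Coprime q → ∀ N m : ℕ, 1 ≤ N →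
      (F q D p l N m : ℝ) ≤ C * (N * ((D.card : ℝ) / q) ^ m + yy η D ^ m) := by
  have hP : 2 ≤ p ^ (q - 1) := hp.trans (Nat.le_self_pow (by omega) p)
  have hP1 : q ∣ p ^ (q - 1) - 1 := by
    have h1 : p ^ (q - 1) ≡ 1 [MOD q] := by
      have := Nat.ModEq.pow_totient hpq
      rwa [Nat.totient_prime hq] at this
    exact (Nat.modEq_iff_dvd' (by omega)).1 h1.symm
  obtain ⟨C, hC, h⟩ := F_bound (D := D) hq hq3 hκ hη hηq hη1 hM' hD1 hDq hDη hP hP1
  refine ⟨q * C, by have := hq.pos; positivity, fun l hl N m hN => ?_⟩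
  have h1 : (F q D p l N m : ℝ) ≤ ∑ r ∈ range (q - 1), (F q D (p ^ (q - 1)) (l * p ^ r) N m : ℝ) := by
    exact_mod_cast F_general (D := D) (p := p) l N m hq.two_le
  refine h1.trans ((sum_le_sum fun r _ => h (l * p ^ r) (Nat.Coprime.mul_left hl (Nat.Coprime.pow_left _ hpq)) N m hN).trans ?_)
  rw [sum_const, card_range, nsmul_eq_mul, mul_assoc (q : ℝ)]
  refine mul_le_mul_of_nonneg_right ?_ ?_
  · exact_mod_cast Nat.sub_le q 1
  · have : 0 ≤ yy η D ^ m := pow_nonneg yy_nonneg _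
    positivity

/-- the number of `n < N` such that all digits of `l p^n` lie in `D` -/
def G (q : ℕ) (D : Finset ℕ) (p l N : ℕ) : ℕ :=
  ((range N).filter (fun n => (Nat.digits q (l * p ^ n)).toFinset ⊆ D)).card

lemma G_le (hq : 2 ≤ q) (hp : 2 ≤ p) {l : ℕ} (hl : 0 < l) (N m : ℕ) : G q D p l N ≤ F q D p l N m + q * m := by
  unfold G F
  have : (range N).filter (fun n => (Nat.digits q (l * p ^ n)).toFinset ⊆ D) ⊆
      ((range N).filter (fun n => ∀ ι < m, l * p ^ n / q ^ ι % q ∈ D)) ∪ range (q * m) := by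
    intro n hn
    rw [mem_filter] at hn
    rw [mem_union, mem_filter]
    by_cases h : n < q * m
    · exact Or.inr (mem_range.2 h)
    · left
      refine ⟨hn.1, fun ι hι => hn.2 (List.mem_toFinset.2 ?_)⟩
      have h2 : q ^ m ≤ l * p ^ n := by
        calc q ^ m ≤ (2 ^ q) ^ m := Nat.pow_le_pow_left (Nat.lt_two_pow_self).le m
          _ = 2 ^ (q * m) := by rw [pow_mul]
          _ ≤ p ^ (q * m) := Nat.pow_le_pow_left hp _
          _ ≤ p ^ n := Nat.pow_le_pow_right (by omega) (not_lt.1 h)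
          _ ≤ l * p ^ n := Nat.le_mul_of_pos_left _ hl
      have h3 : ι < (Nat.digits q (l * p ^ n)).length := by
        rw [Nat.lt_digits_length_iff (by omega)]
        exact (Nat.pow_le_pow_right (by omega) hι.le).trans h2
      have h4 := Nat.getD_digits (l * p ^ n) ι hq
      rw [← h4, List.getD_eq_getElem _ _ h3]
      exact List.getElem_mem h3
  refine (card_le_card this).trans ((card_union_le _ _).trans ?_)
  rw [card_range]

/-- balancing -/
lemma balance {ρ y N₀ : ℝ} {α τ lq : ℝ} (hlq : 0 < lq) (hN : 1 ≤ N₀) (hτ : 0 < τ) (hα : α < 1)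
    (hρ : Real.log ρ = (α - 1) * lq) (hρ0 : 0 < ρ) (hy : Real.log y = τ * lq) (hy0 : 0 < y) :
    ∃ m : ℕ, (m : ℝ) ≤ Real.log N₀ / (lq * (τ + 1 - α)) ∧
      N₀ * ρ ^ m ≤ ρ⁻¹ * N₀ ^ (τ / (τ + 1 - α)) ∧ y ^ m ≤ N₀ ^ (τ / (τ + 1 - α)) := by
  have hw : 0 < τ + 1 - α := by linarith
  have hN0 : 0 < N₀ := by linarith
  have hlN : 0 ≤ Real.log N₀ := Real.log_nonneg hN
  set M := Real.log N₀ / (lq * (τ + 1 - α)) with hM
  have hM0 : 0 ≤ M := by positivity
  refine ⟨⌊M⌋₊, Nat.floor_le hM0, ?_, ?_⟩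
  · have h1 : M - 1 ≤ ⌊M⌋₊ := by have := Nat.lt_floor_add_one M; linarith
    rw [← Real.log_le_log_iff (by positivity) (by positivity), Real.log_mul hN0.ne' (by positivity),
      Real.log_mul (by positivity) (by positivity), Real.log_pow, Real.log_inv, hρ,
      Real.log_rpow hN0]
    have h2 : (⌊M⌋₊ : ℝ) * ((α - 1) * lq) ≤ (M - 1) * ((α - 1) * lq) := by
      apply mul_le_mul_of_nonpos_right h1
      nlinarith
    have h3 : M * ((α - 1) * lq) = (α - 1) * Real.log N₀ / (τ + 1 - α) := by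
      rw [hM]; field_simp
    have h4 : Real.log N₀ + (α - 1) * Real.log N₀ / (τ + 1 - α) = τ / (τ + 1 - α) * Real.log N₀ := by
      field_simp; ring
    linarith
  · rw [← Real.log_le_log_iff (by positivity) (by positivity), Real.log_pow, hy, Real.log_rpow hN0]
    have h2 : (⌊M⌋₊ : ℝ) * (τ * lq) ≤ M * (τ * lq) :=
      mul_le_mul_of_nonneg_right (Nat.floor_le hM0) (by positivity)
    have h3 : M * (τ * lq) = τ / (τ + 1 - α) * Real.log N₀ := by
      rw [hM]; field_simp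
    linarith

/-- the count of `n < N` with all digits in `D` -/
theorem G_bound (hq : q.Prime) (hq3 : 3 ≤ q) {κ : ℕ} (hκ : 1 ≤ κ) {η : ℝ} (hη : 0 < η)
    (hηq : 5 / 3 ≤ q * η) (hη1 : η ≤ 1) (hM' : Mom q D κ η) (hD1 : 1 ≤ D.card) (hDq : D.card < q)
    (hDη : 1 < (D.card : ℝ) ^ 2 * η) (hp : 2 ≤ p) (hpq : p.Coprime q) {α τ : ℝ}
    (hα : α = Real.log D.card / Real.log q) (hτ : τ = Real.log (yy η D) / Real.log q) :
    0 < τ ∧ ∃ C : ℝ, 0 < C ∧ ∀ l : ℕ, l.Coprime q → ∀ N : ℕ, 1 ≤ N →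
      (G q D p l N : ℝ) ≤ C * (N : ℝ) ^ (τ / (τ + 1 - α)) := by
  obtain ⟨C, hC, h⟩ := F_bound' (D := D) hq hq3 hκ hη hηq hη1 hM' hD1 hDq.le hDη.le hp hpq
  have hq0 : (0 : ℝ) < q := by exact_mod_cast hq.pos
  have hq1 : (1 : ℝ) < q := by exact_mod_cast hq.one_lt
  have hlq : 0 < Real.log q := Real.log_pos hq1
  have hδ1 : (1 : ℝ) ≤ D.card := by exact_mod_cast hD1
  have hδq : (D.card : ℝ) < q := by exact_mod_cast hDq
  have hyy1 : 1 < yy η D := by
    by_contra hc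
    have h1 := yy_sq (D := D) hη
    have h2 := yy_nonneg (η := η) (D := D)
    nlinarith
  have hα1 : α < 1 := by
    rw [hα, div_lt_one hlq]
    exact Real.log_lt_log (by linarith) hδq
  have hα0 : 0 ≤ α := by rw [hα]; exact div_nonneg (Real.log_nonneg hδ1) hlq.le
  have hτ0 : 0 < τ := by rw [hτ]; exact div_pos (Real.log_pos hyy1) hlq
  refine ⟨hτ0, ?_⟩
  set θ := τ / (τ + 1 - α) with hθ
  have hθ0 : 0 < θ := div_pos hτ0 (by linarith)
  have hw : 0 < τ + 1 - α := by linarith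
  set ρ := (D.card : ℝ) / q with hρ
  have hρ0 : 0 < ρ := by positivity
  have hlρ : Real.log ρ = (α - 1) * Real.log q := by
    have : Real.log D.card = α * Real.log q := by rw [hα, div_mul_cancel₀ _ hlq.ne']
    rw [hρ, Real.log_div (by linarith) (by linarith), this]; ring
  have hly : Real.log (yy η D) = τ * Real.log q := by rw [hτ, div_mul_cancel₀ _ hlq.ne']
  have hc0 : 0 < 1 / (Real.log q * (τ + 1 - α)) * (1 / θ) :=
    mul_pos (one_div_pos.2 (mul_pos hlq hw)) (one_div_pos.2 hθ0)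
  have hc1 : 0 < ρ⁻¹ + 1 := by have := inv_pos.2 hρ0; linarith
  refine ⟨C * (ρ⁻¹ + 1) + q * (1 / (Real.log q * (τ + 1 - α)) * (1 / θ)),
    add_pos (mul_pos hC hc1) (mul_pos hq0 hc0), fun l hl N hN => ?_⟩
  have hN1 : (1 : ℝ) ≤ N := by exact_mod_cast hN
  have hl0 : 0 < l := by
    rcases Nat.eq_zero_or_pos l with rfl | h0
    · rw [Nat.coprime_zero_left] at hl
      omega
    · exact h0
  obtain ⟨m, hm1, hm2, hm3⟩ := balance hlq hN1 hτ0 hα1 hlρ hρ0 hly (by linarith)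
  have h1 : (G q D p l N : ℝ) ≤ F q D p l N m + q * m := by exact_mod_cast G_le hq.two_le hp hl0 N m
  have h2 := h l hl N m hN
  have h3 : Real.log (N : ℝ) ≤ (N : ℝ) ^ θ / θ := Real.log_le_rpow_div (by linarith) hθ0
  have h4 : (q : ℝ) * m ≤ q * (1 / (Real.log q * (τ + 1 - α)) * (1 / θ)) * (N : ℝ) ^ θ := by
    calc (q : ℝ) * m ≤ q * (Real.log N / (Real.log q * (τ + 1 - α))) := mul_le_mul_of_nonneg_left hm1 hq0.le
      _ ≤ q * (((N : ℝ) ^ θ / θ) / (Real.log q * (τ + 1 - α))) := by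
          apply mul_le_mul_of_nonneg_left _ hq0.le
          exact div_le_div_of_nonneg_right h3 (mul_pos hlq hw).le
      _ = _ := by field_simp
  have h5 : C * (N * ρ ^ m + yy η D ^ m) ≤ C * (ρ⁻¹ + 1) * (N : ℝ) ^ θ := by
    rw [mul_assoc]
    apply mul_le_mul_of_nonneg_left _ hC.le
    rw [add_mul, one_mul]
    exact add_le_add hm2 hm3
  calc (G q D p l N : ℝ) ≤ C * (N * ρ ^ m + yy η D ^ m) + q * m := by linarith
    _ ≤ _ := by rw [add_mul]; linarith

end Pool.Agent.W301.TD
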