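import Pool.Agent.W301.TD.CountD
import Pool.Agent.W301.TD.General

/-! Digit sets missing few digits, large `q`. -/

set_option autoImplicit false

namespace Pool.Agent.W301.TD

open Finset

lemma tower_pos {q : ℕ} (hq : q.Prime) {p : ℕ} (hp2 : 2 ≤ p) (hp : ¬ q ∣ p) :
    ∃ s : ℕ, 1 ≤ s ∧ ∀ i, ∃ w, ¬ q ∣ w ∧ p ^ ((q ^ 2).totient * q ^ i) = 1 + q ^ (s + i) * w := by
  obtain ⟨s, hs⟩ := AA.exists_tower hq hp2 hp
  refine ⟨s, ?_, hs⟩
  obtain ⟨w, hwq, hw⟩ := hs 0
  by_contra h0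
  have hs0 : s = 0 := by omega
  rw [hs0] at hw
  simp only [pow_zero, mul_one, add_zero, one_mul] at hw
  have hcop : p.Coprime (q ^ 2) := by
    apply Nat.Coprime.pow_right
    rw [Nat.coprime_comm]
    exact (Nat.Prime.coprime_iff_not_dvd hq).2 hp
  have h1 : p ^ (q ^ 2).totient ≡ 1 [MOD q ^ 2] := Nat.ModEq.pow_totient hcop
  have h2 : q ^ 2 ∣ p ^ (q ^ 2).totient - 1 := (Nat.modEq_iff_dvd' (by rw [hw]; omega)).1 h1.symm
  rw [hw, Nat.add_sub_cancel_left] at h2
  exact hwq ((dvd_pow_self q (by norm_num)).trans h2)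

/-- **Missing digits, large `q`.** -/
theorem missing (A : ℝ) (hA : 0 < A) (T : ℕ) :
    ∃ q₀ : ℕ, ∀ q : ℕ, q₀ ≤ q → q.Prime → ∀ p : ℕ, 2 ≤ p → ¬ q ∣ p → ∀ D : Finset ℕ, D ⊆ range q →
      q ≤ D.card + T → ∃ C : ℝ, ∀ l : ℕ, ¬ q ∣ l → ∀ N : ℕ, 1 ≤ N →
        (G q D p l N : ℝ) ≤ C * (N : ℝ) ^ (1 - A * (1 - Real.log D.card / Real.log q)) := by
  obtain ⟨η, hη, hη2, hexp⟩ := AA.expsum_unif (1 / 4) (A + 1) (by norm_num) (by norm_num) (by linarith)
  set Y0 : ℝ := (3 + T) + 128 * A ^ 2 / η ^ 2 + 4 * A / η with hY0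
  have hT0 : (0 : ℝ) ≤ T := Nat.cast_nonneg _
  have hY1 : 0 < 128 * A ^ 2 / η ^ 2 := by positivity
  have hY2 : 0 < 4 * A / η := by positivity
  refine ⟨⌈Real.exp Y0⌉₊ + 2 * T + 3, fun q hqq hq p hp2 hp D hD hDT => ?_⟩
  have hq3 : 3 ≤ q := by omega
  have hq2T : 2 * T ≤ q := by omega
  have hqR : (3 : ℝ) ≤ q := by exact_mod_cast hq3
  have hq0 : (0 : ℝ) < q := by linarith
  have hq1 : (1 : ℝ) < q := by linarith
  set lq := Real.log q with hlq
  have hlq0 : 0 < lq := Real.log_pos hq1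
  have hlqY : Y0 ≤ lq := by
    rw [hlq, Real.le_log_iff_exp_le hq0]
    have h1 : Real.exp Y0 ≤ ⌈Real.exp Y0⌉₊ := Nat.le_ceil _
    have h2 : ((⌈Real.exp Y0⌉₊ : ℕ) : ℝ) ≤ q := by exact_mod_cast (by omega : ⌈Real.exp Y0⌉₊ ≤ q)
    linarith
  have hDq : D.card ≤ q := by
    have := card_le_card hD
    rwa [card_range] at this
  have hDpos : 0 < D.card := by omega
  have hDR0 : (0 : ℝ) < D.card := by exact_mod_cast hDpos
  have hDR : (D.card : ℝ) ≤ q := by exact_mod_cast hDq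
  set ε := 1 - Real.log D.card / lq with hε
  have hε0 : 0 ≤ ε := by
    rw [hε, sub_nonneg, div_le_one hlq0]
    exact Real.log_le_log hDR0 hDR
  have hε1 : A * ε ≤ η / 4 := by
    have h1 : ε * lq ≤ 1 := by
      have e1 : ε * lq = Real.log ((q : ℝ) / D.card) := by
        rw [Real.log_div hq0.ne' hDR0.ne', hε, sub_mul, div_mul_cancel₀ _ hlq0.ne', one_mul]
      rw [e1]
      have e2 := Real.log_le_sub_one_of_pos (show 0 < (q : ℝ) / D.card by positivity)
      refine e2.trans ?_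
      rw [sub_le_iff_le_add, div_le_iff₀ hDR0]
      have e3 : (q : ℝ) ≤ 2 * D.card := by exact_mod_cast (by omega : q ≤ 2 * D.card)
      linarith
    have h2 : 4 * A / η ≤ lq := by linarith
    rw [div_le_iff₀ hη] at h2
    have h3 : A * (ε * lq) ≤ A * 1 := mul_le_mul_of_nonneg_left h1 hA.le
    have h4 : (A * ε) * lq ≤ (η / 4) * lq := by nlinarith
    exact le_of_mul_le_mul_right h4 hlq0
  set lam : ℝ := 3 + lq + T with hlam
  have hlam0 : 0 < lam := by positivity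
  have hlam1 : 1 ≤ lam := by linarith
  have hlamlog : A * Real.log lam ≤ η / 4 * lq := by
    have h1 : Real.log lam ≤ lam ^ (1 / 2 : ℝ) / (1 / 2) := Real.log_le_rpow_div hlam0.le (by norm_num)
    rw [← Real.sqrt_eq_rpow] at h1
    have h2 : Real.sqrt lam ≤ η * lq / (8 * A) := by
      rw [Real.sqrt_le_iff]
      refine ⟨by positivity, ?_⟩
      have h3 : lam ≤ 2 * lq := by linarith
      refine h3.trans ?_
      rw [div_pow, le_div_iff₀ (by positivity)]
      have h4 : 128 * A ^ 2 / η ^ 2 ≤ lq := by linarith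
      rw [div_le_iff₀ (by positivity)] at h4
      nlinarith
    have h5 : A * (Real.sqrt lam / (1 / 2)) ≤ A * (η * lq / (8 * A) / (1 / 2)) := by
      apply mul_le_mul_of_nonneg_left _ hA.le
      exact div_le_div_of_nonneg_right h2 (by norm_num)
    have h6 : A * (η * lq / (8 * A) / (1 / 2)) = η / 4 * lq := by field_simp; ring
    have h7 := mul_le_mul_of_nonneg_left h1 hA.le
    linarith
  obtain ⟨s, hs1, hs⟩ := tower_pos hq hp2 hp
  set g := (q ^ 2).totient with hg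
  have hg1 : 1 ≤ g := Nat.totient_pos.2 (pow_pos hq.pos 2)
  obtain ⟨x0, hx0⟩ := hexp hq hp hg1 hs
  set X0 : ℝ := max x0 (s + 1) with hX0
  have mono : ∀ {a b : ℝ}, a ≤ b → (q : ℝ) ^ a ≤ (q : ℝ) ^ b := fun h =>
    Real.rpow_le_rpow_of_exponent_le hq1.le h
  refine ⟨1 + (1 + g) * (q : ℝ) ^ s * lam + q * (2 * A / lq + 1 + s) + (q : ℝ) ^ X0, fun l hl N hN => ?_⟩
  have hN1 : (1 : ℝ) ≤ N := by exact_mod_cast hN
  have hNpos : (0 : ℝ) < N := by linarith
  set x := Real.logb q N with hx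
  have hqx : (q : ℝ) ^ x = N := Real.rpow_logb hq0 hq1.ne' hNpos
  have hxl : x * lq = Real.log N := by rw [hx, Real.logb, div_mul_cancel₀ _ hlq0.ne']
  have hxx0 : 0 ≤ x := Real.logb_nonneg hq1 hN1
  set θ := 1 - A * ε with hθ
  have hθ1 : 7 / 8 ≤ θ := by linarith
  have hNθ : (1 : ℝ) ≤ (N : ℝ) ^ θ := Real.one_le_rpow hN1 (by linarith)
  have c1 : 0 ≤ (1 + (g : ℝ)) * (q : ℝ) ^ s * lam := by positivity
  have c2 : 0 ≤ q * (2 * A / lq + 1 + s) := by positivity
  have c3 : 0 ≤ (q : ℝ) ^ X0 := (Real.rpow_pos_of_pos hq0 _).le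
  have hGN : (G q D p l N : ℝ) ≤ N := by
    have : G q D p l N ≤ N := (card_filter_le _ _).trans (by simp)
    exact_mod_cast this
  rcases lt_or_ge x X0 with hxs | hxs
  · -- small N
    have h1 : (N : ℝ) ≤ (q : ℝ) ^ X0 := by rw [← hqx]; exact mono hxs.le
    calc (G q D p l N : ℝ) ≤ (q : ℝ) ^ X0 * 1 := by linarith
      _ ≤ (1 + (1 + g) * (q : ℝ) ^ s * lam + q * (2 * A / lq + 1 + s) + (q : ℝ) ^ X0) * (N : ℝ) ^ θ := by
          apply mul_le_mul (by linarith) hNθ zero_le_one (by linarith)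
  have hxs1 : x0 ≤ x := (le_max_left _ _).trans hxs
  have hxs2 : (s : ℝ) + 1 ≤ x := (le_max_right _ _).trans hxs
  set k : ℕ := ⌈A * x⌉₊ with hk
  have hk1 : A * x ≤ k := Nat.le_ceil _
  have hk2 : (k : ℝ) < A * x + 1 := Nat.ceil_lt_add_one (by positivity)
  set m := k + s with hm
  have hmks : m - s = k := by omega
  set B : ℝ := (q : ℝ) ^ (-(η * x)) * N + g * (q : ℝ) ^ (1 / 4 * x) with hB
  have hB0 : 0 ≤ B := by
    have := Real.rpow_pos_of_pos hq0 (-(η * x))
    have := Real.rpow_pos_of_pos hq0 (1 / 4 * x)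
    positivity
  have hl0 : 0 < l := by
    rcases Nat.eq_zero_or_pos l with h0 | h0
    · rw [h0] at hl; exact absurd (dvd_zero q) hl
    · exact h0
  have hqZ : Prime (q : ℤ) := Nat.prime_iff_prime_int.1 hq
  have hcount := count_L1 (D := D) hq hD (m := m) (s := s) (by omega) (fun n => l * p ^ n) N (B := B)
    (A1 := q * lam) hB0 (fun ι hι1 hι2 A' hA' => by
      have hA2 : ¬ (q : ℤ) ∣ A' * l := by
        intro h
        rcases hqZ.dvd_or_dvd h with h | h
        · exact hA' h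
        · exact hl (by exact_mod_cast h)
      have hrw : ∀ n ∈ range N, Pool.Agent.Helper602.MK.ee ((A' : ℝ) * ((l * p ^ n : ℕ) : ℝ) / (q : ℝ) ^ ι) =
          Pool.Agent.Helper602.MK.ee (((A' * l : ℤ) : ℝ) * (p : ℝ) ^ n / (q : ℝ) ^ ι) := by
        intro n _
        congr 1; push_cast; ring
      rw [sum_congr rfl hrw]
      have p1 := Real.rpow_pos_of_pos hq0 (-(η * x))
      have p2 := Real.rpow_pos_of_pos hq0 (1 / 4 * x)
      rcases lt_or_ge (ι : ℝ) (1 / 4 * x) with h1 | h1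
      · have h2 := AA.expsum_small hq hp hg1 hs1 hs N ι hι1 (A' * l) hA2
        refine h2.trans ?_
        have h3 : (q : ℝ) ^ ι ≤ (q : ℝ) ^ (1 / 4 * x) := by
          rw [← Real.rpow_natCast]; exact mono h1.le
        have h4 : (g : ℝ) * (q : ℝ) ^ ι ≤ g * (q : ℝ) ^ (1 / 4 * x) := mul_le_mul_of_nonneg_left h3 (Nat.cast_nonneg _)
        have h5 : 0 ≤ (q : ℝ) ^ (-(η * x)) * N := by positivity
        linarith
      · have h2 := hx0 x hxs1 N hqx.symm ι h1 (by
          have h3 : (ι : ℝ) ≤ k + s := by exact_mod_cast hι2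
          linarith) (A' * l) hA2
        have h5 : 0 ≤ (g : ℝ) * (q : ℝ) ^ (1 / 4 * x) := by positivity
        linarith) (by
      have h1 := lone_induction hq.pos hD (q * lam) (by positivity) (fun t h0 h1 => one_digit_L1 hq.two_le hD T hDT t h0 h1)
        (m - s) 0 le_rfl one_pos
      simpa using h1)
  rw [hmks] at hcount
  -- G in terms of the count
  have hG : (G q D p l N : ℝ) ≤ (((range N).filter (fun n => ∀ i < k, l * p ^ n / q ^ s / q ^ i % q ∈ D)).card : ℝ) +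
      q * m := by
    have h1 := G_le (D := D) hq.two_le hp2 hl0 N m
    have h2 : F q D p l N m ≤ ((range N).filter (fun n => ∀ i < k, l * p ^ n / q ^ s / q ^ i % q ∈ D)).card := by
      unfold F
      refine card_le_card fun n hn => ?_
      rw [mem_filter] at hn ⊢
      refine ⟨hn.1, fun i hi => ?_⟩
      rw [Nat.div_div_eq_div_mul, ← pow_add]
      exact hn.2 (s + i) (by omega)
    have h3 : G q D p l N ≤ ((range N).filter (fun n => ∀ i < k, l * p ^ n / q ^ s / q ^ i % q ∈ D)).card + q * m := by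
      omega
    exact_mod_cast h3
  -- main term
  have hmain : (N : ℝ) * ((D.card : ℝ) / q) ^ k ≤ (N : ℝ) ^ θ := by
    have e1 : (D.card : ℝ) / q = (q : ℝ) ^ (-ε) := by
      rw [Real.rpow_def_of_pos hq0, ← Real.exp_log (show 0 < (D.card : ℝ) / q by positivity),
        Real.log_div hDR0.ne' hq0.ne']
      congr 1
      have : Real.log D.card = (1 - ε) * lq := by rw [hε]; field_simp; ring
      rw [this, ← hlq]; ring
    have e2 : (N : ℝ) ^ θ = N * (q : ℝ) ^ (-(ε * (A * x))) := by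
      rw [hθ, ← hqx, ← Real.rpow_mul hq0.le, ← Real.rpow_add hq0]
      congr 1; ring
    rw [e2, e1, ← Real.rpow_natCast, ← Real.rpow_mul hq0.le]
    apply mul_le_mul_of_nonneg_left _ hNpos.le
    apply mono
    have := mul_le_mul_of_nonneg_left hk1 hε0
    linarith
  -- error term
  have herr : B * (q : ℝ) ^ s * (q * lam / q) ^ k ≤ (1 + g) * (q : ℝ) ^ s * lam * (N : ℝ) ^ θ := by
    have e1 : (q : ℝ) * lam / q = lam := by field_simp
    rw [e1]
    have e2 : lam ^ k ≤ lam * (q : ℝ) ^ (η / 4 * x) := by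
      have h1 : lam ^ k ≤ lam ^ (A * x + 1) := by
        rw [← Real.rpow_natCast]
        exact Real.rpow_le_rpow_of_exponent_le hlam1 hk2.le
      refine h1.trans ?_
      rw [Real.rpow_add hlam0, Real.rpow_one, mul_comm]
      apply mul_le_mul_of_nonneg_left _ hlam0.le
      rw [Real.rpow_def_of_pos hlam0, Real.rpow_def_of_pos hq0]
      apply Real.exp_le_exp.2
      rw [← hlq]
      have := mul_le_mul_of_nonneg_right hlamlog hxx0
      linarith
    have e3 : B ≤ (1 + g) * ((q : ℝ) ^ ((1 - η) * x)) := by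
      rw [hB, add_mul, one_mul]
      refine add_le_add (le_of_eq ?_) ?_
      · rw [← hqx, ← Real.rpow_add hq0]; congr 1; ring
      · apply mul_le_mul_of_nonneg_left _ (Nat.cast_nonneg _)
        apply mono
        nlinarith
    have e4 : (q : ℝ) ^ ((1 - η) * x) * (q : ℝ) ^ (η / 4 * x) ≤ (N : ℝ) ^ θ := by
      rw [← hqx, ← Real.rpow_mul hq0.le, ← Real.rpow_add hq0]
      apply mono
      rw [hθ]
      have h1 : (A * ε) * x ≤ (η / 4) * x := mul_le_mul_of_nonneg_right hε1 hxx0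
      nlinarith
    have p1 := Real.rpow_pos_of_pos hq0 ((1 - η) * x)
    have p2 := Real.rpow_pos_of_pos hq0 (η / 4 * x)
    calc B * (q : ℝ) ^ s * lam ^ k ≤ ((1 + g) * ((q : ℝ) ^ ((1 - η) * x))) * (q : ℝ) ^ s * (lam * (q : ℝ) ^ (η / 4 * x)) :=
          mul_le_mul (mul_le_mul_of_nonneg_right e3 (by positivity)) e2 (by positivity) (by positivity)
      _ = (1 + g) * (q : ℝ) ^ s * lam * ((q : ℝ) ^ ((1 - η) * x) * (q : ℝ) ^ (η / 4 * x)) := by ring
      _ ≤ _ := mul_le_mul_of_nonneg_left e4 (by positivity)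
  -- few n
  have hfew : (q : ℝ) * m ≤ q * (2 * A / lq + 1 + s) * (N : ℝ) ^ θ := by
    have h1 : Real.log N ≤ (N : ℝ) ^ (1 / 2 : ℝ) / (1 / 2) := Real.log_le_rpow_div hNpos.le (by norm_num)
    have h2 : (N : ℝ) ^ (1 / 2 : ℝ) ≤ (N : ℝ) ^ θ := Real.rpow_le_rpow_of_exponent_le hN1 (by linarith)
    have h3 : x = Real.log N / lq := by rw [← hxl]; field_simp
    have h4 : (m : ℝ) ≤ A * x + 1 + s := by rw [hm]; push_cast; linarith
    have h5 : A * x ≤ 2 * A / lq * (N : ℝ) ^ θ := by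
      rw [h3]
      calc A * (Real.log N / lq) ≤ A * ((2 * (N : ℝ) ^ θ) / lq) := by
            apply mul_le_mul_of_nonneg_left _ hA.le
            apply div_le_div_of_nonneg_right _ hlq0.le
            linarith
        _ = _ := by ring
    have h6 : (1 : ℝ) + s ≤ (1 + s) * (N : ℝ) ^ θ := le_mul_of_one_le_right (by positivity) hNθ
    calc (q : ℝ) * m ≤ q * ((2 * A / lq + 1 + s) * (N : ℝ) ^ θ) := by
          apply mul_le_mul_of_nonneg_left _ hq0.le
          linarith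
      _ = _ := by ring
  calc (G q D p l N : ℝ) ≤ ((N : ℝ) ^ θ + (1 + g) * (q : ℝ) ^ s * lam * (N : ℝ) ^ θ) +
        q * (2 * A / lq + 1 + s) * (N : ℝ) ^ θ := by linarith
    _ = (1 + (1 + g) * (q : ℝ) ^ s * lam + q * (2 * A / lq + 1 + s)) * (N : ℝ) ^ θ := by ring
    _ ≤ _ := mul_le_mul_of_nonneg_right (by linarith) (by linarith)

end Pool.Agent.W301.TD
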