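import Pool.Agent.W301.TD.CountE
import Pool.Agent.W301.TD.Missing

/-! Digit sets which are unions of few intervals: an asymptotic formula. -/

set_option autoImplicit false

namespace Pool.Agent.W301.TD

open Finset
open Pool.Agent.H807R2.Dav (dd dd_ge)

variable {q : ℕ} {D : Finset ℕ}

/-- the exponential sum over a union of few intervals -/
lemma Phi_runs (D : Finset ℕ) (T : ℕ) (hT : (D.filter (fun x => x + 1 ∉ D)).card ≤ T) (θ : ℝ) (h0 : 0 < θ) (h1 : θ < 1) :
    ‖Φ D θ‖ ≤ T * (1 / (2 * θ) + 1 / (2 * (1 - θ))) := by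
  have hdd := dd_ge h0.le h1.le
  have hmin : 0 < min θ (1 - θ) := lt_min h0 (by linarith)
  have hddpos : 0 < dd θ := by linarith
  have hee : dd θ = ‖1 - ee θ‖ := rfl
  set E := D.image (· + 1) with hE
  have hEc : E.card = D.card := card_image_of_injective _ (add_left_injective 1)
  have h2 : ee θ * Φ D θ = Φ E θ := by
    unfold Φ
    rw [hE, sum_image (fun x _ y _ h => add_left_injective 1 h), mul_sum]
    refine sum_congr rfl fun x _ => ?_
    rw [← ee_add]
    congr 1; push_cast; ring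
  have hED : (E \ D).card ≤ T := by
    have : E \ D = (D.filter (fun x => x + 1 ∉ D)).image (· + 1) := by
      ext y
      simp only [hE, mem_sdiff, mem_image, mem_filter]
      constructor
      · rintro ⟨⟨x, hx, rfl⟩, hy⟩
        exact ⟨x, ⟨hx, hy⟩, rfl⟩
      · rintro ⟨x, ⟨hx, hy⟩, rfl⟩
        exact ⟨⟨x, hx, rfl⟩, hy⟩
    rw [this]
    exact card_image_le.trans hT
  have hDE : (D \ E).card ≤ T := by
    have h3 := card_sdiff_add_card_inter D E
    have h4 := card_sdiff_add_card_inter E D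
    rw [inter_comm E D] at h4
    omega
  have h3 : Φ D θ - Φ E θ = Φ (D \ E) θ - Φ (E \ D) θ := by
    unfold Φ
    have e1 := sum_inter_add_sum_sdiff D E (fun d => ee (d * θ))
    have e2 := sum_inter_add_sum_sdiff E D (fun d => ee (d * θ))
    rw [inter_comm E D] at e2
    rw [← e1, ← e2]; ring
  have h4 : ∀ S : Finset ℕ, ‖Φ S θ‖ ≤ S.card := by
    intro S
    unfold Φ
    refine (norm_sum_le _ _).trans ?_
    simp [norm_ee]
  have h5 : ‖Φ D θ‖ * dd θ ≤ 2 * T := by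
    rw [hee, ← norm_mul]
    have : Φ D θ * (1 - ee θ) = Φ D θ - Φ E θ := by rw [← h2]; ring
    rw [this, h3]
    refine (norm_sub_le _ _).trans ?_
    have a1 := h4 (D \ E)
    have a2 := h4 (E \ D)
    have a3 : ((D \ E).card : ℝ) ≤ T := by exact_mod_cast hDE
    have a4 : ((E \ D).card : ℝ) ≤ T := by exact_mod_cast hED
    linarith
  have hT0 : (0 : ℝ) ≤ T := Nat.cast_nonneg _
  have h6 : ‖Φ D θ‖ ≤ 2 * T / (4 * min θ (1 - θ)) := by
    rw [← le_div_iff₀ hddpos] at h5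
    exact h5.trans (div_le_div_of_nonneg_left (by positivity) (by positivity) hdd)
  refine h6.trans ?_
  rcases le_total θ (1 - θ) with h | h
  · rw [min_eq_left h]
    have e : 2 * (T : ℝ) / (4 * θ) = T * (1 / (2 * θ)) := by field_simp; ring
    rw [e]
    apply mul_le_mul_of_nonneg_left _ hT0
    have : 0 ≤ 1 / (2 * (1 - θ)) := by
      have : 0 < 1 - θ := by linarith
      positivity
    linarith
  · rw [min_eq_right h]
    have hp : 0 < 1 - θ := by linarith
    have e : 2 * (T : ℝ) / (4 * (1 - θ)) = T * (1 / (2 * (1 - θ))) := by field_simp; ring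
    rw [e]
    apply mul_le_mul_of_nonneg_left _ hT0
    have : 0 ≤ 1 / (2 * θ) := by positivity
    linarith

/-- the one digit bound for unions of intervals -/
lemma runs_L1 (hq : 2 ≤ q) (hD : D ⊆ range q) (T : ℕ) (hT : (D.filter (fun x => x + 1 ∉ D)).card ≤ T)
    (t : ℝ) (ht0 : 0 ≤ t) (ht1 : t < 1) :
    ∑ a ∈ range q, ‖Φ D ((a + t) / q)‖ ≤ q * (2 + T * (1 + Real.log q)) := by
  have hq0 : (0 : ℝ) < q := by positivity
  have hT0 : (0 : ℝ) ≤ T := Nat.cast_nonneg _
  have hDq : (D.card : ℝ) ≤ q := by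
    have := card_le_card hD
    rw [card_range] at this
    exact_mod_cast this
  have hpt : ∀ a ∈ range q, ‖Φ D ((a + t) / q)‖ ≤ (if a = 0 then (q : ℝ) else 0) + (if a = q - 1 then (q : ℝ) else 0) +
      T * (q / 2 * (1 / (a : ℝ)) + q / 2 * (1 / ((q - 1 - a : ℕ) : ℝ))) := by
    intro a ha
    have ha := mem_range.1 ha
    have htriv : ‖Φ D ((a + t) / q)‖ ≤ q := by
      unfold Φ
      refine (norm_sum_le _ _).trans ?_
      simpa [norm_ee] using hDq
    have p1 : (0 : ℝ) ≤ T * (q / 2 * (1 / (a : ℝ)) + q / 2 * (1 / ((q - 1 - a : ℕ) : ℝ))) := by positivity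
    by_cases h0 : a = 0
    · rw [if_pos h0]
      have : (0 : ℝ) ≤ if a = q - 1 then (q : ℝ) else 0 := by split_ifs <;> linarith
      linarith
    by_cases h1 : a = q - 1
    · rw [if_pos h1, if_neg h0]
      linarith
    rw [if_neg h0, if_neg h1, zero_add, zero_add]
    have ha1 : (1 : ℝ) ≤ a := by exact_mod_cast Nat.one_le_iff_ne_zero.2 h0
    have haq : (1 : ℝ) ≤ ((q - 1 - a : ℕ) : ℝ) := by exact_mod_cast (by omega : 1 ≤ q - 1 - a)
    have hcast : ((q - 1 - a : ℕ) : ℝ) = q - 1 - a := by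
      rw [Nat.sub_sub, Nat.cast_sub (by omega)]; push_cast; ring
    have hθ0 : 0 < (a + t) / q := by positivity
    have hθ1 : (a + t) / q < 1 := by
      rw [div_lt_one hq0]
      rw [hcast] at haq
      linarith
    refine (Phi_runs D T hT _ hθ0 hθ1).trans ?_
    refine mul_le_mul_of_nonneg_left (add_le_add ?_ ?_) hT0
    · have e : (1 : ℝ) / (2 * ((a + t) / q)) = q / (2 * (a + t)) := by field_simp
      have e2 : (q : ℝ) / 2 * (1 / (a : ℝ)) = q / (2 * a) := by field_simp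
      rw [e, e2]
      exact div_le_div_of_nonneg_left hq0.le (by positivity) (by linarith)
    · have hp : 0 < q - (a + t) := by rw [hcast] at haq; linarith
      have e : (1 : ℝ) / (2 * (1 - (a + t) / q)) = q / (2 * (q - (a + t))) := by
        field_simp
      have e2 : (q : ℝ) / 2 * (1 / ((q - 1 - a : ℕ) : ℝ)) = q / (2 * ((q - 1 - a : ℕ) : ℝ)) := by field_simp
      rw [e, e2]
      refine div_le_div_of_nonneg_left hq0.le (by positivity) ?_
      rw [hcast]; linarith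
  refine (sum_le_sum hpt).trans ?_
  rw [sum_add_distrib, sum_add_distrib, ← mul_sum, sum_add_distrib, ← mul_sum, ← mul_sum]
  have s1 : ∑ a ∈ range q, (if a = 0 then (q : ℝ) else 0) ≤ q := by
    rw [sum_ite_eq' (range q) 0]; split_ifs <;> linarith
  have s2 : ∑ a ∈ range q, (if a = q - 1 then (q : ℝ) else 0) ≤ q := by
    rw [sum_ite_eq' (range q) (q - 1)]; split_ifs <;> linarith
  have s3 := sum_inv_le q (by omega)
  have s4 : ∑ a ∈ range q, (1 : ℝ) / ((q - 1 - a : ℕ) : ℝ) ≤ 1 + Real.log q := by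
    rw [sum_range_reflect (fun a => (1 : ℝ) / (a : ℝ)) q]
    exact s3
  have hq2 : (0 : ℝ) ≤ q / 2 := by positivity
  have m3 := mul_le_mul_of_nonneg_left s3 hq2
  have m4 := mul_le_mul_of_nonneg_left s4 hq2
  have m5 : T * ((q : ℝ) / 2 * ∑ a ∈ range q, (1 : ℝ) / a + q / 2 * ∑ a ∈ range q, (1 : ℝ) / ((q - 1 - a : ℕ) : ℝ)) ≤
      T * (q * (1 + Real.log q)) := mul_le_mul_of_nonneg_left (by linarith) hT0
  nlinarith

theorem asym_gen (A : ℝ) (hA : 0 < A) :
    ∃ c : ℝ, 0 < c ∧ c ≤ 1 / 4 ∧ ∀ q : ℕ, q.Prime → ∀ p : ℕ, 2 ≤ p → ¬ q ∣ p → ∃ s : ℕ,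
      ∀ D : Finset ℕ, D ⊆ range q → ∀ lam : ℝ, 1 ≤ lam → A * Real.log lam ≤ c / 2 * Real.log q →
      (∀ t : ℝ, 0 ≤ t → t < 1 → ∑ a ∈ range q, ‖Φ D ((a + t) / q)‖ ≤ q * lam) →
      ∃ C : ℝ, 0 ≤ C ∧ ∀ l : ℕ, ¬ q ∣ l → ∀ N : ℕ, 1 ≤ N → ∀ k : ℕ, (k : ℝ) ≤ A * Real.logb q N + 1 →
        |(((range N).filter (fun n => ∀ i < k, l * p ^ n / q ^ s / q ^ i % q ∈ D)).card : ℝ) -
          N * ((D.card : ℝ) / q) ^ k| ≤ C * (N : ℝ) ^ (1 - c) := by
  obtain ⟨η, hη, hη2, hexp⟩ := AA.expsum_unif (1 / 4) (A + 1) (by norm_num) (by norm_num) (by linarith)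
  refine ⟨η / 2, by positivity, by linarith, fun q hq p hp2 hp => ?_⟩
  have hq2 : 2 ≤ q := hq.two_le
  have hqR : (2 : ℝ) ≤ q := by exact_mod_cast hq2
  have hq0 : (0 : ℝ) < q := by linarith
  have hq1 : (1 : ℝ) < q := by linarith
  set lq := Real.log q with hlq
  have hlq0 : 0 < lq := Real.log_pos hq1
  obtain ⟨s, hs1, hs⟩ := tower_pos hq hp2 hp
  refine ⟨s, fun D hD lam hlam1 hlamlog hL1 => ?_⟩
  have hDq : D.card ≤ q := by
    have := card_le_card hD
    rwa [card_range] at this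
  have hDR : (D.card : ℝ) ≤ q := by exact_mod_cast hDq
  have hlam0 : 0 < lam := by linarith
  set g := (q ^ 2).totient with hg
  have hg1 : 1 ≤ g := Nat.totient_pos.2 (pow_pos hq.pos 2)
  obtain ⟨x0, hx0⟩ := hexp hq hp hg1 hs
  set X0 : ℝ := max x0 (s + 1) with hX0
  have mono : ∀ {a b : ℝ}, a ≤ b → (q : ℝ) ^ a ≤ (q : ℝ) ^ b := fun h =>
    Real.rpow_le_rpow_of_exponent_le hq1.le h
  have c1 : 0 ≤ (1 + (g : ℝ)) * (q : ℝ) ^ s * lam := by positivity
  have c3 : 0 ≤ (q : ℝ) ^ X0 := (Real.rpow_pos_of_pos hq0 _).le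
  refine ⟨(1 + g) * (q : ℝ) ^ s * lam + (q : ℝ) ^ X0, by linarith, fun l hl N hN k hk => ?_⟩
  have hN1 : (1 : ℝ) ≤ N := by exact_mod_cast hN
  have hNpos : (0 : ℝ) < N := by linarith
  set x := Real.logb q N with hx
  have hqx : (q : ℝ) ^ x = N := Real.rpow_logb hq0 hq1.ne' hNpos
  have hxx0 : 0 ≤ x := Real.logb_nonneg hq1 hN1
  have hNθ : (1 : ℝ) ≤ (N : ℝ) ^ (1 - η / 2) := Real.one_le_rpow hN1 (by linarith)
  set cd := ((range N).filter (fun n => ∀ i < k, l * p ^ n / q ^ s / q ^ i % q ∈ D)).card with hcd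
  have hcdN : (cd : ℝ) ≤ N := by
    have : cd ≤ N := (card_filter_le _ _).trans (by simp)
    exact_mod_cast this
  have hr0 : 0 ≤ (D.card : ℝ) / q := by positivity
  have hr1 : (D.card : ℝ) / q ≤ 1 := by rw [div_le_one hq0]; exact hDR
  rcases lt_or_ge x X0 with hxs | hxs
  · -- small N
    have h1 : (N : ℝ) ≤ (q : ℝ) ^ X0 := by rw [← hqx]; exact mono hxs.le
    have h2 : |(cd : ℝ) - N * ((D.card : ℝ) / q) ^ k| ≤ N := by
      have h3 : 0 ≤ (N : ℝ) * ((D.card : ℝ) / q) ^ k := by positivity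
      have h4 : (N : ℝ) * ((D.card : ℝ) / q) ^ k ≤ N := mul_le_of_le_one_right hNpos.le (pow_le_one₀ hr0 hr1)
      have h5 : (0 : ℝ) ≤ cd := Nat.cast_nonneg _
      rw [abs_le]
      constructor <;> linarith
    calc |(cd : ℝ) - N * ((D.card : ℝ) / q) ^ k| ≤ (q : ℝ) ^ X0 * 1 := by linarith
      _ ≤ ((1 + g) * (q : ℝ) ^ s * lam + (q : ℝ) ^ X0) * (N : ℝ) ^ (1 - η / 2) := by
          apply mul_le_mul (by linarith) hNθ zero_le_one (by linarith)
  have hxs1 : x0 ≤ x := (le_max_left _ _).trans hxs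
  have hxs2 : (s : ℝ) + 1 ≤ x := (le_max_right _ _).trans hxs
  set m := k + s with hm
  have hmks : m - s = k := by omega
  set B : ℝ := (q : ℝ) ^ (-(η * x)) * N + g * (q : ℝ) ^ (1 / 4 * x) with hB
  have hB0 : 0 ≤ B := by
    have := Real.rpow_pos_of_pos hq0 (-(η * x))
    have := Real.rpow_pos_of_pos hq0 (1 / 4 * x)
    positivity
  have hl0 : 0 < l := by
    rcases Nat.eq_zero_or_pos l with h0 | h0
    · rw [h0] at hl; exact absurd (dvd_zero q) hl
    · exact h0
  have hqZ : Prime (q : ℤ) := Nat.prime_iff_prime_int.1 hq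
  have hcount := count_abs (D := D) hq hD (m := m) (s := s) (by omega) (fun n => l * p ^ n) N (B := B)
    (A1 := q * lam) hB0 (fun ι hι1 hι2 A' hA' => by
      have hA2 : ¬ (q : ℤ) ∣ A' * l := by
        intro h
        rcases hqZ.dvd_or_dvd h with h | h
        · exact hA' h
        · exact hl (by exact_mod_cast h)
      have hrw : ∀ n ∈ range N, Pool.Agent.Helper602.MK.ee ((A' : ℝ) * ((l * p ^ n : ℕ) : ℝ) / (q : ℝ) ^ ι) =
          Pool.Agent.Helper602.MK.ee (((A' * l : ℤ) : ℝ) * (p : ℝ) ^ n / (q : ℝ) ^ ι) := by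
        intro n _
        congr 1; push_cast; ring
      rw [sum_congr rfl hrw]
      have p1 := Real.rpow_pos_of_pos hq0 (-(η * x))
      have p2 := Real.rpow_pos_of_pos hq0 (1 / 4 * x)
      rcases lt_or_ge (ι : ℝ) (1 / 4 * x) with h1 | h1
      · have h2 := AA.expsum_small hq hp hg1 hs1 hs N ι hι1 (A' * l) hA2
        refine h2.trans ?_
        have h3 : (q : ℝ) ^ ι ≤ (q : ℝ) ^ (1 / 4 * x) := by
          rw [← Real.rpow_natCast]; exact mono h1.le
        have h4 : (g : ℝ) * (q : ℝ) ^ ι ≤ g * (q : ℝ) ^ (1 / 4 * x) := mul_le_mul_of_nonneg_left h3 (Nat.cast_nonneg _)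
        have h5 : 0 ≤ (q : ℝ) ^ (-(η * x)) * N := by positivity
        linarith
      · have h2 := hx0 x hxs1 N hqx.symm ι h1 (by
          have h3 : (ι : ℝ) ≤ k + s := by exact_mod_cast hι2
          linarith) (A' * l) hA2
        have h5 : 0 ≤ (g : ℝ) * (q : ℝ) ^ (1 / 4 * x) := by positivity
        linarith) (by
      have h1 := lone_induction hq.pos hD (q * lam) (by positivity) (fun t h0 h1 => hL1 t h0 h1)
        (m - s) 0 le_rfl one_pos
      simpa using h1)
  rw [hmks] at hcount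
  refine hcount.trans ?_
  -- error term
  have herr : B * (q : ℝ) ^ s * (q * lam / q) ^ k ≤ (1 + g) * (q : ℝ) ^ s * lam * (N : ℝ) ^ (1 - η / 2) := by
    have e1 : (q : ℝ) * lam / q = lam := by field_simp
    rw [e1]
    have e2 : lam ^ k ≤ lam * (q : ℝ) ^ (η / 4 * x) := by
      have h1 : lam ^ k ≤ lam ^ (A * x + 1) := by
        rw [← Real.rpow_natCast]
        exact Real.rpow_le_rpow_of_exponent_le hlam1 hk
      refine h1.trans ?_
      rw [Real.rpow_add hlam0, Real.rpow_one, mul_comm]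
      apply mul_le_mul_of_nonneg_left _ hlam0.le
      rw [Real.rpow_def_of_pos hlam0, Real.rpow_def_of_pos hq0]
      apply Real.exp_le_exp.2
      rw [← hlq]
      have := mul_le_mul_of_nonneg_right hlamlog hxx0
      linarith
    have e3 : B ≤ (1 + g) * ((q : ℝ) ^ ((1 - η) * x)) := by
      rw [hB, add_mul, one_mul]
      refine add_le_add (le_of_eq ?_) ?_
      · rw [← hqx, ← Real.rpow_add hq0]; congr 1; ring
      · apply mul_le_mul_of_nonneg_left _ (Nat.cast_nonneg _)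
        apply mono
        nlinarith
    have e4 : (q : ℝ) ^ ((1 - η) * x) * (q : ℝ) ^ (η / 4 * x) ≤ (N : ℝ) ^ (1 - η / 2) := by
      rw [← hqx, ← Real.rpow_mul hq0.le, ← Real.rpow_add hq0]
      apply mono
      nlinarith
    have p1 := Real.rpow_pos_of_pos hq0 ((1 - η) * x)
    have p2 := Real.rpow_pos_of_pos hq0 (η / 4 * x)
    calc B * (q : ℝ) ^ s * lam ^ k ≤ ((1 + g) * ((q : ℝ) ^ ((1 - η) * x))) * (q : ℝ) ^ s * (lam * (q : ℝ) ^ (η / 4 * x)) :=
          mul_le_mul (mul_le_mul_of_nonneg_right e3 (by positivity)) e2 (by positivity) (by positivity)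
      _ = (1 + g) * (q : ℝ) ^ s * lam * ((q : ℝ) ^ ((1 - η) * x) * (q : ℝ) ^ (η / 4 * x)) := by ring
      _ ≤ _ := mul_le_mul_of_nonneg_left e4 (by positivity)
  refine herr.trans ?_
  apply mul_le_mul_of_nonneg_right (by linarith) (by linarith)

end Pool.Agent.W301.TD
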