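import Pool.Agent.W301.TD.Asym

/-! Digit sets which are unions of few intervals: consequences. -/

set_option autoImplicit false

namespace Pool.Agent.W301.TD

open Finset

theorem runs_main (A : ℝ) (hA : 0 < A) :
    ∃ c : ℝ, 0 < c ∧ ∀ T : ℕ, ∃ q₀ : ℕ, ∀ q : ℕ, q₀ ≤ q → q.Prime → ∀ p : ℕ, 2 ≤ p → ¬ q ∣ p → ∃ s : ℕ,
      ∀ D : Finset ℕ, D ⊆ range q → (D.filter (fun x => x + 1 ∉ D)).card ≤ T → ∃ C : ℝ, ∀ l : ℕ, ¬ q ∣ l →
        ∀ N : ℕ, 1 ≤ N →
        (∀ k : ℕ, (k : ℝ) ≤ A * Real.logb q N →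
          |(((range N).filter (fun n => ∀ i < k, l * p ^ n / q ^ (s + i) % q ∈ D)).card : ℝ) -
            N * ((D.card : ℝ) / q) ^ k| ≤ C * (N : ℝ) ^ (1 - c)) ∧
        ((q : ℝ) ^ (1 - c / A) ≤ D.card →
          (G q D p l N : ℝ) ≤ C * (N : ℝ) ^ (1 - A * (1 - Real.log D.card / Real.log q))) := by
  obtain ⟨c, hc, hc4, hasym⟩ := asym_gen A hA
  refine ⟨c, hc, fun T => ?_⟩
  have hT0 : (0 : ℝ) ≤ T := Nat.cast_nonneg _
  set Y0 : ℝ := 1 + 16 * A ^ 2 * (2 * T + 2) / c ^ 2 with hY0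
  have hY1 : 0 ≤ 16 * A ^ 2 * (2 * T + 2) / c ^ 2 := by positivity
  refine ⟨⌈Real.exp Y0⌉₊ + 2, fun q hqq hq p hp2 hp => ?_⟩
  have hq2 : 2 ≤ q := hq.two_le
  have hqR : (2 : ℝ) ≤ q := by exact_mod_cast hq2
  have hq0 : (0 : ℝ) < q := by linarith
  have hq1 : (1 : ℝ) < q := by linarith
  set lq := Real.log q with hlq
  have hlq0 : 0 < lq := Real.log_pos hq1
  have hlqY : Y0 ≤ lq := by
    rw [hlq, Real.le_log_iff_exp_le hq0]
    have h1 : Real.exp Y0 ≤ ⌈Real.exp Y0⌉₊ := Nat.le_ceil _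
    have h2 : ((⌈Real.exp Y0⌉₊ : ℕ) : ℝ) ≤ q := by exact_mod_cast (by omega : ⌈Real.exp Y0⌉₊ ≤ q)
    linarith
  set lam : ℝ := 2 + T * (1 + lq) with hlam
  have hlam1 : 1 ≤ lam := by
    have : 0 ≤ T * (1 + lq) := by positivity
    linarith
  have hlam0 : 0 < lam := by linarith
  have hlamlog : A * Real.log lam ≤ c / 2 * lq := by
    have h1 : Real.log lam ≤ lam ^ (1 / 2 : ℝ) / (1 / 2) := Real.log_le_rpow_div hlam0.le (by norm_num)
    rw [← Real.sqrt_eq_rpow] at h1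
    have h2 : Real.sqrt lam ≤ c * lq / (4 * A) := by
      rw [Real.sqrt_le_iff]
      refine ⟨by positivity, ?_⟩
      have h3 : lam ≤ (2 * T + 2) * lq := by
        have : (T : ℝ) * 1 ≤ T * lq := mul_le_mul_of_nonneg_left (by linarith) hT0
        nlinarith
      refine h3.trans ?_
      rw [div_pow, le_div_iff₀ (by positivity)]
      have h4 : 16 * A ^ 2 * (2 * T + 2) / c ^ 2 ≤ lq := by linarith
      rw [div_le_iff₀ (by positivity)] at h4
      have h5 := mul_le_mul_of_nonneg_left h4 hlq0.le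
      nlinarith
    have h5 : A * (Real.sqrt lam / (1 / 2)) ≤ A * (c * lq / (4 * A) / (1 / 2)) := by
      apply mul_le_mul_of_nonneg_left _ hA.le
      exact div_le_div_of_nonneg_right h2 (by norm_num)
    have h6 : A * (c * lq / (4 * A) / (1 / 2)) = c / 2 * lq := by field_simp; ring
    have h7 := mul_le_mul_of_nonneg_left h1 hA.le
    linarith
  obtain ⟨s, hs⟩ := hasym q hq p hp2 hp
  refine ⟨s, fun D hD hDT => ?_⟩
  obtain ⟨C, hC0, hC⟩ := hs D hD lam hlam1 hlamlog (fun t h0 h1 => runs_L1 hq2 hD T hDT t h0 h1)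
  have hDq : D.card ≤ q := by
    have := card_le_card hD
    rwa [card_range] at this
  have hDR : (D.card : ℝ) ≤ q := by exact_mod_cast hDq
  have hset : ∀ l N k : ℕ, (range N).filter (fun n => ∀ i < k, l * p ^ n / q ^ (s + i) % q ∈ D) =
      (range N).filter (fun n => ∀ i < k, l * p ^ n / q ^ s / q ^ i % q ∈ D) := by
    intro l N k
    apply filter_congr
    intro n _
    simp only [Nat.div_div_eq_div_mul, ← pow_add]
  have hC1 : 0 ≤ 1 + (q : ℝ) * (2 * A / lq + 1 + s) := by positivity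
  refine ⟨C + (1 + q * (2 * A / lq + 1 + s)), fun l hl N hN => ⟨fun k hk => ?_, fun hDc => ?_⟩⟩
  · rw [hset]
    have h1 := hC l hl N hN k (by linarith)
    refine h1.trans (mul_le_mul_of_nonneg_right (by linarith) (Real.rpow_nonneg (Nat.cast_nonneg _) _))
  have hDpos : (0 : ℝ) < D.card := lt_of_lt_of_le (Real.rpow_pos_of_pos hq0 _) hDc
  set ε := 1 - Real.log D.card / lq with hε
  have hε0 : 0 ≤ ε := by
    rw [hε, sub_nonneg, div_le_one hlq0]
    exact Real.log_le_log hDpos hDR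
  have hε1 : A * ε ≤ c := by
    have h1 : (1 - c / A) * lq ≤ Real.log D.card := by
      have := Real.log_le_log (Real.rpow_pos_of_pos hq0 _) hDc
      rwa [Real.log_rpow hq0] at this
    have h2 : 1 - c / A ≤ Real.log D.card / lq := by rwa [le_div_iff₀ hlq0]
    have h3 : ε ≤ c / A := by linarith
    calc A * ε ≤ A * (c / A) := mul_le_mul_of_nonneg_left h3 hA.le
      _ = c := by field_simp
  have hN1 : (1 : ℝ) ≤ N := by exact_mod_cast hN
  have hNpos : (0 : ℝ) < N := by linarith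
  set x := Real.logb q N with hx
  have hqx : (q : ℝ) ^ x = N := Real.rpow_logb hq0 hq1.ne' hNpos
  have hxl : x * lq = Real.log N := by rw [hx, Real.logb, div_mul_cancel₀ _ hlq0.ne']
  have hxx0 : 0 ≤ x := Real.logb_nonneg hq1 hN1
  set θ := 1 - A * ε with hθ
  have hθ1 : 3 / 4 ≤ θ := by linarith
  have hNθ : (1 : ℝ) ≤ (N : ℝ) ^ θ := Real.one_le_rpow hN1 (by linarith)
  have hl0 : 0 < l := by
    rcases Nat.eq_zero_or_pos l with h0 | h0
    · rw [h0] at hl; exact absurd (dvd_zero q) hl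
    · exact h0
  set k : ℕ := ⌈A * x⌉₊ with hk
  have hk1 : A * x ≤ k := Nat.le_ceil _
  have hk2 : (k : ℝ) < A * x + 1 := Nat.ceil_lt_add_one (by positivity)
  set m := k + s with hm
  have h0 := hC l hl N hN k (by linarith)
  rw [abs_le] at h0
  have hcN : C * (N : ℝ) ^ (1 - c) ≤ C * (N : ℝ) ^ θ := by
    apply mul_le_mul_of_nonneg_left _ hC0
    exact Real.rpow_le_rpow_of_exponent_le hN1 (by linarith)
  have hG : (G q D p l N : ℝ) ≤ (((range N).filter (fun n => ∀ i < k, l * p ^ n / q ^ s / q ^ i % q ∈ D)).card : ℝ) +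
      q * m := by
    have h1 := G_le (D := D) hq.two_le hp2 hl0 N m
    have h2 : F q D p l N m ≤ ((range N).filter (fun n => ∀ i < k, l * p ^ n / q ^ s / q ^ i % q ∈ D)).card := by
      unfold F
      refine card_le_card fun n hn => ?_
      rw [mem_filter] at hn ⊢
      refine ⟨hn.1, fun i hi => ?_⟩
      rw [Nat.div_div_eq_div_mul, ← pow_add]
      exact hn.2 (s + i) (by omega)
    have h3 : G q D p l N ≤ ((range N).filter (fun n => ∀ i < k, l * p ^ n / q ^ s / q ^ i % q ∈ D)).card + q * m := by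
      omega
    exact_mod_cast h3
  -- main term
  have hmain : (N : ℝ) * ((D.card : ℝ) / q) ^ k ≤ (N : ℝ) ^ θ := by
    have e1 : (D.card : ℝ) / q = (q : ℝ) ^ (-ε) := by
      rw [Real.rpow_def_of_pos hq0, ← Real.exp_log (show 0 < (D.card : ℝ) / q by positivity),
        Real.log_div hDpos.ne' hq0.ne']
      congr 1
      have : Real.log D.card = (1 - ε) * lq := by rw [hε]; field_simp; ring
      rw [this, ← hlq]; ring
    have mono : ∀ {a b : ℝ}, a ≤ b → (q : ℝ) ^ a ≤ (q : ℝ) ^ b := fun h =>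
      Real.rpow_le_rpow_of_exponent_le hq1.le h
    have e2 : (N : ℝ) ^ θ = N * (q : ℝ) ^ (-(ε * (A * x))) := by
      rw [hθ, ← hqx, ← Real.rpow_mul hq0.le, ← Real.rpow_add hq0]
      congr 1; ring
    rw [e2, e1, ← Real.rpow_natCast, ← Real.rpow_mul hq0.le]
    apply mul_le_mul_of_nonneg_left _ hNpos.le
    apply mono
    have := mul_le_mul_of_nonneg_left hk1 hε0
    linarith
  -- few n
  have hfew : (q : ℝ) * m ≤ q * (2 * A / lq + 1 + s) * (N : ℝ) ^ θ := by
    have h1 : Real.log N ≤ (N : ℝ) ^ (1 / 2 : ℝ) / (1 / 2) := Real.log_le_rpow_div hNpos.le (by norm_num)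
    have h2 : (N : ℝ) ^ (1 / 2 : ℝ) ≤ (N : ℝ) ^ θ := Real.rpow_le_rpow_of_exponent_le hN1 (by linarith)
    have h3 : x = Real.log N / lq := by rw [← hxl]; field_simp
    have h4 : (m : ℝ) ≤ A * x + 1 + s := by rw [hm]; push_cast; linarith
    have h5 : A * x ≤ 2 * A / lq * (N : ℝ) ^ θ := by
      rw [h3]
      calc A * (Real.log N / lq) ≤ A * ((2 * (N : ℝ) ^ θ) / lq) := by
            apply mul_le_mul_of_nonneg_left _ hA.le
            apply div_le_div_of_nonneg_right _ hlq0.le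
            linarith
        _ = _ := by ring
    have h6 : (1 : ℝ) + s ≤ (1 + s) * (N : ℝ) ^ θ := le_mul_of_one_le_right (by positivity) hNθ
    calc (q : ℝ) * m ≤ q * ((2 * A / lq + 1 + s) * (N : ℝ) ^ θ) := by
          apply mul_le_mul_of_nonneg_left _ hq0.le
          linarith
      _ = _ := by ring
  calc (G q D p l N : ℝ) ≤ ((N : ℝ) ^ θ + C * (N : ℝ) ^ θ) + q * (2 * A / lq + 1 + s) * (N : ℝ) ^ θ := by linarith
    _ = _ := by ring

end Pool.Agent.W301.TD
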