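import Pool.Agent.W301.TD.General

/-! # Powers whose digits avoid a given digit: improved exponents

Let `q` be an odd prime, `p ≥ 2` coprime to `q`, and `D` a set of digits, `2 ≤ |D| < q`;
put `α = log |D| / log q`.  The number of `n < N` such that all base `q` digits of `l p^n` lie
in `D` is `O(N^α)` (Narkiewicz for `2^n` in base `3`).  We save a power of `N`:
the number is `O(N^θ)` with `θ < α`, uniformly in `l` coprime to `q`; for `|D|^2 > q` one can take
`θ = (1 + 2 α) / (5 - 2 α)`.  In particular the number of `n < N` such that the ternary expansion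
of `2^n` omits the digit `2` is `O(N^0.6051)`. -/

set_option autoImplicit false

namespace Pool.Agent.W301.TD.Avoid

open Pool.Agent.W301.TD Finset

theorem general (q p : ℕ) (D : Finset ℕ) (hq : q.Prime) (hp : 2 ≤ p) (hpq : p.Coprime q)
    (hD : D ⊆ range q) (hD2 : 2 ≤ D.card) (hDq : D.card < q) :
    ∃ θ : ℝ, 0 < θ ∧ θ < Real.log D.card / Real.log q ∧
      ∃ C : ℝ, ∀ l : ℕ, l.Coprime q → ∀ N : ℕ, 1 ≤ N →
        (((range N).filter (fun n => (Nat.digits q (l * p ^ n)).toFinset ⊆ D)).card : ℝ) ≤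
          C * (N : ℝ) ^ θ := by
  have hq3 : 3 ≤ q := by omega
  obtain ⟨κ, η, hκ, hη, hηq, hη1, hDη, hM⟩ := exists_mom hq hq3 hD hD2 hDq
  obtain ⟨hτ0, C, _, h⟩ := G_bound (D := D) hq hq3 hκ hη hηq hη1.le hM (by omega) hDq hDη hp hpq rfl rfl
  have hq1 : (1 : ℝ) < q := by exact_mod_cast hq.one_lt
  have hlq : 0 < Real.log q := Real.log_pos hq1
  have hδ1 : (0 : ℝ) < D.card := by exact_mod_cast (by omega : 0 < D.card)
  have hδq : (D.card : ℝ) < q := by exact_mod_cast hDq
  set α := Real.log D.card / Real.log q with hα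
  set τ := Real.log (yy η D) / Real.log q with hτ
  have hα1 : α < 1 := by
    rw [hα, div_lt_one hlq]
    exact Real.log_lt_log (by linarith) hδq
  have hyy : yy η D < D.card := by
    unfold yy
    have : Real.sqrt η < 1 := by rw [Real.sqrt_lt' one_pos]; simpa using hη1
    nlinarith
  have hyy0 : 0 < yy η D := mul_pos hδ1 (Real.sqrt_pos.2 hη)
  have hτα : τ < α := by
    rw [hτ, hα]
    exact div_lt_div_of_pos_right (Real.log_lt_log hyy0 hyy) hlq
  have hw : 0 < τ + 1 - α := by linarith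
  refine ⟨τ / (τ + 1 - α), div_pos hτ0 hw, ?_, C, fun l hl N hN => h l hl N hN⟩
  rw [div_lt_iff₀ hw]
  nlinarith

theorem explicit (q p : ℕ) (D : Finset ℕ) (hq : q.Prime) (hp : 2 ≤ p) (hpq : p.Coprime q)
    (hDq : D.card < q) (hD2 : q < D.card ^ 2) :
    ∃ C : ℝ, ∀ l : ℕ, l.Coprime q → ∀ N : ℕ, 1 ≤ N →
      (∀ m : ℕ, (((range N).filter (fun n => ∀ i < m, l * p ^ n / q ^ i % q ∈ D)).card : ℝ) ≤
        C * (N * ((D.card : ℝ) / q) ^ m + ((q * D.card ^ 2 : ℝ) ^ (1 / 4 : ℝ)) ^ m)) ∧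
      (((range N).filter (fun n => (Nat.digits q (l * p ^ n)).toFinset ⊆ D)).card : ℝ) ≤
        C * (N : ℝ) ^ ((1 + 2 * (Real.log D.card / Real.log q)) / (5 - 2 * (Real.log D.card / Real.log q))) := by
  have hq2 := hq.two_le
  have hD1 : 2 ≤ D.card := by
    by_contra h
    have : D.card ^ 2 ≤ 1 ^ 2 := Nat.pow_le_pow_left (by omega) 2
    omega
  have hq3 : 3 ≤ q := by omega
  have hq0 : (0 : ℝ) < q := by exact_mod_cast hq.pos
  have hq1 : (1 : ℝ) < q := by exact_mod_cast hq.one_lt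
  have hq3' : (3 : ℝ) ≤ q := by exact_mod_cast hq3
  have hlq : 0 < Real.log q := Real.log_pos hq1
  have hδ0 : (0 : ℝ) < D.card := by exact_mod_cast (by omega : 0 < D.card)
  have hδ1 : (2 : ℝ) ≤ D.card := by exact_mod_cast hD1
  have hδq : (D.card : ℝ) < q := by exact_mod_cast hDq
  have hδ2 : (q : ℝ) < (D.card : ℝ) ^ 2 := by exact_mod_cast hD2
  set η := Real.sqrt q / D.card with hη
  have hsq : Real.sqrt q ^ 2 = q := Real.sq_sqrt hq0.le
  have hs0 : 0 < Real.sqrt q := Real.sqrt_pos.2 hq0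
  have hη0 : 0 < η := div_pos hs0 hδ0
  have hηq : 5 / 3 ≤ q * η := by
    have h1 : (5 / 3 : ℝ) ≤ Real.sqrt q := Real.le_sqrt_of_sq_le (by norm_num; linarith)
    have h2 : (q : ℝ) * η = Real.sqrt q * (q / D.card) := by rw [hη]; ring
    have h3 : 1 ≤ (q : ℝ) / D.card := by rw [one_le_div hδ0]; exact hδq.le
    rw [h2]
    nlinarith
  have hη1 : η ≤ 1 := by
    rw [hη, div_le_one hδ0]
    apply le_of_lt
    rw [Real.sqrt_lt' hδ0]
    exact hδ2
  have hDη : 1 < (D.card : ℝ) ^ 2 * η := by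
    have : (D.card : ℝ) ^ 2 * η = D.card * Real.sqrt q := by rw [hη]; field_simp
    rw [this]
    have : (1 : ℝ) < Real.sqrt q := by rw [Real.lt_sqrt (by norm_num)]; linarith
    nlinarith
  have hM := mom_one (q := q) (D := D) hq.pos (by omega)
  obtain ⟨hτ0, C₁, hC₁, h₁⟩ := G_bound (D := D) hq hq3 le_rfl hη0 hηq hη1 hM (by omega) hDq hDη hp hpq rfl rfl
  obtain ⟨C₂, hC₂, h₂⟩ := F_bound' (D := D) hq hq3 le_rfl hη0 hηq hη1 hM (by omega) hDq.le hDη.le hp hpq
  have hyyη : yy η D = (q * D.card ^ 2 : ℝ) ^ (1 / 4 : ℝ) := by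
    have hyy0 : 0 ≤ yy η D := yy_nonneg
    have e : yy η D ^ 4 = q * D.card ^ 2 := by
      calc yy η D ^ 4 = (yy η D ^ 2) ^ 2 := by ring
        _ = ((D.card : ℝ) ^ 2 * η) ^ 2 := by rw [yy_sq hη0]
        _ = (D.card * Real.sqrt q) ^ 2 := by rw [hη]; field_simp
        _ = q * D.card ^ 2 := by rw [mul_pow, hsq]; ring
    rw [← e, show (1 / 4 : ℝ) = ((4 : ℕ) : ℝ)⁻¹ by norm_num, Real.pow_rpow_inv_natCast hyy0 (by norm_num)]
  have hθ : Real.log (yy η D) / Real.log q / (Real.log (yy η D) / Real.log q + 1 - Real.log D.card / Real.log q) =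
      (1 + 2 * (Real.log D.card / Real.log q)) / (5 - 2 * (Real.log D.card / Real.log q)) := by
    have e : Real.log (yy η D) = (Real.log q + 2 * Real.log D.card) / 4 := by
      rw [hyyη, Real.log_rpow (by positivity), Real.log_mul hq0.ne' (by positivity), Real.log_pow]
      push_cast
      ring
    rw [e]
    set α := Real.log D.card / Real.log q with hα
    have e2 : (Real.log q + 2 * Real.log D.card) / 4 / Real.log q = (1 + 2 * α) / 4 := by
      rw [hα]; field_simp
    rw [e2]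
    have hα1 : α < 1 := by
      rw [hα, div_lt_one hlq]
      exact Real.log_lt_log (by linarith) hδq
    have h5 : (5 - 2 * α) ≠ 0 := by linarith
    have h6 : (1 + 2 * α) / 4 + 1 - α ≠ 0 := by intro h; apply h5; linarith
    rw [div_eq_div_iff h6 h5]
    ring
  refine ⟨max C₁ C₂, fun l hl N hN => ⟨fun m => ?_, ?_⟩⟩
  · have := h₂ l hl N m hN
    rw [hyyη] at this
    refine this.trans (mul_le_mul_of_nonneg_right (le_max_right _ _) (by positivity))
  · have := h₁ l hl N hN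
    rw [hθ] at this
    exact this.trans (mul_le_mul_of_nonneg_right (le_max_left _ _) (by positivity))

theorem ternary : ∃ C : ℝ, ∀ N : ℕ, 1 ≤ N →
    (((range N).filter (fun n => 2 ∉ Nat.digits 3 (2 ^ n))).card : ℝ) ≤ C * (N : ℝ) ^ (0.6051 : ℝ) := by
  obtain ⟨C, h⟩ := explicit 3 2 {0, 1} (by norm_num) le_rfl (by norm_num) (by decide) (by decide)
  refine ⟨C, fun N hN => ?_⟩
  have hN1 : (1 : ℝ) ≤ N := by exact_mod_cast hN
  have h1 := (h 1 (by norm_num) N hN).2
  have hset : (range N).filter (fun n => 2 ∉ Nat.digits 3 (2 ^ n)) =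
      (range N).filter (fun n => (Nat.digits 3 (1 * 2 ^ n)).toFinset ⊆ {0, 1}) := by
    apply filter_congr
    intro n _
    rw [one_mul]
    constructor
    · intro h2 d hd
      rw [List.mem_toFinset] at hd
      have h3 := Nat.digits_lt_base (by norm_num : 1 < 3) hd
      interval_cases d
      · simp
      · simp
      · exact absurd hd h2
    · intro h2 h3
      have := h2 (List.mem_toFinset.2 h3)
      simp at this
  rw [hset]
  have hC : 0 ≤ C := by
    have h2 : (0 : ℝ) < ((1 : ℕ) : ℝ) ^ ((1 + 2 * (Real.log (({0, 1} : Finset ℕ).card : ℝ) / Real.log (3 : ℕ))) /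
      (5 - 2 * (Real.log (({0, 1} : Finset ℕ).card : ℝ) / Real.log (3 : ℕ)))) := by
      apply Real.rpow_pos_of_pos; norm_num
    have h3 := (h 1 (by norm_num) 1 le_rfl).2
    by_contra hc
    push Not at hc
    have h4 := mul_neg_of_neg_of_pos hc h2
    have h5 : (0 : ℝ) ≤ (((range 1).filter (fun n => (Nat.digits 3 (1 * 2 ^ n)).toFinset ⊆ {0, 1})).card : ℝ) :=
      Nat.cast_nonneg _
    linarith
  refine h1.trans (mul_le_mul_of_nonneg_left ?_ hC)
  apply Real.rpow_le_rpow_of_exponent_le hN1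
  have hcard : (({0, 1} : Finset ℕ).card : ℝ) = 2 := by norm_num
  rw [hcard]
  have hl3 : 0 < Real.log ((3 : ℕ) : ℝ) := Real.log_pos (by norm_num)
  have hα : Real.log 2 / Real.log ((3 : ℕ) : ℝ) ≤ 53 / 84 := by
    rw [div_le_div_iff₀ hl3 (by norm_num)]
    have h2 : Real.log ((2 : ℝ) ^ 84) ≤ Real.log ((3 : ℝ) ^ 53) :=
      Real.log_le_log (by positivity) (by norm_num)
    rw [Real.log_pow, Real.log_pow] at h2
    push_cast at h2 ⊢
    linarith
  set α := Real.log 2 / Real.log ((3 : ℕ) : ℝ)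
  rw [div_le_iff₀ (by linarith)]
  norm_num
  linarith

/-- **Powers whose digits lie in a given set.** -/
theorem result :
    -- any digit set `D` with `2 ≤ |D| < q`: a power saving over the exponent `log |D| / log q`
    (∀ (q p : ℕ) (D : Finset ℕ), q.Prime → 2 ≤ p → p.Coprime q → D ⊆ range q → 2 ≤ D.card → D.card < q →
      ∃ θ : ℝ, 0 < θ ∧ θ < Real.log D.card / Real.log q ∧
        ∃ C : ℝ, ∀ l : ℕ, l.Coprime q → ∀ N : ℕ, 1 ≤ N →
          (((range N).filter (fun n => (Nat.digits q (l * p ^ n)).toFinset ⊆ D)).card : ℝ) ≤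
            C * (N : ℝ) ^ θ) ∧
    -- explicit bounds when `q < |D|^2`: the lowest `m` digits of `l p^n`, and all the digits
    (∀ (q p : ℕ) (D : Finset ℕ), q.Prime → 2 ≤ p → p.Coprime q → D.card < q → q < D.card ^ 2 →
      ∃ C : ℝ, ∀ l : ℕ, l.Coprime q → ∀ N : ℕ, 1 ≤ N →
        (∀ m : ℕ, (((range N).filter (fun n => ∀ i < m, l * p ^ n / q ^ i % q ∈ D)).card : ℝ) ≤
          C * (N * ((D.card : ℝ) / q) ^ m + ((q * D.card ^ 2 : ℝ) ^ (1 / 4 : ℝ)) ^ m)) ∧
        (((range N).filter (fun n => (Nat.digits q (l * p ^ n)).toFinset ⊆ D)).card : ℝ) ≤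
          C * (N : ℝ) ^ ((1 + 2 * (Real.log D.card / Real.log q)) /
            (5 - 2 * (Real.log D.card / Real.log q)))) ∧
    -- powers of two without the ternary digit `2`
    (∃ C : ℝ, ∀ N : ℕ, 1 ≤ N →
      (((range N).filter (fun n => 2 ∉ Nat.digits 3 (2 ^ n))).card : ℝ) ≤ C * (N : ℝ) ^ (0.6051 : ℝ)) :=
  ⟨general, explicit, ternary⟩

end Pool.Agent.W301.TD.Avoid
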