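import Pool.Agent.W301.TD.Core

/-! Powers of `P ≡ 1 (mod q)`. -/

set_option autoImplicit false

namespace Pool.Agent.W301.TD

open Finset

lemma one_add_pow (X t : ℕ) : ∃ c, (1 + X) ^ t = 1 + t * X + X ^ 2 * c := by
  induction t with
  | zero => exact ⟨0, by simp⟩
  | succ t ih =>
    obtain ⟨c, hc⟩ := ih
    refine ⟨t + c + X * c, ?_⟩
    rw [pow_succ, hc]
    ring

variable {q P l : ℕ} {D : Finset ℕ}

lemma val_pow (hq : q.Prime) (hq3 : 3 ≤ q) (hP : 2 ≤ P) (hP1 : q ∣ P - 1) {n : ℕ} (hn : n ≠ 0) :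
    padicValNat q (P ^ n - 1) = padicValNat q (P - 1) + padicValNat q n := by
  haveI := Fact.mk hq
  have h1 : ¬ q ∣ P := by
    intro h
    have h2 : q ∣ P - (P - 1) := Nat.dvd_sub h hP1
    have h3 : P - (P - 1) = 1 := by omega
    rw [h3] at h2
    exact hq.one_lt.ne' (Nat.dvd_one.1 h2)
  have := padicValNat.pow_sub_pow (p := q) (hq.odd_of_ne_two (by omega)) (show 1 < P by omega) hP1 h1 hn
  simpa using this

lemma exists_w (hq : q.Prime) (hq3 : 3 ≤ q) (hP : 2 ≤ P) (hP1 : q ∣ P - 1) (i : ℕ) :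
    ∃ w, ¬ q ∣ w ∧ P ^ q ^ i = 1 + q ^ (padicValNat q (P - 1) + i) * w := by
  haveI := Fact.mk hq
  have h1 := val_pow hq hq3 hP hP1 (pow_pos hq.pos i).ne'
  rw [padicValNat.prime_pow] at h1
  have h2 : 1 < P ^ q ^ i := Nat.one_lt_pow (pow_pos hq.pos i).ne' (by omega)
  have h3 : P ^ q ^ i - 1 ≠ 0 := by omega
  obtain ⟨k, w, hnd, he⟩ := Nat.exists_eq_pow_mul_and_not_dvd h3 q hq.ne_one
  have hw0 : w ≠ 0 := by rintro rfl; exact hnd (dvd_zero q)
  have hk : k = padicValNat q (P - 1) + i := by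
    rw [← h1, he, padicValNat.mul (pow_pos hq.pos k).ne' hw0, padicValNat.prime_pow,
      padicValNat.eq_zero_of_not_dvd hnd, add_zero]
  refine ⟨w, hnd, ?_⟩
  rw [← hk, ← he]
  omega

lemma pow_inj (hq : q.Prime) (hq3 : 3 ≤ q) (hP : 2 ≤ P) (hP1 : q ∣ P - 1) (hl : l.Coprime q) {i j : ℕ}
    (hj : j = padicValNat q (P - 1) + i) {a b : ℕ} (hab : a < b) (hb : b < q ^ i)
    (h : l * P ^ a % q ^ j = l * P ^ b % q ^ j) : False := by
  haveI := Fact.mk hq
  have hPq : P.Coprime q := by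
    rw [Nat.coprime_comm, Nat.Prime.coprime_iff_not_dvd hq]
    intro h
    have h2 : q ∣ P - (P - 1) := Nat.dvd_sub h hP1
    have h3 : P - (P - 1) = 1 := by omega
    rw [h3] at h2
    exact hq.one_lt.ne' (Nat.dvd_one.1 h2)
  have h1 : l * P ^ a ≡ l * P ^ b [MOD q ^ j] := h
  have h2 : P ^ b = P ^ a * P ^ (b - a) := by rw [← pow_add]; congr 1; omega
  rw [h2] at h1
  have h3 : (l * P ^ a) * 1 ≡ (l * P ^ a) * P ^ (b - a) [MOD q ^ j] := by
    rw [mul_one, mul_assoc]; exact h1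
  have h4 : 1 ≡ P ^ (b - a) [MOD q ^ j] := by
    refine Nat.ModEq.cancel_left_of_coprime ?_ h3
    exact Nat.Coprime.pow_left _ (Nat.Coprime.mul_right hl.symm (Nat.Coprime.pow_right _ hPq.symm))
  have h5 : q ^ j ∣ P ^ (b - a) - 1 :=
    (Nat.modEq_iff_dvd' (Nat.one_le_pow _ _ (by omega))).1 h4
  have h6 : P ^ (b - a) - 1 ≠ 0 := by
    have : 1 < P ^ (b - a) := Nat.one_lt_pow (by omega) (by omega)
    omega
  have h7 := (padicValNat_dvd_iff_le h6).1 h5
  rw [val_pow hq hq3 hP hP1 (by omega), hj] at h7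
  have h8 : i ≤ padicValNat q (b - a) := by omega
  have h9 : q ^ i ∣ b - a := (padicValNat_dvd_iff_le (by omega)).2 h8
  have := Nat.le_of_dvd (by omega) h9
  omega

theorem block (hq : q.Prime) (hq3 : 3 ≤ q) {κ : ℕ} (hκ : 1 ≤ κ) {η : ℝ} (hη : 0 < η)
    (hηq : 5 / 3 ≤ q * η) (hM' : Mom q D κ η) (hP : 2 ≤ P) (hP1 : q ∣ P - 1)
    (hl : l.Coprime q) {i j L e : ℕ} (hj : j = padicValNat q (P - 1) + i) (hLj : L ≤ j) (heL : e ≤ L) :
    (((range (q ^ (i + e))).filter (fun n => ∀ ι < j + L, l * P ^ n / q ^ ι % q ∈ D)).card : ℝ) ≤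
      4 * (D.card : ℝ) ^ (j + L) * (q : ℝ) ^ e / (q : ℝ) ^ L + 10 * (D.card : ℝ) ^ (j + L) * η ^ L := by
  classical
  haveI : NeZero (q ^ L) := ⟨(pow_pos hq.pos L).ne'⟩
  obtain ⟨w, hwq, hw⟩ := exists_w hq hq3 hP hP1 i
  rw [← hj] at hw
  have hPq : P.Coprime q := by
    rw [Nat.coprime_comm, Nat.Prime.coprime_iff_not_dvd hq]
    intro h
    have h2 : q ∣ P - (P - 1) := Nat.dvd_sub h hP1
    have h3 : P - (P - 1) = 1 := by omega
    rw [h3] at h2
    exact hq.one_lt.ne' (Nat.dvd_one.1 h2)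
  have hwc : w.Coprime (q ^ L) := by
    apply Nat.Coprime.pow_right
    rw [Nat.coprime_comm]
    exact (Nat.Prime.coprime_iff_not_dvd hq).2 hwq
  set r : ℕ → ℕ := fun n₀ => l * P ^ n₀ % q ^ j with hr
  set A : ℕ → ZMod (q ^ L) := fun n₀ => ((l * P ^ n₀ / q ^ j : ℕ) : ZMod (q ^ L)) with hA
  set E := (range (q ^ i)).filter (fun n₀ => r n₀ ∈ Dg q D j) with hE
  have hinj : Set.InjOn r (E : Set ℕ) := by
    intro a ha b hb hab
    have ha := mem_range.1 (mem_filter.1 (mem_coe.1 ha)).1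
    have hb := mem_range.1 (mem_filter.1 (mem_coe.1 hb)).1
    rcases lt_trichotomy a b with h | h | h
    · exact (pow_inj hq hq3 hP hP1 hl hj h hb hab).elim
    · exact h
    · exact (pow_inj hq hq3 hP hP1 hl hj h ha hab.symm).elim
  -- the digits of l P^n
  have hdig : ∀ n₀ t : ℕ, (∀ ι < j + L, l * P ^ (n₀ + q ^ i * t) / q ^ ι % q ∈ D) ↔
      r n₀ ∈ Dg q D j ∧ A n₀ + ((w : ZMod (q ^ L)) * (r n₀ : ZMod (q ^ L))) * (t : ZMod (q ^ L)) ∈ DS q D L := by
    intro n₀ t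
    obtain ⟨c, hc⟩ := one_add_pow (q ^ j * w) t
    have e1 : l * P ^ (n₀ + q ^ i * t) = l * P ^ n₀ % q ^ j +
        q ^ j * (l * P ^ n₀ / q ^ j + l * P ^ n₀ * w * t + q ^ j * (l * P ^ n₀ * w ^ 2 * c)) := by
      calc l * P ^ (n₀ + q ^ i * t) = l * P ^ n₀ * (1 + q ^ j * w) ^ t := by
            rw [pow_add, pow_mul, hw]; ring
        _ = l * P ^ n₀ + q ^ j * (l * P ^ n₀ * w * t + q ^ j * (l * P ^ n₀ * w ^ 2 * c)) := by
            rw [hc]; ring
        _ = (l * P ^ n₀ % q ^ j + q ^ j * (l * P ^ n₀ / q ^ j)) +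
            q ^ j * (l * P ^ n₀ * w * t + q ^ j * (l * P ^ n₀ * w ^ 2 * c)) := by
            rw [Nat.mod_add_div]
        _ = _ := by ring
    have e2 : l * P ^ (n₀ + q ^ i * t) % q ^ j = r n₀ := by
      rw [e1, Nat.add_mul_mod_self_left, Nat.mod_mod]
    have e3 : l * P ^ (n₀ + q ^ i * t) / q ^ j =
        l * P ^ n₀ / q ^ j + l * P ^ n₀ * w * t + q ^ j * (l * P ^ n₀ * w ^ 2 * c) := by
      rw [e1, Nat.add_mul_div_left _ _ (pow_pos hq.pos j), Nat.div_eq_of_lt (Nat.mod_lt _ (pow_pos hq.pos j)),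
        zero_add]
    have e4 : ((l * P ^ (n₀ + q ^ i * t) / q ^ j : ℕ) : ZMod (q ^ L)) =
        A n₀ + ((w : ZMod (q ^ L)) * (r n₀ : ZMod (q ^ L))) * (t : ZMod (q ^ L)) := by
      have hz : ((q ^ j : ℕ) : ZMod (q ^ L)) = 0 := by
        rw [ZMod.natCast_eq_zero_iff]
        exact pow_dvd_pow q hLj
      have hrr : (r n₀ : ZMod (q ^ L)) = ((l * P ^ n₀ : ℕ) : ZMod (q ^ L)) := by
        have := Nat.mod_add_div (l * P ^ n₀) (q ^ j)
        rw [← this, Nat.cast_add, Nat.cast_mul (q ^ j), hz, zero_mul, add_zero]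
      rw [e3, hrr, Nat.cast_add, Nat.cast_add, Nat.cast_mul (q ^ j), hz, zero_mul, add_zero]
      rw [hA]
      push_cast
      ring
    rw [digits_split hq.pos, e2, ← e4]
    exact and_congr Iff.rfl mem_DS.symm
  -- splitting n
  have hcount : (((range (q ^ (i + e))).filter (fun n => ∀ ι < j + L, l * P ^ n / q ^ ι % q ∈ D)).card : ℝ) ≤
      ∑ n₀ ∈ E, (((range (q ^ e)).filter (fun t : ℕ =>
        A n₀ + ((w : ZMod (q ^ L)) * (r n₀ : ZMod (q ^ L))) * (t : ZMod (q ^ L)) ∈ DS q D L)).card : ℝ) := by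
    have h1 : ((range (q ^ (i + e))).filter (fun n => ∀ ι < j + L, l * P ^ n / q ^ ι % q ∈ D)).card ≤
        (E.sigma (fun n₀ => (range (q ^ e)).filter (fun t : ℕ =>
        A n₀ + ((w : ZMod (q ^ L)) * (r n₀ : ZMod (q ^ L))) * (t : ZMod (q ^ L)) ∈ DS q D L))).card := by
      refine card_le_card_of_injOn (fun n => ⟨n % q ^ i, n / q ^ i⟩) ?_ ?_
      · intro n hn
        simp only [coe_filter, mem_range, Set.mem_ofPred_eq] at hn
        have h2 : n % q ^ i + q ^ i * (n / q ^ i) = n := Nat.mod_add_div _ _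
        have h3 := (hdig (n % q ^ i) (n / q ^ i)).1 (by rw [h2]; exact hn.2)
        simp only [coe_sigma, Set.mem_sigma_iff, mem_coe, mem_filter, mem_range, hE]
        refine ⟨⟨Nat.mod_lt _ (pow_pos hq.pos i), h3.1⟩, ?_, h3.2⟩
        apply Nat.div_lt_of_lt_mul
        rw [← pow_add]
        exact hn.1
      · intro n _ n' _ h
        simp only [Sigma.mk.injEq, heq_eq_eq] at h
        rw [← Nat.mod_add_div n (q ^ i), ← Nat.mod_add_div n' (q ^ i), h.1, h.2]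
    rw [card_sigma] at h1
    exact_mod_cast h1
  refine hcount.trans ?_
  -- change of variable
  set g := Function.invFunOn r (E : Set ℕ) with hg
  have hgr : ∀ n₀ ∈ E, g (r n₀) = n₀ := fun n₀ hn =>
    hinj (Function.invFunOn_mem ⟨n₀, hn, rfl⟩) (mem_coe.2 hn) (Function.invFunOn_eq ⟨n₀, hn, rfl⟩)
  have hR : E.image r ⊆ Dg q D j := by
    intro y hy
    obtain ⟨n₀, hn, rfl⟩ := mem_image.1 hy
    exact (mem_filter.1 hn).2
  have hcop : ∀ y ∈ E.image r, y.Coprime q := by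
    intro y hy
    obtain ⟨n₀, hn, rfl⟩ := mem_image.1 hy
    rcases Nat.eq_zero_or_pos j with h0 | h0
    · exfalso
      have hs : 1 ≤ padicValNat q (P - 1) := by
        haveI := Fact.mk hq
        exact one_le_padicValNat_of_dvd (by omega) hP1
      omega
    · have h1 : (l * P ^ n₀).Coprime q := Nat.Coprime.mul_left hl (Nat.Coprime.pow_left _ hPq)
      have h2 : l * P ^ n₀ % q ^ j ≡ l * P ^ n₀ [MOD q] :=
        (Nat.mod_modEq _ _).of_dvd (dvd_pow_self q h0.ne')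
      have h3 : (l * P ^ n₀ % q ^ j).Coprime q := by
        rw [Nat.Coprime, h2.gcd_eq]
        exact h1
      exact h3
  have hcore := core (D := D) hq hκ hη hηq hM' hLj heL (E.image r) hR hcop (w : ZMod (q ^ L))
    ((w : ZMod (q ^ L))⁻¹) (ZMod.coe_mul_inv_eq_one w hwc) (fun y => A (g y))
  rw [sum_image hinj] at hcore
  refine le_trans (le_of_eq (sum_congr rfl fun n₀ hn => ?_)) hcore
  rw [hgr n₀ hn]

end Pool.Agent.W301.TD
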