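import Pool.Agent.W301.TD.Recip

/-! The core counting bound. -/

set_option autoImplicit false

namespace Pool.Agent.W301.TD

open Finset

variable {q : ℕ} {D : Finset ℕ} {L : ℕ} [NeZero (q ^ L)]

lemma J_energy (hq : 0 < q) {e v : ℕ} (hve : e + v ≤ L) :
    ∑ h ∈ range (q ^ (L - v)), ‖J (q ^ L) (q ^ e) ((q ^ v * h : ℕ) : ZMod (q ^ L))‖ ^ 2 ≤
      (q : ℝ) ^ (L - v) * (4 * (q : ℝ) ^ e) := by
  have hv : v ≤ L := by omega
  have h2 : q ^ v * q ^ (L - v) = q ^ L := by rw [← pow_add, Nat.add_sub_cancel' hv]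
  have := parseval h2 (range (2 * q ^ e)) (fun x : ℕ => (x : ZMod (q ^ L)))
  unfold J
  rw [this]
  push_cast
  refine mul_le_mul_of_nonneg_left ?_ (by positivity)
  have h3 : ((range (2 * q ^ e) ×ˢ range (2 * q ^ e)).filter (fun p : ℕ × ℕ =>
      (q : ZMod (q ^ L)) ^ v * ((p.1 : ZMod (q ^ L)) - (p.2 : ZMod (q ^ L))) = 0)).card ≤
      (range (2 * q ^ e) ×ˢ range 2).card := by
    refine card_le_card_of_injOn (fun p => (p.1, p.2 / q ^ (L - v))) ?_ ?_
    · intro p hp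
      simp only [coe_filter, mem_product, mem_range, Set.mem_ofPred_eq] at hp
      simp only [coe_product, Set.mem_prod, mem_coe, mem_range]
      refine ⟨hp.1.1, ?_⟩
      apply Nat.div_lt_of_lt_mul
      have : q ^ e ≤ q ^ (L - v) := Nat.pow_le_pow_right hq (by omega)
      calc p.2 < 2 * q ^ e := hp.1.2
        _ ≤ 2 * q ^ (L - v) := Nat.mul_le_mul_left _ this
        _ = q ^ (L - v) * 2 := by ring
    · intro p hp p' hp' h
      simp only [coe_filter, mem_product, mem_range, Set.mem_ofPred_eq] at hp hp'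
      simp only [Prod.mk.injEq] at h
      have e1 : ∀ p : ℕ × ℕ, (q : ZMod (q ^ L)) ^ v * ((p.1 : ZMod (q ^ L)) - (p.2 : ZMod (q ^ L))) = 0 →
          p.1 ≡ p.2 [MOD q ^ (L - v)] := by
        intro p hp
        refine modeq_of_mul hq hv ?_
        push_cast
        rw [← sub_eq_zero, ← mul_sub]
        exact hp
      have m1 := e1 p hp.2
      have m2 := e1 p' hp'.2
      rw [h.1] at m1
      have m3 : p.2 % q ^ (L - v) = p'.2 % q ^ (L - v) := m1.symm.trans m2
      ext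
      · exact h.1
      · rw [← Nat.div_add_mod p.2 (q ^ (L - v)), ← Nat.div_add_mod p'.2 (q ^ (L - v)), h.2, m3]
  rw [card_product, card_range, card_range] at h3
  calc _ ≤ ((2 * q ^ e * 2 : ℕ) : ℝ) := by exact_mod_cast h3
    _ = _ := by push_cast; ring

lemma J_zero_of (hq : q.Prime) {e v h₀ : ℕ} (hv : v < L) (hve : L ≤ e + v) (hh : ¬ q ∣ h₀) :
    J (q ^ L) (q ^ e) ((q ^ v * h₀ : ℕ) : ZMod (q ^ L)) = 0 := by
  unfold J
  set y := ((q ^ v * h₀ : ℕ) : ZMod (q ^ L)) with hy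
  have h1 : ∀ s ∈ range (2 * q ^ e), ψ (q ^ L) (y * (s : ZMod (q ^ L))) = ψ (q ^ L) y ^ s := by
    intro s _
    rw [← psi_nsmul, mul_comm]
  rw [sum_congr rfl h1]
  have hne : ψ (q ^ L) y ≠ 1 := by
    intro h
    have h2 := psi_eq_one h
    rw [hy, ZMod.natCast_eq_zero_iff] at h2
    have h3 : q ^ L = q ^ v * q ^ (L - v) := by rw [← pow_add, Nat.add_sub_cancel' hv.le]
    rw [h3] at h2
    have h4 := (Nat.mul_dvd_mul_iff_left (pow_pos hq.pos v)).1 h2
    exact hh ((dvd_pow_self q (by omega)).trans h4)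
  rw [geom_sum_eq hne, ← psi_nsmul]
  have h5 : ((2 * q ^ e : ℕ) : ZMod (q ^ L)) * y = 0 := by
    rw [hy, ← Nat.cast_mul, ZMod.natCast_eq_zero_iff]
    have : q ^ L ∣ q ^ (e + v) := pow_dvd_pow q hve
    refine this.trans ⟨2 * h₀, ?_⟩
    rw [pow_add]; ring
  rw [h5, psi_zero]
  simp

theorem core (hq : q.Prime) {κ : ℕ} (hκ : 1 ≤ κ) {η : ℝ} (hη : 0 < η) (hηq : 5 / 3 ≤ q * η)
    (hM' : Mom q D κ η) {j e : ℕ} (hLj : L ≤ j) (heL : e ≤ L)
    (R : Finset ℕ) (hR : R ⊆ Dg q D j) (hcop : ∀ r ∈ R, r.Coprime q) (w w' : ZMod (q ^ L)) (hw : w * w' = 1)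
    (a : ℕ → ZMod (q ^ L)) :
    ∑ r ∈ R, (((range (q ^ e)).filter (fun t : ℕ =>
      a r + (w * (r : ZMod (q ^ L))) * (t : ZMod (q ^ L)) ∈ DS q D L)).card : ℝ) ≤
      4 * (D.card : ℝ) ^ (j + L) * (q : ℝ) ^ e / (q : ℝ) ^ L + 10 * (D.card : ℝ) ^ (j + L) * η ^ L := by
  set M := q ^ e with hM
  have hq0 : (0 : ℝ) < q := by exact_mod_cast hq.pos
  have hM0 : (0 : ℝ) < (M : ℝ) := by rw [hM]; exact_mod_cast pow_pos hq.pos e
  set G : ℕ → ℝ := fun h => ∑ r ∈ R, ‖S (DS q D L) ((h : ZMod (q ^ L)) * (w' * (r : ZMod (q ^ L))⁻¹))‖ with hG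
  have hG0 : ∀ h, 0 ≤ G h := fun h => sum_nonneg fun _ _ => norm_nonneg _
  -- pointwise bound
  have h1 : (q : ℝ) ^ L * ((M : ℝ) * ∑ r ∈ R, (((range M).filter (fun t : ℕ =>
      a r + (w * (r : ZMod (q ^ L))) * (t : ZMod (q ^ L)) ∈ DS q D L)).card : ℝ)) ≤
      ∑ h ∈ range (q ^ L), G h * ‖J (q ^ L) M (h : ZMod (q ^ L))‖ ^ 2 := by
    have h2 : ∀ r ∈ R, (q : ℝ) ^ L * ((M : ℝ) * (((range M).filter (fun t : ℕ =>
      a r + (w * (r : ZMod (q ^ L))) * (t : ZMod (q ^ L)) ∈ DS q D L)).card : ℝ)) ≤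
      ∑ h ∈ range (q ^ L), ‖S (DS q D L) ((h : ZMod (q ^ L)) * (w' * (r : ZMod (q ^ L))⁻¹))‖ *
        ‖J (q ^ L) M (h : ZMod (q ^ L))‖ ^ 2 := by
      intro r hr
      have u : (r : ZMod (q ^ L)) * (r : ZMod (q ^ L))⁻¹ = 1 :=
        ZMod.coe_mul_inv_eq_one r (Nat.Coprime.pow_right L (hcop r hr))
      have := count_le M (DS q D L) (a r) (w * (r : ZMod (q ^ L))) (w' * (r : ZMod (q ^ L))⁻¹)
        (by calc w * (r : ZMod (q ^ L)) * (w' * (r : ZMod (q ^ L))⁻¹) =
              (w * w') * ((r : ZMod (q ^ L)) * (r : ZMod (q ^ L))⁻¹) := by ring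
            _ = 1 := by rw [hw, u, one_mul])
      push_cast at this
      exact this
    rw [mul_sum, mul_sum]
    refine (sum_le_sum h2).trans (le_of_eq ?_)
    rw [sum_comm]
    refine sum_congr rfl fun h _ => ?_
    rw [hG]
    simp only
    rw [sum_mul]
  -- the frequency 0
  have hzero : G 0 * ‖J (q ^ L) M ((0 : ℕ) : ZMod (q ^ L))‖ ^ 2 ≤ (D.card : ℝ) ^ (j + L) * (4 * (M : ℝ) ^ 2) := by
    have e1 : G 0 ≤ (D.card : ℝ) ^ (j + L) := by
      rw [hG]
      simp only [Nat.cast_zero, zero_mul, sum_const, nsmul_eq_mul]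
      have e2 : ‖S (DS q D L) (0 : ZMod (q ^ L))‖ ≤ (D.card : ℝ) ^ L := by
        rw [S_DS]
        simp only [zero_mul, psi_zero, sum_const, nsmul_eq_mul, mul_one]
        rw [Complex.norm_natCast]
        exact_mod_cast Dg_card_le hq.pos L
      have e3 : (R.card : ℝ) ≤ (D.card : ℝ) ^ j := by
        exact_mod_cast (card_le_card hR).trans (Dg_card_le hq.pos j)
      rw [pow_add]
      exact mul_le_mul e3 e2 (norm_nonneg _) (by positivity)
    have e2 : ‖J (q ^ L) M ((0 : ℕ) : ZMod (q ^ L))‖ ^ 2 = 4 * (M : ℝ) ^ 2 := by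
      unfold J
      simp only [Nat.cast_zero, zero_mul, psi_zero, sum_const, nsmul_eq_mul, mul_one, card_range]
      rw [Complex.norm_natCast]
      push_cast
      ring
    rw [e2]
    exact mul_le_mul_of_nonneg_right e1 (by positivity)
  -- the frequencies of valuation v
  have hval : ∀ v ∈ range L, ∑ h ∈ ((range (q ^ L)).filter (fun h => h ≠ 0)).filter
      (fun h => padicValNat q h = v), G h * ‖J (q ^ L) M (h : ZMod (q ^ L))‖ ^ 2 ≤
      4 * (M : ℝ) * (D.card : ℝ) ^ (j + L) * η ^ L * (q : ℝ) ^ L * (3 / 5) ^ v := by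
    intro v hv
    have hv := mem_range.1 hv
    have hmem : ∀ h ∈ ((range (q ^ L)).filter (fun h => h ≠ 0)).filter
        (fun h => padicValNat q h = v), ∃ h₀, ¬ q ∣ h₀ ∧ h = q ^ v * h₀ ∧ h₀ < q ^ (L - v) := by
      intro h hh
      simp only [mem_filter, mem_range] at hh
      obtain ⟨⟨hlt, hne⟩, hvv⟩ := hh
      obtain ⟨k, h₀, hnd, he⟩ := Nat.exists_eq_pow_mul_and_not_dvd hne q hq.ne_one
      have hh0 : h₀ ≠ 0 := by rintro rfl; exact hnd (dvd_zero q)
      have hk : k = v := by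
        rw [← hvv, he]
        haveI := Fact.mk hq
        rw [padicValNat.mul (pow_pos hq.pos k).ne' hh0, padicValNat.prime_pow,
          padicValNat.eq_zero_of_not_dvd hnd, add_zero]
      subst hk
      refine ⟨h₀, hnd, he, ?_⟩
      have h3 : q ^ L = q ^ k * q ^ (L - k) := by rw [← pow_add, Nat.add_sub_cancel' hv.le]
      rw [he, h3] at hlt
      exact lt_of_mul_lt_mul_left hlt (Nat.zero_le _)
    rcases Nat.lt_or_ge (e + v) L with hev | hev
    · -- small valuation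
      have hB : ∀ h ∈ ((range (q ^ L)).filter (fun h => h ≠ 0)).filter
          (fun h => padicValNat q h = v), G h ≤ (D.card : ℝ) ^ (j + L) * η ^ (L - v) := by
        intro h hh
        obtain ⟨h₀, hnd, he, -⟩ := hmem h hh
        have := sum_recip (D := D) hq hκ hη.le hM' hLj hv R hR hcop w w' hw h₀ hnd
        rw [he]
        exact this
      have hJ : ∑ h ∈ ((range (q ^ L)).filter (fun h => h ≠ 0)).filter
          (fun h => padicValNat q h = v), ‖J (q ^ L) M (h : ZMod (q ^ L))‖ ^ 2 ≤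
          (q : ℝ) ^ (L - v) * (4 * (M : ℝ)) := by
        have e1 := J_energy (q := q) (L := L) hq.pos (e := e) (v := v) hev.le
        have e2 : ∑ h ∈ range (q ^ (L - v)), ‖J (q ^ L) (q ^ e) ((q ^ v * h : ℕ) : ZMod (q ^ L))‖ ^ 2 =
            ∑ h ∈ (range (q ^ (L - v))).image (fun h => q ^ v * h),
              ‖J (q ^ L) (q ^ e) (h : ZMod (q ^ L))‖ ^ 2 := by
          rw [sum_image]
          intro h _ h' _ hh
          exact Nat.eq_of_mul_eq_mul_left (pow_pos hq.pos v) hh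
        rw [e2] at e1
        have e3 : (M : ℝ) = (q : ℝ) ^ e := by rw [hM]; push_cast; ring
        rw [e3]
        refine le_trans (sum_le_sum_of_subset_of_nonneg ?_ fun _ _ _ => by positivity) e1
        intro h hh
        obtain ⟨h₀, hnd, he, hlt⟩ := hmem h hh
        exact mem_image.2 ⟨h₀, mem_range.2 hlt, he.symm⟩
      calc _ ≤ ∑ h ∈ ((range (q ^ L)).filter (fun h => h ≠ 0)).filter
            (fun h => padicValNat q h = v), (D.card : ℝ) ^ (j + L) * η ^ (L - v) *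
              ‖J (q ^ L) M (h : ZMod (q ^ L))‖ ^ 2 :=
            sum_le_sum fun h hh => mul_le_mul_of_nonneg_right (hB h hh) (by positivity)
        _ = (D.card : ℝ) ^ (j + L) * η ^ (L - v) * ∑ h ∈ ((range (q ^ L)).filter (fun h => h ≠ 0)).filter
            (fun h => padicValNat q h = v), ‖J (q ^ L) M (h : ZMod (q ^ L))‖ ^ 2 := by rw [mul_sum]
        _ ≤ (D.card : ℝ) ^ (j + L) * η ^ (L - v) * ((q : ℝ) ^ (L - v) * (4 * (M : ℝ))) :=
            mul_le_mul_of_nonneg_left hJ (by positivity)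
        _ ≤ _ := by
            have e4 : (1 : ℝ) ≤ q * η * (3 / 5) := by linarith
            have e5 : (1 : ℝ) ≤ (q * η * (3 / 5)) ^ v := one_le_pow₀ e4
            have e6 : η ^ L = η ^ (L - v) * η ^ v := by rw [← pow_add, Nat.sub_add_cancel hv.le]
            have e7 : (q : ℝ) ^ L = (q : ℝ) ^ (L - v) * (q : ℝ) ^ v := by
              rw [← pow_add, Nat.sub_add_cancel hv.le]
            rw [e6, e7]
            calc (D.card : ℝ) ^ (j + L) * η ^ (L - v) * ((q : ℝ) ^ (L - v) * (4 * (M : ℝ))) =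
                (D.card : ℝ) ^ (j + L) * η ^ (L - v) * ((q : ℝ) ^ (L - v) * (4 * (M : ℝ))) * 1 := by
                  ring
              _ ≤ (D.card : ℝ) ^ (j + L) * η ^ (L - v) * ((q : ℝ) ^ (L - v) * (4 * (M : ℝ))) *
                (q * η * (3 / 5)) ^ v := mul_le_mul_of_nonneg_left e5 (by positivity)
              _ = _ := by rw [mul_pow, mul_pow]; ring
    · -- large valuation
      have : ∀ h ∈ ((range (q ^ L)).filter (fun h => h ≠ 0)).filter
          (fun h => padicValNat q h = v), G h * ‖J (q ^ L) M (h : ZMod (q ^ L))‖ ^ 2 = 0 := by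
        intro h hh
        obtain ⟨h₀, hnd, he, -⟩ := hmem h hh
        rw [he, hM, J_zero_of hq hv hev hnd]
        simp
      rw [sum_congr rfl this, sum_const_zero]
      positivity
  have hsum : ∑ h ∈ range (q ^ L), G h * ‖J (q ^ L) M (h : ZMod (q ^ L))‖ ^ 2 ≤
      (D.card : ℝ) ^ (j + L) * (4 * (M : ℝ) ^ 2) +
        4 * (M : ℝ) * (D.card : ℝ) ^ (j + L) * η ^ L * (q : ℝ) ^ L * (5 / 2) := by
    have e1 : range (q ^ L) = insert 0 ((range (q ^ L)).filter (fun h => h ≠ 0)) := by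
      ext h
      simp only [mem_insert, mem_filter, mem_range]
      constructor
      · intro hh
        by_cases h0 : h = 0
        · exact Or.inl h0
        · exact Or.inr ⟨hh, h0⟩
      · rintro (rfl | hh)
        · exact pow_pos hq.pos L
        · exact hh.1
    have e0 : 0 ∉ (range (q ^ L)).filter (fun h => h ≠ 0) := fun h => (mem_filter.1 h).2 rfl
    rw [e1, sum_insert e0]
    refine add_le_add hzero ?_
    have e2 : ∀ h ∈ (range (q ^ L)).filter (fun h => h ≠ 0), padicValNat q h ∈ range L := by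
      intro h hh
      have hh := mem_filter.1 hh
      rw [mem_range]
      by_contra hc
      push Not at hc
      have h3 : q ^ L ∣ h := (pow_dvd_pow q hc).trans pow_padicValNat_dvd
      exact absurd (Nat.le_of_dvd (Nat.pos_of_ne_zero hh.2) h3) (not_le.2 (mem_range.1 hh.1))
    rw [← sum_fiberwise_of_maps_to e2]
    refine (sum_le_sum hval).trans ?_
    rw [← mul_sum]
    have hC : 0 ≤ 4 * (M : ℝ) * (D.card : ℝ) ^ (j + L) * η ^ L * (q : ℝ) ^ L :=
      mul_nonneg (mul_nonneg (mul_nonneg (mul_nonneg (by norm_num) hM0.le) (pow_nonneg (Nat.cast_nonneg _) _))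
        (pow_nonneg hη.le _)) (pow_nonneg hq0.le _)
    refine mul_le_mul_of_nonneg_left ?_ hC
    have e3 : ∑ v ∈ range L, (3 / 5 : ℝ) ^ v = (1 - (3 / 5) ^ L) / (1 - 3 / 5) := by
      rw [geom_sum_eq (by norm_num)]
      have : (3 / 5 : ℝ) - 1 ≠ 0 := by norm_num
      field_simp
      ring
    rw [e3]
    have : (0 : ℝ) ≤ (3 / 5) ^ L := by positivity
    rw [div_le_iff₀ (by norm_num)]
    linarith
  have hqL : (0 : ℝ) < (q : ℝ) ^ L := by positivity
  have h2 := h1.trans hsum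
  have h3 : ∑ r ∈ R, (((range M).filter (fun t : ℕ =>
      a r + (w * (r : ZMod (q ^ L))) * (t : ZMod (q ^ L)) ∈ DS q D L)).card : ℝ) ≤
      ((D.card : ℝ) ^ (j + L) * (4 * (M : ℝ) ^ 2) +
        4 * (M : ℝ) * (D.card : ℝ) ^ (j + L) * η ^ L * (q : ℝ) ^ L * (5 / 2)) / ((q : ℝ) ^ L * M) := by
    rw [le_div_iff₀ (by positivity)]
    calc _ = (q : ℝ) ^ L * ((M : ℝ) * ∑ r ∈ R, (((range M).filter (fun t : ℕ =>
      a r + (w * (r : ZMod (q ^ L))) * (t : ZMod (q ^ L)) ∈ DS q D L)).card : ℝ)) := by ring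
      _ ≤ _ := h2
  refine h3.trans (le_of_eq ?_)
  have e3 : (M : ℝ) = (q : ℝ) ^ e := by rw [hM]; push_cast; ring
  rw [← e3]
  field_simp
  ring

end Pool.Agent.W301.TD
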