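import Pool.Agent.W301.TD.Four

/-! Counting elements of `𝒟` in progressions of length `M`. -/

set_option autoImplicit false

namespace Pool.Agent.W301.TD

open Finset

variable {n : ℕ} [NeZero n]

/-- exponential sum over the set `𝒟` -/
noncomputable def S (𝒟 : Finset (ZMod n)) (y : ZMod n) : ℂ := ∑ x ∈ 𝒟, ψ n (y * x)

/-- exponential sum over `0, …, 2 M - 1` -/
noncomputable def J (n : ℕ) [NeZero n] (M : ℕ) (y : ZMod n) : ℂ := ∑ s ∈ range (2 * M), ψ n (y * (s : ZMod n))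

lemma sum_all (b : ZMod n) : ∑ h ∈ range n, ψ n ((h : ZMod n) * b) = if b = 0 then (n : ℂ) else 0 := by
  have := sum_prog (n := n) (d := 1) (m := n) (by simp) b
  simpa using this

lemma triples (M : ℕ) (𝒟 : Finset (ZMod n)) (a β β' : ZMod n) (hβ : β * β' = 1) :
    (n : ℝ) * (((range (2 * M) ×ˢ range (2 * M) ×ˢ 𝒟).filter
      (fun p => p.2.2 = a + β * ((p.1 : ZMod n) - (p.2.1 : ZMod n)))).card : ℝ) ≤
    ∑ h ∈ range n, ‖S 𝒟 ((h : ZMod n) * β')‖ * ‖J n M (h : ZMod n)‖ ^ 2 := by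
  have key : ∑ p ∈ range (2 * M) ×ˢ range (2 * M) ×ˢ 𝒟, ∑ h ∈ range n,
      ψ n ((h : ZMod n) * (β' * (p.2.2 - a) - ((p.1 : ZMod n) - (p.2.1 : ZMod n)))) =
      ((n : ℝ) * (((range (2 * M) ×ˢ range (2 * M) ×ˢ 𝒟).filter
      (fun p => p.2.2 = a + β * ((p.1 : ZMod n) - (p.2.1 : ZMod n)))).card : ℝ) : ℝ) := by
    rw [sum_congr rfl (fun p _ => sum_all _), ← sum_filter, sum_const, nsmul_eq_mul]
    have : (range (2 * M) ×ˢ range (2 * M) ×ˢ 𝒟).filter
        (fun p => β' * (p.2.2 - a) - ((p.1 : ZMod n) - (p.2.1 : ZMod n)) = 0) =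
        (range (2 * M) ×ˢ range (2 * M) ×ˢ 𝒟).filter
        (fun p => p.2.2 = a + β * ((p.1 : ZMod n) - (p.2.1 : ZMod n))) := by
      apply filter_congr
      intro p _
      constructor
      · intro h
        have h1 : (p.1 : ZMod n) - (p.2.1 : ZMod n) = β' * (p.2.2 - a) := by
          linear_combination -h
        rw [h1, ← mul_assoc, hβ]; ring
      · intro h
        rw [h]
        linear_combination ((p.1 : ZMod n) - (p.2.1 : ZMod n)) * hβ
    rw [this]
    push_cast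
    ring
  have key2 : ∑ p ∈ range (2 * M) ×ˢ range (2 * M) ×ˢ 𝒟, ∑ h ∈ range n,
      ψ n ((h : ZMod n) * (β' * (p.2.2 - a) - ((p.1 : ZMod n) - (p.2.1 : ZMod n)))) =
      ∑ h ∈ range n, ψ n (-((h : ZMod n) * β' * a)) * S 𝒟 ((h : ZMod n) * β') *
        ((starRingEnd ℂ) (J n M (h : ZMod n)) * J n M (h : ZMod n)) := by
    rw [sum_comm]
    refine sum_congr rfl fun h _ => ?_
    unfold S J
    rw [map_sum, sum_mul_sum, mul_sum, sum_product]
    refine sum_congr rfl fun s _ => ?_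
    rw [sum_product, mul_sum]
    refine sum_congr rfl fun s' _ => ?_
    rw [mul_sum, sum_mul]
    refine sum_congr rfl fun x _ => ?_
    rw [← psi_neg, ← psi_add, ← psi_add, ← psi_add]
    congr 1
    ring
  have h3 : (((n : ℝ) * (((range (2 * M) ×ˢ range (2 * M) ×ˢ 𝒟).filter
      (fun p => p.2.2 = a + β * ((p.1 : ZMod n) - (p.2.1 : ZMod n)))).card : ℝ) : ℝ) : ℂ) =
      ∑ h ∈ range n, ψ n (-((h : ZMod n) * β' * a)) * S 𝒟 ((h : ZMod n) * β') *
        ((starRingEnd ℂ) (J n M (h : ZMod n)) * J n M (h : ZMod n)) := by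
    rw [← key2, ← key]
  have h4 := congrArg norm h3
  rw [Complex.norm_real, Real.norm_of_nonneg (by positivity)] at h4
  rw [h4]
  refine (norm_sum_le _ _).trans (le_of_eq (sum_congr rfl fun h _ => ?_))
  rw [norm_mul, norm_mul, norm_mul, norm_psi, one_mul, Complex.norm_conj]
  ring

lemma count_le (M : ℕ) (𝒟 : Finset (ZMod n)) (a β β' : ZMod n) (hβ : β * β' = 1) :
    (n : ℝ) * (M * (((range M).filter (fun t : ℕ => a + β * (t : ZMod n) ∈ 𝒟)).card : ℝ)) ≤
    ∑ h ∈ range n, ‖S 𝒟 ((h : ZMod n) * β')‖ * ‖J n M (h : ZMod n)‖ ^ 2 := by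
  refine le_trans ?_ (triples M 𝒟 a β β' hβ)
  refine mul_le_mul_of_nonneg_left ?_ (Nat.cast_nonneg _)
  have : (range M ×ˢ (range M).filter (fun t : ℕ => a + β * (t : ZMod n) ∈ 𝒟)).card ≤
      ((range (2 * M) ×ˢ range (2 * M) ×ˢ 𝒟).filter
      (fun p => p.2.2 = a + β * ((p.1 : ZMod n) - (p.2.1 : ZMod n)))).card := by
    refine card_le_card_of_injOn (fun p : ℕ × ℕ => (p.1 + p.2, p.1, a + β * (p.2 : ZMod n))) ?_ ?_
    · intro p hp
      simp only [coe_product, Set.mem_prod, mem_coe, mem_range, coe_filter,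
        Set.mem_ofPred_eq, mem_product] at hp ⊢
      refine ⟨⟨by omega, by omega, hp.2.2⟩, ?_⟩
      push_cast
      ring
    · intro p _ p' _ h
      simp only [Prod.mk.injEq] at h
      ext
      · exact h.2.1
      · have := h.1
        have := h.2.1
        omega
  rw [card_product, card_range] at this
  exact_mod_cast this

end Pool.Agent.W301.TD
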