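import Pool.Agent.W301.TD.ExpSum

/-! Exponential sums over powers modulo prime powers: a saving independent of the modulus. -/

set_option autoImplicit false

namespace Pool.Agent.W301.TD.AA

open Finset Filter Topology
open Pool.Agent.H373R2.NB
open Pool.Agent.Helper602.MK (ee)
open Pool.Agent.Helper602.MK.N_J5b (norm_ee ee_add ee_int)

theorem expsum_unif (δ C : ℝ) (hδ : 0 < δ) (hδ1 : δ ≤ 1) (hC : 0 ≤ C) :
    ∃ η : ℝ, 0 < η ∧ η ≤ 1 / 2 ∧ ∀ {q : ℕ}, q.Prime → ∀ {p g s : ℕ}, ¬ q ∣ p → 1 ≤ g →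
    (∀ i, ∃ w, ¬ q ∣ w ∧ p ^ (g * q ^ i) = 1 + q ^ (s + i) * w) →
    ∃ x0 : ℝ, ∀ x : ℝ, x0 ≤ x → ∀ M : ℕ, (M : ℝ) = (q : ℝ) ^ x → ∀ ι : ℕ, δ * x ≤ ι →
      (ι : ℝ) ≤ C * x → ∀ A : ℤ, ¬ (q : ℤ) ∣ A →
      ‖∑ n ∈ range M, ee ((A : ℝ) * (p : ℝ) ^ n / (q : ℝ) ^ ι)‖ ≤ (q : ℝ) ^ (-(η * x)) * M := by
  set Km : ℕ := ⌈8 * C / δ⌉₊ with hKm
  obtain ⟨cI, mI, hcI, hI⟩ := iw_unif Km
  set η : ℝ := min (δ / (16 * (mI + 1))) (1 / 2) with hη
  have hη0 : 0 < η := lt_min (by positivity) (by norm_num)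
  have hη1 : η ≤ 1 / 2 := min_le_right _ _
  have hηm : η * mI ≤ δ / 16 := by
    have h1 : η ≤ δ / (16 * (mI + 1)) := min_le_left _ _
    rw [le_div_iff₀ (by positivity)] at h1
    nlinarith
  refine ⟨η / 2, by positivity, by linarith, ?_⟩
  intro q hq p g s hp hg hw
  have hqR : (2 : ℝ) ≤ q := by exact_mod_cast hq.two_le
  have hq0 : (0 : ℝ) < q := by linarith
  have hq1 : (1 : ℝ) < q := by linarith
  refine ⟨16 * (cI + Km + s + g + 4) / δ + 2 / η, fun x hx M hM ι hι1 hι2 A hA => ?_⟩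
  have hcI0 : (0 : ℝ) ≤ cI := Nat.cast_nonneg _
  have hKm0 : (0 : ℝ) ≤ Km := Nat.cast_nonneg _
  have hs0 : (0 : ℝ) ≤ s := Nat.cast_nonneg _
  have hg0 : (0 : ℝ) ≤ g := Nat.cast_nonneg _
  have hx1 : 16 * (cI + Km + s + g + 4) ≤ δ * x := by
    have h1 : 16 * ((cI : ℝ) + Km + s + g + 4) / δ ≤ x := by
      have : 0 < 2 / η := by positivity
      linarith
    rw [div_le_iff₀ hδ] at h1
    linarith
  have hx2 : 2 ≤ η * x := by
    have h1 : 2 / η ≤ x := by
      have : 0 ≤ 16 * ((cI : ℝ) + Km + s + g + 4) / δ := by positivity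
      linarith
    rw [div_le_iff₀ hη0] at h1
    linarith
  have hx0 : 0 < x := by
    by_contra h
    have := mul_nonpos_of_nonneg_of_nonpos hδ.le (not_lt.1 h)
    linarith
  have hx3 : δ * x ≤ x := by nlinarith
  have mono : ∀ {a b : ℝ}, a ≤ b → (q : ℝ) ^ a ≤ (q : ℝ) ^ b := fun h =>
    Real.rpow_le_rpow_of_exponent_le hq1.le h
  have padd : ∀ a b : ℝ, (q : ℝ) ^ a * (q : ℝ) ^ b = (q : ℝ) ^ (a + b) := fun a b => (Real.rpow_add hq0 a b).symm
  have ppos : ∀ a : ℝ, 0 < (q : ℝ) ^ a := fun a => Real.rpow_pos_of_pos hq0 a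
  have hnat : ∀ n : ℕ, (n : ℝ) < (q : ℝ) ^ (n : ℝ) := fun n => by
    rw [Real.rpow_natCast]
    exact_mod_cast Nat.lt_pow_self hq.one_lt
  -- parameters
  set a0 : ℕ := ⌊δ / 4 * x⌋₊ with ha0
  have ha0a : (a0 : ℝ) ≤ δ / 4 * x := Nat.floor_le (by positivity)
  have ha0b : δ / 4 * x < a0 + 1 := Nat.lt_floor_add_one _
  have ha0c : 1 ≤ a0 := by
    have : (1 : ℝ) < a0 := by linarith
    exact_mod_cast this.le
  set K : ℕ := ι / a0 with hK
  have hKa : K * a0 ≤ ι := Nat.div_mul_le_self _ _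
  have hKb : ι < (K + 1) * a0 := by
    have h1 := Nat.div_add_mod ι a0
    have h2 := Nat.mod_lt ι ha0c
    rw [← hK] at h1
    nlinarith
  have hK1 : 1 ≤ K := by
    rw [hK, Nat.one_le_div_iff ha0c]
    have : (a0 : ℝ) ≤ ι := by nlinarith
    exact_mod_cast this
  have hKm1 : K ≤ Km := by
    have h1 : (K : ℝ) * a0 ≤ ι := by exact_mod_cast hKa
    have h2 : δ / 8 * x ≤ a0 := by linarith
    have h3 : (K : ℝ) * (δ / 8 * x) ≤ C * x := by
      have : (K : ℝ) * (δ / 8 * x) ≤ K * a0 := mul_le_mul_of_nonneg_left h2 (Nat.cast_nonneg _)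
      linarith
    have h4 : (K : ℝ) ≤ 8 * C / δ := by
      rw [le_div_iff₀ hδ]
      have h5 : (K * δ) * x ≤ (8 * C) * x := by nlinarith
      exact le_of_mul_le_mul_right h5 hx0
    exact_mod_cast h4.trans (Nat.le_ceil _)
  set a : ℕ := (ι + K) / (K + 1) with ha
  have ha1 : (K + 1) * a ≤ ι + K := Nat.mul_div_le _ _
  have ha2 : ι ≤ (K + 1) * a := by
    have h1 := Nat.div_add_mod (ι + K) (K + 1)
    have h2 := Nat.mod_lt (ι + K) (show 0 < K + 1 by omega)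
    rw [← ha] at h1
    omega
  have ha3 : a0 ≤ 2 * a := by
    by_contra hc
    push Not at hc
    have h1 : K * (2 * a + 1) ≤ K * a0 := Nat.mul_le_mul_left _ hc
    nlinarith
  have ha4 : a ≤ a0 := by
    by_contra hc
    push Not at hc
    have h1 : (K + 1) * (a0 + 1) ≤ (K + 1) * a := Nat.mul_le_mul_left _ hc
    nlinarith
  have ha3' : (a0 : ℝ) ≤ 2 * a := by exact_mod_cast ha3
  have haK : K ≤ a := by
    have h1 : (Km : ℝ) ≤ a := by linarith
    have h2 : Km ≤ a := by exact_mod_cast h1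
    omega
  have has : s ≤ a := by
    have h1 : (s : ℝ) ≤ a := by linarith
    exact_mod_cast h1
  have hKaι : K * a ≤ ι := by
    have : (K + 1) * a = K * a + a := by ring
    omega
  set r : ℕ := ι - K * a with hr
  have hr1 : ι = r + K * a := by omega
  have hr2 : r ≤ a := by
    have : (K + 1) * a = K * a + a := by ring
    omega
  have hr3 : a ≤ r + K := by
    have : (K + 1) * a = K * a + a := by ring
    omega
  obtain ⟨w, hwq, hwe⟩ := hw (a - s)
  have hsa : s + (a - s) = a := by omega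
  rw [hsa] at hwe
  set G : ℕ := g * q ^ (a - s) with hG
  have hG1 : 1 ≤ G := Nat.one_le_iff_ne_zero.2 (Nat.mul_ne_zero (by omega) (pow_pos hq.pos _).ne')
  have hG0 : (0 : ℝ) < G := by exact_mod_cast hG1
  have hGle : (G : ℝ) ≤ (q : ℝ) ^ (g + δ / 4 * x) := by
    rw [hG, Nat.cast_mul, ← padd]
    apply mul_le_mul (hnat g).le _ (by positivity) (ppos _).le
    rw [Nat.cast_pow, ← Real.rpow_natCast]
    apply mono
    have h1 : ((a - s : ℕ) : ℝ) ≤ a0 := by exact_mod_cast (Nat.sub_le _ _).trans ha4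
    linarith
  set T : ℕ := M / G with hT
  have hTG : (G : ℝ) * T ≤ M := by
    rw [hT]; exact_mod_cast Nat.mul_div_le M G
  have hTlt : (M : ℝ) < G * T + G := by
    have h1 := Nat.div_add_mod M G
    have h2 := Nat.mod_lt M hG1
    have h3 : M < G * T + G := by rw [hT]; omega
    exact_mod_cast h3
  have hTbig : (q : ℝ) ^ (x / 2) ≤ T := by
    have h1 : (q : ℝ) ^ (x / 2 + 1) * G ≤ M := by
      rw [hM]
      calc (q : ℝ) ^ (x / 2 + 1) * G ≤ (q : ℝ) ^ (x / 2 + 1) * (q : ℝ) ^ (g + δ / 4 * x) :=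
            mul_le_mul_of_nonneg_left hGle (ppos _).le
        _ = (q : ℝ) ^ (x / 2 + 1 + (g + δ / 4 * x)) := padd _ _
        _ ≤ _ := mono (by linarith)
    have h2 : (q : ℝ) ^ (x / 2 + 1) < T + 1 := by
      have : (q : ℝ) ^ (x / 2 + 1) * G < (T + 1) * G := by linarith
      exact lt_of_mul_lt_mul_right this hG0.le
    have h3 : 2 * (q : ℝ) ^ (x / 2) ≤ (q : ℝ) ^ (x / 2 + 1) := by
      rw [Real.rpow_add hq0, Real.rpow_one]
      have := ppos (x / 2)
      nlinarith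
    have h4 : (1 : ℝ) ≤ (q : ℝ) ^ (x / 2) := Real.one_le_rpow hq1.le (by positivity)
    linarith
  have hT1 : 1 ≤ T := by
    have h4 : (1 : ℝ) ≤ (q : ℝ) ^ (x / 2) := Real.one_le_rpow hq1.le (by positivity)
    have : (1 : ℝ) ≤ T := h4.trans hTbig
    exact_mod_cast this
  have hT1' : (1 : ℝ) ≤ T := by exact_mod_cast hT1
  set u : ℝ := (q : ℝ) ^ (η * x) with hu
  have hu1 : 1 ≤ u := Real.one_le_rpow hq1.le (by positivity)
  have hum : (cI : ℝ) * u ^ mI < (q : ℝ) ^ (cI + δ / 16 * x) := by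
    rw [← padd]
    have h1 : u ^ mI ≤ (q : ℝ) ^ (δ / 16 * x) := by
      rw [hu, ← Real.rpow_natCast, ← Real.rpow_mul hq0.le]
      apply mono
      have : η * x * mI = (η * mI) * x := by ring
      rw [this]
      exact mul_le_mul_of_nonneg_right hηm hx0.le
    calc (cI : ℝ) * u ^ mI ≤ cI * (q : ℝ) ^ (δ / 16 * x) := mul_le_mul_of_nonneg_left h1 hcI0
      _ < _ := mul_lt_mul_of_pos_right (hnat cI) (ppos _)
  have hc1 : (cI : ℝ) * u ^ mI < (q : ℝ) ^ r := by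
    refine lt_of_lt_of_le hum ?_
    rw [← Real.rpow_natCast]
    apply mono
    have h1 : (a : ℝ) ≤ r + K := by exact_mod_cast hr3
    have h2 : (K : ℝ) ≤ Km := by exact_mod_cast hKm1
    linarith
  have hc2 : (cI : ℝ) * u ^ mI * (q : ℝ) ^ r < (T : ℝ) ^ K := by
    have h1 : (q : ℝ) ^ r ≤ (q : ℝ) ^ (δ / 4 * x) := by
      rw [← Real.rpow_natCast]
      apply mono
      have : (r : ℝ) ≤ a0 := by exact_mod_cast hr2.trans ha4
      linarith
    calc (cI : ℝ) * u ^ mI * (q : ℝ) ^ r < (q : ℝ) ^ (cI + δ / 16 * x) * (q : ℝ) ^ r :=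
          mul_lt_mul_of_pos_right hum (by positivity)
      _ ≤ (q : ℝ) ^ (cI + δ / 16 * x) * (q : ℝ) ^ (δ / 4 * x) := mul_le_mul_of_nonneg_left h1 (ppos _).le
      _ = (q : ℝ) ^ (cI + δ / 16 * x + δ / 4 * x) := padd _ _
      _ ≤ (q : ℝ) ^ (x / 2) := mono (by linarith)
      _ ≤ T := hTbig
      _ = (T : ℝ) ^ 1 := (pow_one _).symm
      _ ≤ (T : ℝ) ^ K := pow_le_pow_right₀ hT1' hK1
  have hmain := sum_ap (fun n => ee ((A : ℝ) * (p : ℝ) ^ n / (q : ℝ) ^ ι)) (fun n => (norm_ee _).le) M G hG1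
    (B := T / u) (fun n₀ _ => blk hq (hI K hK1 hKm1) hp hwq hwe hA hr1 hr2 hT1 hu1 hc1 hc2)
  refine hmain.trans ?_
  have hu0 : 0 < u := by linarith
  have h1 : (G : ℝ) * (T / u) ≤ M * (q : ℝ) ^ (-(η * x)) := by
    rw [Real.rpow_neg hq0.le, ← hu, ← mul_div_assoc, div_eq_mul_inv]
    exact mul_le_mul_of_nonneg_right hTG (by positivity)
  have h2 : (G : ℝ) ≤ M * (q : ℝ) ^ (-(η * x)) := by
    rw [hM, padd]
    refine hGle.trans (mono ?_)
    have : η * x ≤ 1 / 2 * x := mul_le_mul_of_nonneg_right hη1 hx0.le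
    linarith
  have h3 : 2 * (q : ℝ) ^ (-(η * x)) ≤ (q : ℝ) ^ (-(η / 2 * x)) := by
    calc 2 * (q : ℝ) ^ (-(η * x)) ≤ (q : ℝ) ^ (1 : ℝ) * (q : ℝ) ^ (-(η * x)) := by
          rw [Real.rpow_one]
          exact mul_le_mul_of_nonneg_right hqR (ppos _).le
      _ = (q : ℝ) ^ (1 + -(η * x)) := padd _ _
      _ ≤ _ := mono (by linarith)
  have hM0 : (0 : ℝ) ≤ M := Nat.cast_nonneg _
  calc (G : ℝ) * (T / u) + G ≤ M * (2 * (q : ℝ) ^ (-(η * x))) := by linarith
    _ ≤ M * (q : ℝ) ^ (-(η / 2 * x)) := mul_le_mul_of_nonneg_left h3 hM0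
    _ = _ := mul_comm _ _


/-- small exponents: complete sums vanish -/
lemma expsum_small {q : ℕ} (hq : q.Prime) {p g s : ℕ} (hp : ¬ q ∣ p) (hg : 1 ≤ g) (hs : 1 ≤ s)
    (hw : ∀ i, ∃ w, ¬ q ∣ w ∧ p ^ (g * q ^ i) = 1 + q ^ (s + i) * w) (M ι : ℕ) (hι : s < ι) (A : ℤ)
    (hA : ¬ (q : ℤ) ∣ A) :
    ‖∑ n ∈ range M, ee ((A : ℝ) * (p : ℝ) ^ n / (q : ℝ) ^ ι)‖ ≤ g * (q : ℝ) ^ ι := by
  have hq0 : (0 : ℝ) < q := by exact_mod_cast hq.pos
  obtain ⟨w, hwq, hwe⟩ := hw (ι - 1 - s)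
  have e0 : s + (ι - 1 - s) = ι - 1 := by omega
  rw [e0] at hwe
  set G := g * q ^ (ι - 1 - s) with hG
  have hG1 : 1 ≤ G := Nat.one_le_iff_ne_zero.2 (Nat.mul_ne_zero (by omega) (pow_pos hq.pos _).ne')
  set f : ℕ → ℂ := fun n => ee ((A : ℝ) * (p : ℝ) ^ n / (q : ℝ) ^ ι) with hf
  -- the sum over a progression of length q vanishes
  have hstep : ∀ n, f (n + G) = f n * ee (((A * (p : ℤ) ^ n * w : ℤ) : ℝ) / q) := by
    intro n
    rw [hf]
    simp only
    rw [← ee_add]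
    congr 1
    have h1 : (p : ℝ) ^ G = 1 + (q : ℝ) ^ (ι - 1) * w := by exact_mod_cast hwe
    have h2 : (q : ℝ) ^ ι = (q : ℝ) ^ (ι - 1) * q := by rw [← pow_succ]; congr 1; omega
    rw [pow_add, h1, h2]
    push_cast
    field_simp
  have hper : ∀ n t, f (n + G * t) = f n * (ee (((A * (p : ℤ) ^ n * w : ℤ) : ℝ) / q)) ^ t := by
    intro n t
    induction t with
    | zero => simp
    | succ t ih =>
      rw [Nat.mul_succ, ← add_assoc, hstep, ih, pow_succ, mul_assoc]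
      congr 2
      -- (A p^(n+Gt) w)/q differs from (A p^n w)/q by an integer
      have h3 : ∃ c : ℕ, p ^ (G * t) = 1 + q * c := by
        rw [pow_mul, hwe]
        obtain ⟨c, hc⟩ := one_add_pow_trunc (q ^ (ι - 1) * w) t 0
        rw [hc]
        simp only [zero_add, sum_range_one, Nat.choose_zero_right, pow_zero, mul_one, pow_one]
        have : q ^ (ι - 1) = q * q ^ (ι - 2) := by rw [← pow_succ']; congr 1; omega
        rw [this]
        exact ⟨q ^ (ι - 2) * w * c, by ring⟩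
      obtain ⟨c, hc⟩ := h3
      have h4 : (((A * (p : ℤ) ^ (n + G * t) * w : ℤ) : ℝ) / q) = ((A * (p : ℤ) ^ n * w : ℤ) : ℝ) / q +
          ((A * (p : ℤ) ^ n * w * c : ℤ) : ℝ) := by
        have h5 : (p : ℝ) ^ (G * t) = 1 + q * c := by exact_mod_cast hc
        push_cast
        rw [pow_add, h5]
        field_simp
      rw [h4, ee_add, ee_int, mul_one]
  have hz : ∀ n, ∑ t ∈ range q, f (n + G * t) = 0 := by
    intro n
    rw [sum_congr rfl (fun t _ => hper n t), ← mul_sum]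
    set z := ee (((A * (p : ℤ) ^ n * w : ℤ) : ℝ) / q) with hz
    have hzq : z ^ q = 1 := by
      have : ∀ k : ℕ, z ^ k = ee (k * (((A * (p : ℤ) ^ n * w : ℤ) : ℝ) / q)) := by
        intro k
        induction k with
        | zero => simp [ee]
        | succ k ih =>
          rw [pow_succ, ih, hz, ← ee_add]; congr 1; push_cast; ring
      rw [this]
      have h6 : (q : ℝ) * (((A * (p : ℤ) ^ n * w : ℤ) : ℝ) / q) = ((A * (p : ℤ) ^ n * w : ℤ) : ℝ) := by
        field_simp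
      rw [h6, ee_int]
    have hz1 : z ≠ 1 := by
      intro h
      have h7 : Complex.exp (2 * Real.pi * ((((A * (p : ℤ) ^ n * w : ℤ) : ℝ) / q : ℝ) : ℂ) * Complex.I) = 1 := h
      rw [Complex.exp_eq_one_iff] at h7
      obtain ⟨k, hk⟩ := h7
      have h8 : ((((A * (p : ℤ) ^ n * w : ℤ) : ℝ) / q : ℝ) : ℂ) = k := by
        have h9 : (2 * (Real.pi : ℂ) * Complex.I) * ((((A * (p : ℤ) ^ n * w : ℤ) : ℝ) / q : ℝ) : ℂ) =
            (2 * (Real.pi : ℂ) * Complex.I) * k := by linear_combination hk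
        exact mul_left_cancel₀ Complex.two_pi_I_ne_zero h9
      have h10 : (((A * (p : ℤ) ^ n * w : ℤ) : ℝ) / q : ℝ) = k := by exact_mod_cast h8
      rw [div_eq_iff hq0.ne'] at h10
      have h11 : A * (p : ℤ) ^ n * w = k * q := by exact_mod_cast h10
      have hqp : Prime (q : ℤ) := Nat.prime_iff_prime_int.1 hq
      have h12 : (q : ℤ) ∣ A * (p : ℤ) ^ n * w := ⟨k, by rw [h11]; ring⟩
      rcases hqp.dvd_or_dvd h12 with h | h
      · rcases hqp.dvd_or_dvd h with h | h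
        · exact hA h
        · exact hp (by exact_mod_cast hqp.dvd_of_dvd_pow h)
      · exact hwq (by exact_mod_cast h)
    rw [geom_sum_eq hz1, hzq, sub_self, zero_div, mul_zero]
  have hfull : ∀ n₁, ∑ n ∈ range (G * q), f (n₁ + n) = 0 := by
    intro n₁
    have h1 : ∑ n ∈ range (G * q), f (n₁ + n) = ∑ n₀ ∈ range G, ∑ t ∈ range q, f (n₁ + n₀ + G * t) := by
      rw [sum_comm, ← sum_product']
      refine sum_nbij' (fun n => (n / G, n % G)) (fun x => x.2 + G * x.1) ?_ ?_ ?_ ?_ ?_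
      · intro n hn
        simp only [mem_product, mem_range] at hn ⊢
        exact ⟨Nat.div_lt_of_lt_mul hn, Nat.mod_lt _ hG1⟩
      · rintro ⟨x, y⟩ h
        simp only [mem_product, mem_range] at h ⊢
        have : G * (x + 1) ≤ G * q := Nat.mul_le_mul_left _ h.1
        rw [Nat.mul_succ] at this
        omega
      · intro n _
        exact Nat.mod_add_div n G
      · rintro ⟨x, y⟩ h
        simp only [mem_product, mem_range] at h
        simp only [Prod.mk.injEq]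
        refine ⟨?_, ?_⟩
        · rw [Nat.add_mul_div_left _ _ hG1, Nat.div_eq_of_lt h.2, zero_add]
        · rw [Nat.add_mul_mod_self_left, Nat.mod_eq_of_lt h.2]
      · intro n _
        simp only
        rw [add_assoc, Nat.mod_add_div]
    rw [h1]
    exact sum_eq_zero fun n₀ _ => hz _
  have hall : ∀ J : ℕ, ∑ n ∈ range (G * q * J), f n = 0 := by
    intro J
    induction J with
    | zero => simp
    | succ J ih => rw [Nat.mul_succ, sum_range_add, ih, zero_add]; exact hfull _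
  have hGq : G * q ≤ g * q ^ ι := by
    rw [hG, mul_assoc, ← pow_succ]
    exact Nat.mul_le_mul_left _ (Nat.pow_le_pow_right hq.pos (by omega))
  have h1 : ∑ n ∈ range M, f n = ∑ n ∈ range (M % (G * q)), f (G * q * (M / (G * q)) + n) := by
    conv_lhs => rw [← Nat.div_add_mod M (G * q)]
    rw [sum_range_add, hall, zero_add]
  show ‖∑ n ∈ range M, f n‖ ≤ _
  rw [h1]
  refine (norm_sum_le _ _).trans ((sum_le_sum fun n _ => (norm_ee _).le).trans ?_)
  rw [sum_const, card_range, nsmul_eq_mul, mul_one]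
  have h2 : M % (G * q) ≤ g * q ^ ι := (Nat.mod_lt M (Nat.mul_pos hG1 hq.pos)).le.trans hGq
  exact_mod_cast h2

end Pool.Agent.W301.TD.AA
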