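import Pool.Agent.W301.TD.CountD

/-! Counting by the `L¹` norm, two sided. -/

set_option autoImplicit false

namespace Pool.Agent.W301.TD

open Finset

variable {q : ℕ} {D : Finset ℕ}

theorem count_abs (hq : q.Prime) (hD : D ⊆ range q) {m s : ℕ} (hsm : s ≤ m) (X : ℕ → ℕ) (N : ℕ) {B A1 : ℝ}
    (hB0 : 0 ≤ B)
    (hB : ∀ ι : ℕ, s < ι → ι ≤ m → ∀ A : ℤ, ¬ (q : ℤ) ∣ A →
      ‖∑ n ∈ range N, Pool.Agent.Helper602.MK.ee ((A : ℝ) * (X n : ℝ) / (q : ℝ) ^ ι)‖ ≤ B)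
    (hA1 : ∑ y ∈ range (q ^ (m - s)), ‖T q D (m - s) ((y : ℝ) / (q : ℝ) ^ (m - s))‖ ≤ A1 ^ (m - s)) :
    |(((range N).filter (fun n => ∀ i < m - s, X n / q ^ s / q ^ i % q ∈ D)).card : ℝ) -
      N * ((D.card : ℝ) / q) ^ (m - s)| ≤ B * (q : ℝ) ^ s * (A1 / q) ^ (m - s) := by
  classical
  haveI : NeZero (q ^ m) := ⟨(pow_pos hq.pos m).ne'⟩
  have hq0 : (0 : ℝ) < q := by exact_mod_cast hq.pos
  set k := m - s with hk
  have hmk : q ^ m = q ^ s * q ^ k := by rw [← pow_add]; congr 1; omega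
  set Y : ℕ × ℕ → ℕ := fun p => p.1 + q ^ s * p.2 with hY
  set 𝒴 : Finset (ℕ × ℕ) := range (q ^ s) ×ˢ Dg q D k with h𝒴
  set P := (range N ×ˢ 𝒴).filter (fun x => ((X x.1 : ℕ) : ZMod (q ^ m)) - ((Y x.2 : ℕ) : ZMod (q ^ m)) = 0) with hP
  -- pairs
  have hcard : ((range N).filter (fun n => ∀ i < k, X n / q ^ s / q ^ i % q ∈ D)).card ≤ P.card := by
    refine card_le_card_of_injOn (fun n => (n, (X n % q ^ s, X n / q ^ s % q ^ k))) ?_ ?_
    · intro n hn
      simp only [coe_filter, mem_range, Set.mem_ofPred_eq] at hn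
      rw [mem_coe, hP, mem_filter]
      refine ⟨?_, ?_⟩
      · rw [mem_product, h𝒴, mem_product]
        refine ⟨mem_range.2 hn.1, mem_range.2 (Nat.mod_lt _ (pow_pos hq.pos s)), ?_⟩
        have h1 := (digits_split (D := D) hq.pos k 0 (X n / q ^ s)).1 (by simpa using hn.2)
        exact h1.1
      · rw [sub_eq_zero]
        simp only [hY]
        rw [ZMod.natCast_eq_natCast_iff']
        have h2 : X n = (X n % q ^ s + q ^ s * (X n / q ^ s % q ^ k)) + q ^ m * (X n / q ^ s / q ^ k) := by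
          have e1 := Nat.mod_add_div (X n) (q ^ s)
          have e2 := Nat.mod_add_div (X n / q ^ s) (q ^ k)
          calc X n = X n % q ^ s + q ^ s * (X n / q ^ s) := e1.symm
            _ = X n % q ^ s + q ^ s * (X n / q ^ s % q ^ k + q ^ k * (X n / q ^ s / q ^ k)) := by rw [e2]
            _ = _ := by rw [hmk]; ring
        conv_lhs => rw [h2]
        rw [Nat.add_mul_mod_self_left]
    · intro n _ n' _ h
      exact congrArg Prod.fst h
  have hcard2 : P.card ≤ ((range N).filter (fun n => ∀ i < k, X n / q ^ s / q ^ i % q ∈ D)).card := by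
    have hres : ∀ x ∈ P, X x.1 % q ^ s = x.2.1 ∧ X x.1 / q ^ s % q ^ k = x.2.2 ∧ x.2.2 ∈ Dg q D k ∧ x.1 ∈ range N := by
      intro x hx
      rw [hP, mem_filter, mem_product, h𝒴, mem_product] at hx
      obtain ⟨⟨hx1, hx2, hx3⟩, hx4⟩ := hx
      have hx2 := mem_range.1 hx2
      have hx5 := (mem_Dg.1 hx3).1
      have hYlt : Y x.2 < q ^ m := by
        rw [hmk]
        simp only [hY]
        have : q ^ s * (x.2.2 + 1) ≤ q ^ s * q ^ k := Nat.mul_le_mul_left _ hx5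
        rw [Nat.mul_succ] at this
        omega
      rw [sub_eq_zero, ZMod.natCast_eq_natCast_iff', Nat.mod_eq_of_lt hYlt] at hx4
      have h1 : X x.1 = Y x.2 + q ^ m * (X x.1 / q ^ m) := by
        rw [← hx4]; exact (Nat.mod_add_div _ _).symm
      have h2 : X x.1 = x.2.1 + q ^ s * (x.2.2 + q ^ k * (X x.1 / q ^ m)) := by
        nth_rewrite 1 [h1]
        simp only [hY]
        rw [hmk]; ring
      have h3 : X x.1 % q ^ s = x.2.1 := by
        rw [h2, Nat.add_mul_mod_self_left, Nat.mod_eq_of_lt hx2]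
      have h4 : X x.1 / q ^ s = x.2.2 + q ^ k * (X x.1 / q ^ m) := by
        nth_rewrite 1 [h2]
        rw [Nat.add_mul_div_left _ _ (pow_pos hq.pos s), Nat.div_eq_of_lt hx2, zero_add]
      refine ⟨h3, ?_, hx3, hx1⟩
      rw [h4, Nat.add_mul_mod_self_left, Nat.mod_eq_of_lt hx5]
    refine card_le_card_of_injOn (fun x => x.1) ?_ ?_
    · intro x hx
      obtain ⟨h1, h2, h3, h4⟩ := hres x (mem_coe.1 hx)
      rw [mem_coe, mem_filter]
      refine ⟨h4, ?_⟩
      have h5 := (digits_split (D := D) hq.pos k 0 (X x.1 / q ^ s)).2 ⟨by rw [h2]; exact h3, by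
        rw [pow_zero, Nat.mod_one]
        exact mem_Dg.2 ⟨by simp, fun i hi => absurd hi (Nat.not_lt_zero i)⟩⟩
      simpa using h5
    · intro x hx y hy hxy
      obtain ⟨h1, h2, -, -⟩ := hres x (mem_coe.1 hx)
      obtain ⟨h1', h2', -, -⟩ := hres y (mem_coe.1 hy)
      simp only at hxy
      ext
      · exact hxy
      · rw [← h1, ← h1', hxy]
      · rw [← h2, ← h2', hxy]
  -- Fourier expansion
  have key : ∑ n ∈ range N, ∑ p ∈ 𝒴, ∑ h ∈ range (q ^ m),
      ψ (q ^ m) ((h : ZMod (q ^ m)) * (((X n : ℕ) : ZMod (q ^ m)) - ((Y p : ℕ) : ZMod (q ^ m)))) =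
      (((q : ℝ) ^ m * (P.card : ℝ) : ℝ) : ℂ) := by
    have e1 : ∑ n ∈ range N, ∑ p ∈ 𝒴, ∑ h ∈ range (q ^ m),
      ψ (q ^ m) ((h : ZMod (q ^ m)) * (((X n : ℕ) : ZMod (q ^ m)) - ((Y p : ℕ) : ZMod (q ^ m)))) =
      ∑ x ∈ range N ×ˢ 𝒴, if ((X x.1 : ℕ) : ZMod (q ^ m)) - ((Y x.2 : ℕ) : ZMod (q ^ m)) = 0 then ((q ^ m : ℕ) : ℂ) else 0 := by
      rw [sum_product]
      exact sum_congr rfl fun n _ => sum_congr rfl fun p _ => sum_all _
    rw [e1, ← sum_filter, sum_const, nsmul_eq_mul]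
    push_cast
    ring
  have hfac : ∑ n ∈ range N, ∑ p ∈ 𝒴, ∑ h ∈ range (q ^ m),
      ψ (q ^ m) ((h : ZMod (q ^ m)) * (((X n : ℕ) : ZMod (q ^ m)) - ((Y p : ℕ) : ZMod (q ^ m)))) =
      ∑ h ∈ range (q ^ m), (∑ n ∈ range N, ψ (q ^ m) ((h : ZMod (q ^ m)) * ((X n : ℕ) : ZMod (q ^ m)))) *
        (starRingEnd ℂ) (∑ p ∈ 𝒴, ψ (q ^ m) ((h : ZMod (q ^ m)) * ((Y p : ℕ) : ZMod (q ^ m)))) := by
    have : ∀ n ∈ range N, ∑ p ∈ 𝒴, ∑ h ∈ range (q ^ m),
      ψ (q ^ m) ((h : ZMod (q ^ m)) * (((X n : ℕ) : ZMod (q ^ m)) - ((Y p : ℕ) : ZMod (q ^ m)))) =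
      ∑ h ∈ range (q ^ m), ∑ p ∈ 𝒴, ψ (q ^ m) ((h : ZMod (q ^ m)) * ((X n : ℕ) : ZMod (q ^ m))) *
        (starRingEnd ℂ) (ψ (q ^ m) ((h : ZMod (q ^ m)) * ((Y p : ℕ) : ZMod (q ^ m)))) := by
      intro n _
      rw [sum_comm]
      refine sum_congr rfl fun h _ => sum_congr rfl fun p _ => ?_
      rw [← psi_neg, ← psi_add]
      congr 1; ring
    rw [sum_congr rfl this, sum_comm]
    refine sum_congr rfl fun h _ => ?_
    rw [map_sum, sum_mul_sum]
  set U : ℕ → ℂ := fun h => ∑ x ∈ range (q ^ s), ψ (q ^ m) ((h : ZMod (q ^ m)) * (x : ZMod (q ^ m))) with hU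
  set V : ℕ → ℂ := fun h => T q D k ((h : ℝ) / (q : ℝ) ^ k) with hV
  have hUV : ∀ h : ℕ, ∑ p ∈ 𝒴, ψ (q ^ m) ((h : ZMod (q ^ m)) * ((Y p : ℕ) : ZMod (q ^ m))) = U h * V h := by
    intro h
    rw [h𝒴, sum_product, hU, hV]
    simp only
    unfold T
    rw [sum_mul_sum]
    refine sum_congr rfl fun x _ => sum_congr rfl fun z _ => ?_
    have e1 : (h : ZMod (q ^ m)) * ((Y (x, z) : ℕ) : ZMod (q ^ m)) =
        (h : ZMod (q ^ m)) * (x : ZMod (q ^ m)) + (h : ZMod (q ^ m)) * ((q ^ s * z : ℕ) : ZMod (q ^ m)) := by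
      simp only [hY]; push_cast; ring
    rw [e1, psi_add, psi_eq_ee hq.pos h (q ^ s * z)]
    congr 2
    have : (q : ℝ) ^ m = (q : ℝ) ^ s * (q : ℝ) ^ k := by exact_mod_cast hmk
    rw [this]
    push_cast
    field_simp
  have hUle : ∀ h, ‖U h‖ ≤ (q : ℝ) ^ s := by
    intro h
    rw [hU]
    refine (norm_sum_le _ _).trans ?_
    simp [norm_psi]
  -- the exponential sums
  have hE : ∀ h ∈ range (q ^ m), h ≠ 0 →
      ‖∑ n ∈ range N, ψ (q ^ m) ((h : ZMod (q ^ m)) * ((X n : ℕ) : ZMod (q ^ m)))‖ * ‖U h‖ ≤ B * (q : ℝ) ^ s := by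
    intro h hh hne
    have hlt := mem_range.1 hh
    obtain ⟨v, h₀, hnd, he⟩ := Nat.exists_eq_pow_mul_and_not_dvd hne q hq.ne_one
    have hh0 : 0 < h₀ := by
      rcases Nat.eq_zero_or_pos h₀ with h1 | h1
      · rw [h1] at hnd; exact absurd (dvd_zero q) hnd
      · exact h1
    have hvm : v < m := by
      by_contra hc
      push Not at hc
      have : q ^ m ≤ q ^ v * h₀ := (Nat.pow_le_pow_right hq.pos hc).trans (Nat.le_mul_of_pos_right _ hh0)
      omega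
    rcases Nat.lt_or_ge s (m - v) with h1 | h1
    · have h2 := hB (m - v) h1 (by omega) (h₀ : ℤ) (by exact_mod_cast hnd)
      have h3 : ∑ n ∈ range N, ψ (q ^ m) ((h : ZMod (q ^ m)) * ((X n : ℕ) : ZMod (q ^ m))) =
          ∑ n ∈ range N, Pool.Agent.Helper602.MK.ee (((h₀ : ℤ) : ℝ) * (X n : ℝ) / (q : ℝ) ^ (m - v)) := by
        refine sum_congr rfl fun n _ => ?_
        rw [psi_eq_ee hq.pos, ee_MK]
        congr 1
        have e : (q : ℝ) ^ m = (q : ℝ) ^ v * (q : ℝ) ^ (m - v) := by rw [← pow_add]; congr 1; omega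
        rw [he, e]
        push_cast
        field_simp
      rw [h3]
      exact mul_le_mul h2 (hUle h) (norm_nonneg _) hB0
    · -- U vanishes
      have hU0 : U h = 0 := by
        have hd : q ^ k * q ^ s = q ^ m := by rw [hmk]; ring
        have h4 := sum_prog hd (((q ^ (v - k) * h₀ : ℕ) : ZMod (q ^ m)))
        have h5 : ∀ x : ℕ, ((q ^ k * x : ℕ) : ZMod (q ^ m)) * ((q ^ (v - k) * h₀ : ℕ) : ZMod (q ^ m)) =
            (h : ZMod (q ^ m)) * (x : ZMod (q ^ m)) := by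
          intro x
          have e : q ^ v = q ^ k * q ^ (v - k) := by rw [← pow_add]; congr 1; omega
          rw [he, e]
          push_cast; ring
        rw [hU]
        simp only
        rw [← sum_congr rfl (fun x _ => by rw [h5 x] : ∀ x ∈ range (q ^ s),
          ψ (q ^ m) (((q ^ k * x : ℕ) : ZMod (q ^ m)) * ((q ^ (v - k) * h₀ : ℕ) : ZMod (q ^ m))) =
            ψ (q ^ m) ((h : ZMod (q ^ m)) * (x : ZMod (q ^ m)))), h4, if_neg]
        intro h6
        have h7 := h5 1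
        rw [mul_one, Nat.cast_one, mul_one, h6] at h7
        have h8 : q ^ m ∣ h := (ZMod.natCast_eq_zero_iff _ _).1 h7.symm
        exact absurd (Nat.le_of_dvd (by omega) h8) (by omega)
      rw [hU0, norm_zero, mul_zero]
      positivity
  have hVsum : ∑ h ∈ range (q ^ m), ‖V h‖ ≤ (q : ℝ) ^ s * A1 ^ k := by
    have e1 : ∑ h ∈ range (q ^ m), ‖V h‖ = ∑ c ∈ range (q ^ s), ∑ y ∈ range (q ^ k), ‖V y‖ := by
      rw [← sum_product']
      symm
      refine sum_nbij' (fun p => p.2 + q ^ k * p.1) (fun h => (h / q ^ k, h % q ^ k)) ?_ ?_ ?_ ?_ ?_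
      · rintro ⟨c, y⟩ hp
        simp only [mem_product, mem_range] at hp ⊢
        rw [hmk]
        nlinarith [hp.1, hp.2, pow_pos hq.pos k]
      · intro h hh
        simp only [mem_product, mem_range] at hh ⊢
        exact ⟨Nat.div_lt_of_lt_mul (by rw [mul_comm, ← hmk]; exact hh), Nat.mod_lt _ (pow_pos hq.pos k)⟩
      · rintro ⟨c, y⟩ hp
        simp only [mem_product, mem_range] at hp
        simp only [Prod.mk.injEq]
        refine ⟨?_, ?_⟩
        · rw [Nat.add_mul_div_left _ _ (pow_pos hq.pos k), Nat.div_eq_of_lt hp.2, zero_add]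
        · rw [Nat.add_mul_mod_self_left, Nat.mod_eq_of_lt hp.2]
      · intro h _
        exact Nat.mod_add_div h (q ^ k)
      · rintro ⟨c, y⟩ _
        simp only [hV]
        have : (((y + q ^ k * c : ℕ) : ℝ) / (q : ℝ) ^ k) = (y : ℝ) / (q : ℝ) ^ k + (c : ℕ) := by
          push_cast; field_simp
        rw [this, T_add_nat]
    rw [e1, sum_const, card_range, nsmul_eq_mul]
    push_cast
    exact mul_le_mul_of_nonneg_left hA1 (by positivity)
  have hA1k : 0 ≤ A1 ^ k := le_trans (sum_nonneg fun _ _ => norm_nonneg _) hA1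
  have hDg : ∀ n, (Dg q D n).card = D.card ^ n := by
    intro n
    induction n with
    | zero =>
      have : Dg q D 0 = {0} := by
        ext x
        rw [mem_Dg, mem_singleton]
        simp
      rw [this]; simp
    | succ n ih =>
      have h1 := sum_Dg_succ (D := D) hq.pos hD n (fun _ => (1 : ℂ))
      simp only [sum_const, nsmul_eq_mul, mul_one] at h1
      rw [pow_succ', ← ih]
      exact_mod_cast h1
  have hmain : |(q : ℝ) ^ m * (P.card : ℝ) - N * ((q : ℝ) ^ s * (D.card : ℝ) ^ k)| ≤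
      B * (q : ℝ) ^ s * ((q : ℝ) ^ s * A1 ^ k) := by
    set W : ℕ → ℂ := fun h => (∑ n ∈ range N, ψ (q ^ m) ((h : ZMod (q ^ m)) * ((X n : ℕ) : ZMod (q ^ m)))) *
        (starRingEnd ℂ) (∑ p ∈ 𝒴, ψ (q ^ m) ((h : ZMod (q ^ m)) * ((Y p : ℕ) : ZMod (q ^ m)))) with hW
    have hW0 : W 0 = ((N * ((q : ℝ) ^ s * (D.card : ℝ) ^ k) : ℝ) : ℂ) := by
      simp only [hW]
      rw [Nat.cast_zero]
      simp only [zero_mul, psi_zero, sum_const, nsmul_eq_mul, mul_one, card_range]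
      rw [h𝒴, card_product, card_range, hDg, Complex.conj_natCast]
      push_cast
      ring
    have hne : 0 ∈ range (q ^ m) := mem_range.2 (pow_pos hq.pos m)
    have h1 : (((q : ℝ) ^ m * (P.card : ℝ) - N * ((q : ℝ) ^ s * (D.card : ℝ) ^ k) : ℝ) : ℂ) =
        ∑ h ∈ (range (q ^ m)).erase 0, W h := by
      have h2 : (((q : ℝ) ^ m * (P.card : ℝ) : ℝ) : ℂ) = ∑ h ∈ range (q ^ m), W h := by
        rw [← key, hfac]
      rw [Complex.ofReal_sub, h2, ← add_sum_erase _ _ hne, hW0]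
      ring
    have h3 : |(q : ℝ) ^ m * (P.card : ℝ) - N * ((q : ℝ) ^ s * (D.card : ℝ) ^ k)| =
        ‖∑ h ∈ (range (q ^ m)).erase 0, W h‖ := by
      rw [← h1, Complex.norm_real, Real.norm_eq_abs]
    rw [h3]
    refine (norm_sum_le _ _).trans ?_
    have h4 : ∀ h ∈ (range (q ^ m)).erase 0, ‖W h‖ ≤ B * (q : ℝ) ^ s * ‖V h‖ := by
      intro h hh
      rw [mem_erase] at hh
      simp only [hW]
      rw [norm_mul, Complex.norm_conj, hUV, norm_mul, ← mul_assoc]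
      exact mul_le_mul_of_nonneg_right (hE h hh.2 hh.1) (norm_nonneg _)
    refine (sum_le_sum h4).trans ?_
    rw [← mul_sum]
    refine mul_le_mul_of_nonneg_left ?_ (by positivity)
    exact (sum_le_sum_of_subset_of_nonneg (erase_subset _ _) fun _ _ _ => norm_nonneg _).trans hVsum
  have hceq : (((range N).filter (fun n => ∀ i < k, X n / q ^ s / q ^ i % q ∈ D)).card : ℝ) = P.card := by
    exact_mod_cast le_antisymm hcard hcard2
  have hqm : (q : ℝ) ^ m = (q : ℝ) ^ s * (q : ℝ) ^ k := by exact_mod_cast hmk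
  rw [hceq]
  have hqmp : (0 : ℝ) < (q : ℝ) ^ m := by positivity
  have e1 : (P.card : ℝ) - N * ((D.card : ℝ) / q) ^ k =
      ((q : ℝ) ^ m * (P.card : ℝ) - N * ((q : ℝ) ^ s * (D.card : ℝ) ^ k)) / (q : ℝ) ^ m := by
    rw [hqm, div_pow]; field_simp
  rw [e1, abs_div, abs_of_pos hqmp, div_le_iff₀ hqmp]
  refine hmain.trans (le_of_eq ?_)
  rw [hqm, div_pow]
  field_simp

end Pool.Agent.W301.TD
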