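import Pool.Agent.W301.TD.Count

/-! Sets of integers with all digits in `D`. -/

set_option autoImplicit false

namespace Pool.Agent.W301.TD

open Finset

/-- the integers below `q ^ m` all of whose `m` digits lie in `D` -/
def Dg (q : ℕ) (D : Finset ℕ) (m : ℕ) : Finset ℕ :=
  (range (q ^ m)).filter (fun x => ∀ i < m, x / q ^ i % q ∈ D)

variable {q : ℕ} {D : Finset ℕ}

lemma mem_Dg {m x : ℕ} : x ∈ Dg q D m ↔ x < q ^ m ∧ ∀ i < m, x / q ^ i % q ∈ D := by
  simp [Dg]

lemma Dg_card_le (hq : 0 < q) (m : ℕ) : (Dg q D m).card ≤ D.card ^ m := by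
  induction m with
  | zero =>
    have : Dg q D 0 ⊆ {0} := by
      intro x hx
      have := (mem_Dg.1 hx).1
      simp at this ⊢
      exact this
    exact (card_le_card this).trans (by simp)
  | succ m ih =>
    have : (Dg q D (m + 1)).card ≤ (D ×ˢ Dg q D m).card := by
      refine card_le_card_of_injOn (fun x => (x % q, x / q)) ?_ ?_
      · intro x hx
        have hx := mem_Dg.1 (mem_coe.1 hx)
        simp only [coe_product, Set.mem_prod, mem_coe]
        refine ⟨by simpa using hx.2 0 (by omega), mem_Dg.2 ⟨?_, fun i hi => ?_⟩⟩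
        · apply Nat.div_lt_of_lt_mul
          rw [← pow_succ']
          exact hx.1
        · have := hx.2 (i + 1) (by omega)
          rw [Nat.div_div_eq_div_mul, ← pow_succ']
          exact this
      · intro x _ y _ h
        simp only [Prod.mk.injEq] at h
        rw [← Nat.div_add_mod x q, ← Nat.div_add_mod y q, h.1, h.2]
    rw [card_product] at this
    calc (Dg q D (m + 1)).card ≤ D.card * (Dg q D m).card := this
      _ ≤ D.card * D.card ^ m := Nat.mul_le_mul_left _ ih
      _ = D.card ^ (m + 1) := by ring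

/-- low and high digits -/
lemma digits_split (hq : 0 < q) (j L y : ℕ) :
    (∀ i < j + L, y / q ^ i % q ∈ D) ↔ y % q ^ j ∈ Dg q D j ∧ y / q ^ j % q ^ L ∈ Dg q D L := by
  have e1 : ∀ (z a i : ℕ), i < a → z % q ^ a / q ^ i % q = z / q ^ i % q := by
    intro z a i hi
    obtain ⟨c, rfl⟩ := Nat.exists_eq_add_of_lt hi
    have : z % q ^ (i + c + 1) = z % (q ^ i * q ^ (c + 1)) := by rw [← pow_add]; congr 1
    rw [this, Nat.mod_mul_right_div_self, pow_succ', Nat.mod_mul_right_mod]
  constructor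
  · intro h
    refine ⟨mem_Dg.2 ⟨Nat.mod_lt _ (pow_pos hq _), fun i hi => ?_⟩,
      mem_Dg.2 ⟨Nat.mod_lt _ (pow_pos hq _), fun i hi => ?_⟩⟩
    · rw [e1 y j i hi]
      exact h i (by omega)
    · rw [e1 _ L i hi, Nat.div_div_eq_div_mul, ← pow_add]
      exact h (j + i) (by omega)
  · rintro ⟨h1, h2⟩ i hi
    rcases lt_or_ge i j with h | h
    · rw [← e1 y j i h]
      exact (mem_Dg.1 h1).2 i h
    · obtain ⟨c, rfl⟩ := Nat.exists_eq_add_of_le h
      have := (mem_Dg.1 h2).2 c (by omega)
      rw [e1 _ L c (by omega), Nat.div_div_eq_div_mul, ← pow_add] at this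
      exact this

/-- elements of `Dg` in a residue class -/
lemma Dg_fiber (hq : 0 < q) {a m : ℕ} (ham : a ≤ m) (r : ℕ) :
    ((Dg q D m).filter (fun x => x % q ^ a = r)).card ≤ D.card ^ (m - a) := by
  refine le_trans ?_ (Dg_card_le hq (m - a))
  refine card_le_card_of_injOn (fun x => x / q ^ a) ?_ ?_
  · intro x hx
    simp only [coe_filter, Set.mem_ofPred_eq] at hx
    have h := mem_Dg.1 hx.1
    refine mem_coe.2 (mem_Dg.2 ⟨?_, fun i hi => ?_⟩)
    · apply Nat.div_lt_of_lt_mul
      rw [← pow_add, Nat.add_sub_cancel' ham]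
      exact h.1
    · rw [Nat.div_div_eq_div_mul, ← pow_add]
      exact h.2 _ (by omega)
  · intro x hx y hy h
    simp only [coe_filter, Set.mem_ofPred_eq] at hx hy h
    rw [← Nat.div_add_mod x (q ^ a), ← Nat.div_add_mod y (q ^ a), h, hx.2, hy.2]

/-- pairs of elements of `Dg` in the same residue class -/
lemma Dg_pairs (hq : 0 < q) {a m : ℕ} (ham : a ≤ m) :
    ((Dg q D m ×ˢ Dg q D m).filter (fun p => p.1 % q ^ a = p.2 % q ^ a)).card ≤
      D.card ^ m * D.card ^ (m - a) := by
  have h1 : ((Dg q D m ×ˢ Dg q D m).filter (fun p => p.1 % q ^ a = p.2 % q ^ a)).card =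
      ∑ y ∈ Dg q D m, ((Dg q D m).filter (fun x => x % q ^ a = y % q ^ a)).card := by
    rw [card_filter, sum_product_right]
    refine sum_congr rfl fun y _ => ?_
    rw [card_filter]
  rw [h1]
  calc ∑ y ∈ Dg q D m, ((Dg q D m).filter (fun x => x % q ^ a = y % q ^ a)).card
      ≤ ∑ y ∈ Dg q D m, D.card ^ (m - a) := sum_le_sum fun y _ => Dg_fiber hq ham _
    _ = (Dg q D m).card * D.card ^ (m - a) := by rw [sum_const, smul_eq_mul]
    _ ≤ _ := Nat.mul_le_mul_right _ (Dg_card_le hq m)

end Pool.Agent.W301.TD
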