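import Pool.Agent.W301.TD.Expo

/-! Exponential sums over powers modulo prime powers: the bound. -/

set_option autoImplicit false

namespace Pool.Agent.W301.TD.AA

open Finset Filter Topology
open Pool.Agent.H373R2.NB
open Pool.Agent.Helper602.MK (ee)
open Pool.Agent.Helper602.MK.N_J5b (norm_ee ee_add ee_int)

theorem expsum {q : ℕ} (hq : q.Prime) {p g s : ℕ} (hp : ¬ q ∣ p) (hg : 1 ≤ g)
    (hw : ∀ i, ∃ w, ¬ q ∣ w ∧ p ^ (g * q ^ i) = 1 + q ^ (s + i) * w) (δ C : ℝ) (hδ : 0 < δ) (hδ1 : δ ≤ 1)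
    (hC : 0 ≤ C) :
    ∃ η : ℝ, 0 < η ∧ ∃ x0 : ℝ, ∀ x : ℝ, x0 ≤ x → ∀ M : ℕ, (M : ℝ) = (q : ℝ) ^ x → ∀ ι : ℕ, δ * x ≤ ι →
      (ι : ℝ) ≤ C * x → ∀ A : ℤ, ¬ (q : ℤ) ∣ A →
      ‖∑ n ∈ range M, ee ((A : ℝ) * (p : ℝ) ^ n / (q : ℝ) ^ ι)‖ ≤ (q : ℝ) ^ (-(η * x)) * M := by
  have hqR : (2 : ℝ) ≤ q := by exact_mod_cast hq.two_le
  have hq0 : (0 : ℝ) < q := by linarith
  have hq1 : (1 : ℝ) < q := by linarith
  set Km : ℕ := ⌈8 * C / δ⌉₊ with hKm
  obtain ⟨cI, mI, hcI, hI⟩ := iw_unif Km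
  set η : ℝ := min (δ / (16 * (mI + 1))) (1 / 2) with hη
  have hη0 : 0 < η := lt_min (by positivity) (by norm_num)
  have hη1 : η ≤ 1 / 2 := min_le_right _ _
  have hηm : η * mI ≤ δ / 16 := by
    have h1 : η ≤ δ / (16 * (mI + 1)) := min_le_left _ _
    rw [le_div_iff₀ (by positivity)] at h1
    nlinarith
  refine ⟨η / 2, by positivity, 16 * (cI + Km + s + g + 4) / δ + 2 / η, fun x hx M hM ι hι1 hι2 A hA => ?_⟩
  have hcI0 : (0 : ℝ) ≤ cI := Nat.cast_nonneg _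
  have hKm0 : (0 : ℝ) ≤ Km := Nat.cast_nonneg _
  have hs0 : (0 : ℝ) ≤ s := Nat.cast_nonneg _
  have hg0 : (0 : ℝ) ≤ g := Nat.cast_nonneg _
  have hx1 : 16 * (cI + Km + s + g + 4) ≤ δ * x := by
    have h1 : 16 * ((cI : ℝ) + Km + s + g + 4) / δ ≤ x := by
      have : 0 < 2 / η := by positivity
      linarith
    rw [div_le_iff₀ hδ] at h1
    linarith
  have hx2 : 2 ≤ η * x := by
    have h1 : 2 / η ≤ x := by
      have : 0 ≤ 16 * ((cI : ℝ) + Km + s + g + 4) / δ := by positivity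
      linarith
    rw [div_le_iff₀ hη0] at h1
    linarith
  have hx0 : 0 < x := by
    by_contra h
    have := mul_nonpos_of_nonneg_of_nonpos hδ.le (not_lt.1 h)
    linarith
  have hx3 : δ * x ≤ x := by nlinarith
  have mono : ∀ {a b : ℝ}, a ≤ b → (q : ℝ) ^ a ≤ (q : ℝ) ^ b := fun h =>
    Real.rpow_le_rpow_of_exponent_le hq1.le h
  have padd : ∀ a b : ℝ, (q : ℝ) ^ a * (q : ℝ) ^ b = (q : ℝ) ^ (a + b) := fun a b => (Real.rpow_add hq0 a b).symm
  have ppos : ∀ a : ℝ, 0 < (q : ℝ) ^ a := fun a => Real.rpow_pos_of_pos hq0 a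
  have hnat : ∀ n : ℕ, (n : ℝ) < (q : ℝ) ^ (n : ℝ) := fun n => by
    rw [Real.rpow_natCast]
    exact_mod_cast Nat.lt_pow_self hq.one_lt
  -- parameters
  set a0 : ℕ := ⌊δ / 4 * x⌋₊ with ha0
  have ha0a : (a0 : ℝ) ≤ δ / 4 * x := Nat.floor_le (by positivity)
  have ha0b : δ / 4 * x < a0 + 1 := Nat.lt_floor_add_one _
  have ha0c : 1 ≤ a0 := by
    have : (1 : ℝ) < a0 := by linarith
    exact_mod_cast this.le
  set K : ℕ := ι / a0 with hK
  have hKa : K * a0 ≤ ι := Nat.div_mul_le_self _ _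
  have hKb : ι < (K + 1) * a0 := by
    have h1 := Nat.div_add_mod ι a0
    have h2 := Nat.mod_lt ι ha0c
    rw [← hK] at h1
    nlinarith
  have hK1 : 1 ≤ K := by
    rw [hK, Nat.one_le_div_iff ha0c]
    have : (a0 : ℝ) ≤ ι := by nlinarith
    exact_mod_cast this
  have hKm1 : K ≤ Km := by
    have h1 : (K : ℝ) * a0 ≤ ι := by exact_mod_cast hKa
    have h2 : δ / 8 * x ≤ a0 := by linarith
    have h3 : (K : ℝ) * (δ / 8 * x) ≤ C * x := by
      have : (K : ℝ) * (δ / 8 * x) ≤ K * a0 := mul_le_mul_of_nonneg_left h2 (Nat.cast_nonneg _)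
      linarith
    have h4 : (K : ℝ) ≤ 8 * C / δ := by
      rw [le_div_iff₀ hδ]
      have h5 : (K * δ) * x ≤ (8 * C) * x := by nlinarith
      exact le_of_mul_le_mul_right h5 hx0
    exact_mod_cast h4.trans (Nat.le_ceil _)
  set a : ℕ := (ι + K) / (K + 1) with ha
  have ha1 : (K + 1) * a ≤ ι + K := Nat.mul_div_le _ _
  have ha2 : ι ≤ (K + 1) * a := by
    have h1 := Nat.div_add_mod (ι + K) (K + 1)
    have h2 := Nat.mod_lt (ι + K) (show 0 < K + 1 by omega)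
    rw [← ha] at h1
    omega
  have ha3 : a0 ≤ 2 * a := by
    by_contra hc
    push Not at hc
    have h1 : K * (2 * a + 1) ≤ K * a0 := Nat.mul_le_mul_left _ hc
    nlinarith
  have ha4 : a ≤ a0 := by
    by_contra hc
    push Not at hc
    have h1 : (K + 1) * (a0 + 1) ≤ (K + 1) * a := Nat.mul_le_mul_left _ hc
    nlinarith
  have ha3' : (a0 : ℝ) ≤ 2 * a := by exact_mod_cast ha3
  have haK : K ≤ a := by
    have h1 : (Km : ℝ) ≤ a := by linarith
    have h2 : Km ≤ a := by exact_mod_cast h1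
    omega
  have has : s ≤ a := by
    have h1 : (s : ℝ) ≤ a := by linarith
    exact_mod_cast h1
  have hKaι : K * a ≤ ι := by
    have : (K + 1) * a = K * a + a := by ring
    omega
  set r : ℕ := ι - K * a with hr
  have hr1 : ι = r + K * a := by omega
  have hr2 : r ≤ a := by
    have : (K + 1) * a = K * a + a := by ring
    omega
  have hr3 : a ≤ r + K := by
    have : (K + 1) * a = K * a + a := by ring
    omega
  obtain ⟨w, hwq, hwe⟩ := hw (a - s)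
  have hsa : s + (a - s) = a := by omega
  rw [hsa] at hwe
  set G : ℕ := g * q ^ (a - s) with hG
  have hG1 : 1 ≤ G := Nat.one_le_iff_ne_zero.2 (Nat.mul_ne_zero (by omega) (pow_pos hq.pos _).ne')
  have hG0 : (0 : ℝ) < G := by exact_mod_cast hG1
  have hGle : (G : ℝ) ≤ (q : ℝ) ^ (g + δ / 4 * x) := by
    rw [hG, Nat.cast_mul, ← padd]
    apply mul_le_mul (hnat g).le _ (by positivity) (ppos _).le
    rw [Nat.cast_pow, ← Real.rpow_natCast]
    apply mono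
    have h1 : ((a - s : ℕ) : ℝ) ≤ a0 := by exact_mod_cast (Nat.sub_le _ _).trans ha4
    linarith
  set T : ℕ := M / G with hT
  have hTG : (G : ℝ) * T ≤ M := by
    rw [hT]; exact_mod_cast Nat.mul_div_le M G
  have hTlt : (M : ℝ) < G * T + G := by
    have h1 := Nat.div_add_mod M G
    have h2 := Nat.mod_lt M hG1
    have h3 : M < G * T + G := by rw [hT]; omega
    exact_mod_cast h3
  have hTbig : (q : ℝ) ^ (x / 2) ≤ T := by
    have h1 : (q : ℝ) ^ (x / 2 + 1) * G ≤ M := by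
      rw [hM]
      calc (q : ℝ) ^ (x / 2 + 1) * G ≤ (q : ℝ) ^ (x / 2 + 1) * (q : ℝ) ^ (g + δ / 4 * x) :=
            mul_le_mul_of_nonneg_left hGle (ppos _).le
        _ = (q : ℝ) ^ (x / 2 + 1 + (g + δ / 4 * x)) := padd _ _
        _ ≤ _ := mono (by linarith)
    have h2 : (q : ℝ) ^ (x / 2 + 1) < T + 1 := by
      have : (q : ℝ) ^ (x / 2 + 1) * G < (T + 1) * G := by linarith
      exact lt_of_mul_lt_mul_right this hG0.le
    have h3 : 2 * (q : ℝ) ^ (x / 2) ≤ (q : ℝ) ^ (x / 2 + 1) := by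
      rw [Real.rpow_add hq0, Real.rpow_one]
      have := ppos (x / 2)
      nlinarith
    have h4 : (1 : ℝ) ≤ (q : ℝ) ^ (x / 2) := Real.one_le_rpow hq1.le (by positivity)
    linarith
  have hT1 : 1 ≤ T := by
    have h4 : (1 : ℝ) ≤ (q : ℝ) ^ (x / 2) := Real.one_le_rpow hq1.le (by positivity)
    have : (1 : ℝ) ≤ T := h4.trans hTbig
    exact_mod_cast this
  have hT1' : (1 : ℝ) ≤ T := by exact_mod_cast hT1
  set u : ℝ := (q : ℝ) ^ (η * x) with hu
  have hu1 : 1 ≤ u := Real.one_le_rpow hq1.le (by positivity)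
  have hum : (cI : ℝ) * u ^ mI < (q : ℝ) ^ (cI + δ / 16 * x) := by
    rw [← padd]
    have h1 : u ^ mI ≤ (q : ℝ) ^ (δ / 16 * x) := by
      rw [hu, ← Real.rpow_natCast, ← Real.rpow_mul hq0.le]
      apply mono
      have : η * x * mI = (η * mI) * x := by ring
      rw [this]
      exact mul_le_mul_of_nonneg_right hηm hx0.le
    calc (cI : ℝ) * u ^ mI ≤ cI * (q : ℝ) ^ (δ / 16 * x) := mul_le_mul_of_nonneg_left h1 hcI0
      _ < _ := mul_lt_mul_of_pos_right (hnat cI) (ppos _)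
  have hc1 : (cI : ℝ) * u ^ mI < (q : ℝ) ^ r := by
    refine lt_of_lt_of_le hum ?_
    rw [← Real.rpow_natCast]
    apply mono
    have h1 : (a : ℝ) ≤ r + K := by exact_mod_cast hr3
    have h2 : (K : ℝ) ≤ Km := by exact_mod_cast hKm1
    linarith
  have hc2 : (cI : ℝ) * u ^ mI * (q : ℝ) ^ r < (T : ℝ) ^ K := by
    have h1 : (q : ℝ) ^ r ≤ (q : ℝ) ^ (δ / 4 * x) := by
      rw [← Real.rpow_natCast]
      apply mono
      have : (r : ℝ) ≤ a0 := by exact_mod_cast hr2.trans ha4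
      linarith
    calc (cI : ℝ) * u ^ mI * (q : ℝ) ^ r < (q : ℝ) ^ (cI + δ / 16 * x) * (q : ℝ) ^ r :=
          mul_lt_mul_of_pos_right hum (by positivity)
      _ ≤ (q : ℝ) ^ (cI + δ / 16 * x) * (q : ℝ) ^ (δ / 4 * x) := mul_le_mul_of_nonneg_left h1 (ppos _).le
      _ = (q : ℝ) ^ (cI + δ / 16 * x + δ / 4 * x) := padd _ _
      _ ≤ (q : ℝ) ^ (x / 2) := mono (by linarith)
      _ ≤ T := hTbig
      _ = (T : ℝ) ^ 1 := (pow_one _).symm
      _ ≤ (T : ℝ) ^ K := pow_le_pow_right₀ hT1' hK1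
  have hmain := sum_ap (fun n => ee ((A : ℝ) * (p : ℝ) ^ n / (q : ℝ) ^ ι)) (fun n => (norm_ee _).le) M G hG1
    (B := T / u) (fun n₀ _ => blk hq (hI K hK1 hKm1) hp hwq hwe hA hr1 hr2 hT1 hu1 hc1 hc2)
  refine hmain.trans ?_
  have hu0 : 0 < u := by linarith
  have h1 : (G : ℝ) * (T / u) ≤ M * (q : ℝ) ^ (-(η * x)) := by
    rw [Real.rpow_neg hq0.le, ← hu, ← mul_div_assoc, div_eq_mul_inv]
    exact mul_le_mul_of_nonneg_right hTG (by positivity)
  have h2 : (G : ℝ) ≤ M * (q : ℝ) ^ (-(η * x)) := by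
    rw [hM, padd]
    refine hGle.trans (mono ?_)
    have : η * x ≤ 1 / 2 * x := mul_le_mul_of_nonneg_right hη1 hx0.le
    linarith
  have h3 : 2 * (q : ℝ) ^ (-(η * x)) ≤ (q : ℝ) ^ (-(η / 2 * x)) := by
    calc 2 * (q : ℝ) ^ (-(η * x)) ≤ (q : ℝ) ^ (1 : ℝ) * (q : ℝ) ^ (-(η * x)) := by
          rw [Real.rpow_one]
          exact mul_le_mul_of_nonneg_right hqR (ppos _).le
      _ = (q : ℝ) ^ (1 + -(η * x)) := padd _ _
      _ ≤ _ := mono (by linarith)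
  have hM0 : (0 : ℝ) ≤ M := Nat.cast_nonneg _
  calc (G : ℝ) * (T / u) + G ≤ M * (2 * (q : ℝ) ^ (-(η * x))) := by linarith
    _ ≤ M * (q : ℝ) ^ (-(η / 2 * x)) := mul_le_mul_of_nonneg_left h3 hM0
    _ = _ := mul_comm _ _

/-- the hypothesis of `expsum` -/
lemma exists_tower {q : ℕ} (hq : q.Prime) {p : ℕ} (hp2 : 2 ≤ p) (hp : ¬ q ∣ p) :
    ∃ s : ℕ, ∀ i, ∃ w, ¬ q ∣ w ∧ p ^ ((q ^ 2).totient * q ^ i) = 1 + q ^ (s + i) * w := by
  haveI := Fact.mk hq
  have hcop : p.Coprime (q ^ 2) := by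
    apply Nat.Coprime.pow_right
    rw [Nat.coprime_comm]
    exact (Nat.Prime.coprime_iff_not_dvd hq).2 hp
  have h1 : p ^ (q ^ 2).totient ≡ 1 [MOD q ^ 2] := Nat.ModEq.pow_totient hcop
  have htot : (q ^ 2).totient ≠ 0 := (Nat.totient_pos.2 (pow_pos hq.pos 2)).ne'
  have h2 : 1 < p ^ (q ^ 2).totient := Nat.one_lt_pow htot (by omega)
  have h3 : q ^ 2 ∣ p ^ (q ^ 2).totient - 1 := (Nat.modEq_iff_dvd' h2.le).1 h1.symm
  obtain ⟨k, w, hnd, he⟩ := Nat.exists_eq_pow_mul_and_not_dvd (show p ^ (q ^ 2).totient - 1 ≠ 0 by omega) q hq.ne_one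
  have hk : 2 ≤ k := by
    by_contra hc
    have hk1 : k = 0 ∨ k = 1 := by omega
    rw [he] at h3
    rcases hk1 with rfl | rfl
    · rw [pow_zero, one_mul] at h3
      exact hnd ((dvd_pow_self q (by norm_num)).trans h3)
    · rw [pow_one, pow_two] at h3
      exact hnd (Nat.dvd_of_mul_dvd_mul_left hq.pos h3)
  refine ⟨k, fun i => ?_⟩
  induction i with
  | zero =>
    refine ⟨w, hnd, ?_⟩
    rw [pow_zero, mul_one, add_zero, ← he]
    omega
  | succ i ih =>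
    obtain ⟨w', hw', he'⟩ := ih
    obtain ⟨c, hc⟩ := one_add_pow_trunc (q ^ (k + i) * w') q 1
    refine ⟨w' + q * (q ^ (k + i - 2) * w' ^ 2 * c), ?_, ?_⟩
    · intro h
      exact hw' ((Nat.dvd_add_left (dvd_mul_right _ _)).1 h)
    · rw [pow_succ q i, ← mul_assoc, pow_mul, he', hc]
      rw [sum_range_succ, sum_range_one, Nat.choose_zero_right, Nat.choose_one_right]
      have e1 : q ^ (k + i) = q ^ 2 * q ^ (k + i - 2) := by rw [← pow_add]; congr 1; omega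
      have e2 : q ^ (k + (i + 1)) = q ^ (k + i) * q := by rw [← pow_succ]; congr 1
      rw [e2, pow_zero, pow_one, mul_pow (q ^ (k + i)) w' (1 + 1)]
      have e3 : (q ^ (k + i)) ^ (1 + 1) = q ^ (k + i) * q * (q * q ^ (k + i - 2)) := by
        rw [show 1 + 1 = 2 from rfl, pow_two]
        nth_rewrite 2 [e1]
        ring
      rw [e3]
      ring

end Pool.Agent.W301.TD.AA
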