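import Pool.Agent.W301.RM.GenFreq

/-! Exponential sums over powers modulo prime powers. -/

set_option autoImplicit false

namespace Pool.Agent.W301.TD.AA

open Finset Filter Topology
open Pool.Agent.H373R2.NB
open Pool.Agent.Helper602.MK (ee)
open Pool.Agent.Helper602.MK.N_J5b (norm_ee ee_add ee_int)

/-- phases that are integer valued polynomials times constants -/
lemma Ph_choose (d : ℕ) : ∀ c : ℕ → ℝ, Ph d (c d) (fun t => ∑ k ∈ range (d + 1), c k * (t.choose k : ℝ)) := by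
  induction d with
  | zero => intro c n; simp
  | succ d ih =>
    intro c h
    set c' : ℕ → ℝ := fun j => ∑ k ∈ range (d + 2), if j < k then c k * (h.choose (k - j) : ℝ) else 0 with hc'
    have h1 := ih c'
    have h2 : c' d = h * c (d + 1) := by
      rw [hc']
      simp only
      rw [sum_range_succ, if_pos (by omega), sum_eq_zero, zero_add]
      · have : d + 1 - d = 1 := by omega
        rw [this, Nat.choose_one_right]; ring
      · intro k hk
        rw [if_neg (by have := mem_range.1 hk; omega)]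
    rw [h2] at h1
    convert h1 using 1
    funext n
    have h3 : ∀ k, ((n + h).choose k : ℝ) = ∑ j ∈ range (k + 1), (n.choose j : ℝ) * (h.choose (k - j) : ℝ) := by
      intro k
      rw [Nat.add_choose_eq, Finset.Nat.sum_antidiagonal_eq_sum_range_succ_mk]
      push_cast
      rfl
    have h4 : ∀ k, ((n + h).choose k : ℝ) - (n.choose k : ℝ) = ∑ j ∈ range k, (n.choose j : ℝ) * (h.choose (k - j) : ℝ) := by
      intro k
      rw [h3, sum_range_succ, Nat.sub_self, Nat.choose_zero_right]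
      push_cast; ring
    rw [← sum_sub_distrib]
    have h5 : ∀ k ∈ range (d + 2), c k * ((n + h).choose k : ℝ) - c k * (n.choose k : ℝ) =
        ∑ j ∈ range (d + 1), (if j < k then c k * (h.choose (k - j) : ℝ) else 0) * (n.choose j : ℝ) := by
      intro k hk
      rw [← mul_sub, h4, mul_sum]
      have hk := mem_range.1 hk
      rw [← sum_subset (range_mono (show k ≤ d + 1 by omega))]
      · apply sum_congr rfl
        intro j hj
        rw [if_pos (mem_range.1 hj)]; ring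
      · intro j _ hj
        rw [if_neg (fun h => hj (mem_range.2 h)), zero_mul]
    have e0 : d + 1 + 1 = d + 2 := rfl
    rw [e0, sum_congr rfl h5, sum_comm]
    apply sum_congr rfl
    intro j _
    rw [← sum_mul]

lemma one_add_pow_trunc (X t K : ℕ) : ∃ c : ℕ, (1 + X) ^ t = ∑ k ∈ range (K + 1), t.choose k * X ^ k + X ^ (K + 1) * c := by
  refine ⟨∑ k ∈ range t, t.choose (K + 1 + k) * X ^ k, ?_⟩
  have h1 : (1 + X) ^ t = ∑ k ∈ range (K + 1 + t), t.choose k * X ^ k := by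
    rw [add_comm 1 X, add_pow]
    have : range (t + 1) ⊆ range (K + 1 + t) := range_mono (by omega)
    rw [← sum_subset this]
    · apply sum_congr rfl
      intro k _
      rw [one_pow]; push_cast; ring
    · intro k _ hk
      rw [mem_range, not_lt] at hk
      rw [Nat.choose_eq_zero_of_lt (by omega), zero_mul]
  rw [h1, sum_range_add, mul_sum]
  congr 1
  apply sum_congr rfl
  intro k _
  rw [pow_add]; ring

/-- one progression -/
lemma blk {q : ℕ} (hq : q.Prime) {K cI mI : ℕ}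
    (hI : ∀ (N : ℕ) (u α : ℝ) (φ : ℕ → ℝ), 1 ≤ N → 1 ≤ u → Ph K α φ →
      (N : ℝ) ≤ u * ‖∑ n ∈ range N, ee (φ n)‖ →
      ∃ Q : ℕ, 1 ≤ Q ∧ (Q : ℝ) ≤ cI * u ^ mI ∧ ∃ a : ℤ, |Q * α - a| ≤ cI * u ^ mI / (N : ℝ) ^ K)
    {p G a w ι r n₀ T : ℕ} {A : ℤ} {u : ℝ} (hp : ¬ q ∣ p) (hw : ¬ q ∣ w) (hG : p ^ G = 1 + q ^ a * w)
    (hA : ¬ (q : ℤ) ∣ A) (hr : ι = r + K * a) (hra : r ≤ a) (hT : 1 ≤ T) (hu : 1 ≤ u)
    (h1 : (cI : ℝ) * u ^ mI < (q : ℝ) ^ r) (h2 : (cI : ℝ) * u ^ mI * (q : ℝ) ^ r < (T : ℝ) ^ K) :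
    ‖∑ t ∈ range T, ee ((A : ℝ) * (p : ℝ) ^ (n₀ + G * t) / (q : ℝ) ^ ι)‖ ≤ T / u := by
  have hq0 : (0 : ℝ) < q := by exact_mod_cast hq.pos
  have hu0 : 0 < u := by linarith
  by_contra hcon
  push Not at hcon
  set B : ℤ := A * (p : ℤ) ^ n₀ * (w : ℤ) ^ K with hB
  set c : ℕ → ℝ := fun k => (A : ℝ) * (p : ℝ) ^ n₀ * (w : ℝ) ^ k * (q : ℝ) ^ (a * k) / (q : ℝ) ^ ι with hc
  have hphase : ∀ t : ℕ, ee ((A : ℝ) * (p : ℝ) ^ (n₀ + G * t) / (q : ℝ) ^ ι) =
      ee (∑ k ∈ range (K + 1), c k * (t.choose k : ℝ)) := by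
    intro t
    obtain ⟨e, he⟩ := one_add_pow_trunc (q ^ a * w) t K
    have h3 : (p : ℝ) ^ (n₀ + G * t) = (p : ℝ) ^ n₀ * (∑ k ∈ range (K + 1), (t.choose k : ℝ) * ((q : ℝ) ^ a * w) ^ k +
        ((q : ℝ) ^ a * w) ^ (K + 1) * e) := by
      rw [pow_add, pow_mul]
      have : (p : ℝ) ^ G = 1 + (q : ℝ) ^ a * w := by exact_mod_cast hG
      rw [this]
      have he' : (1 + (q : ℝ) ^ a * w) ^ t = ∑ k ∈ range (K + 1), (t.choose k : ℝ) * ((q : ℝ) ^ a * w) ^ k +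
        ((q : ℝ) ^ a * w) ^ (K + 1) * e := by exact_mod_cast he
      rw [he']
    have h4 : (A : ℝ) * (p : ℝ) ^ (n₀ + G * t) / (q : ℝ) ^ ι = ∑ k ∈ range (K + 1), c k * (t.choose k : ℝ) +
        ((A * (p : ℤ) ^ n₀ * (w : ℤ) ^ (K + 1) * (q : ℤ) ^ (a - r) * e : ℤ) : ℝ) := by
      rw [h3]
      have e1 : (q : ℝ) ^ a * (q : ℝ) ^ (a * K) = (q : ℝ) ^ ι * (q : ℝ) ^ (a - r) := by
        rw [← pow_add, ← pow_add, hr, Nat.mul_comm K a]; congr 1; omega
      have e2 : (A : ℝ) * ((p : ℝ) ^ n₀ * (((q : ℝ) ^ a * w) ^ (K + 1) * e)) / (q : ℝ) ^ ι =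
          ((A * (p : ℤ) ^ n₀ * (w : ℤ) ^ (K + 1) * (q : ℤ) ^ (a - r) * e : ℤ) : ℝ) := by
        push_cast
        rw [div_eq_iff (by positivity), mul_pow, ← pow_mul, Nat.mul_succ, pow_add]
        linear_combination ((A : ℝ) * (p : ℝ) ^ n₀ * (w : ℝ) ^ (K + 1) * e) * e1
      rw [← e2, mul_add, mul_add, add_div]
      congr 1
      rw [mul_sum, mul_sum, sum_div]
      apply sum_congr rfl
      intro k _
      rw [hc]
      simp only
      rw [mul_pow, ← pow_mul]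
      ring
    rw [h4, ee_add, ee_int, mul_one]
  rw [sum_congr rfl (fun t _ => hphase t)] at hcon
  obtain ⟨Q, hQ1, hQ2, b, hb⟩ := hI T u _ _ hT hu (Ph_choose K c) (by
    have := (div_lt_iff₀ hu0).1 hcon
    linarith)
  have hcK : c K = B / (q : ℝ) ^ r := by
    rw [hc, hB]
    simp only
    push_cast
    rw [div_eq_div_iff (by positivity) (by positivity), hr, pow_add, Nat.mul_comm K a]
    ring
  rw [hcK] at hb
  have hqB : ¬ (q : ℤ) ∣ B := by
    have hqp : Prime (q : ℤ) := Nat.prime_iff_prime_int.1 hq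
    rw [hB]
    intro h
    rcases hqp.dvd_or_dvd h with h | h
    · rcases hqp.dvd_or_dvd h with h | h
      · exact hA h
      · exact hp (by exact_mod_cast hqp.dvd_of_dvd_pow h)
    · exact hw (by exact_mod_cast hqp.dvd_of_dvd_pow h)
  have hne : (Q : ℤ) * B - b * (q : ℤ) ^ r ≠ 0 := by
    intro h0
    have h5 : (q : ℤ) ^ r ∣ (Q : ℤ) * B := ⟨b, by linarith⟩
    have hcop : IsCoprime ((q : ℤ) ^ r) B := by
      apply IsCoprime.pow_left
      exact (Nat.prime_iff_prime_int.1 hq).coprime_iff_not_dvd.2 hqB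
    have h6 : (q : ℤ) ^ r ∣ (Q : ℤ) := hcop.dvd_of_dvd_mul_right h5
    have h7 : q ^ r ∣ Q := by exact_mod_cast h6
    have h8 := Nat.le_of_dvd (by omega) h7
    have h9 : (q : ℝ) ^ r ≤ Q := by exact_mod_cast h8
    linarith
  have h10 : (1 : ℝ) ≤ |((Q : ℤ) * B - b * (q : ℤ) ^ r : ℤ)| := by
    exact_mod_cast Int.one_le_abs hne
  have h11 : |(Q : ℝ) * (B / (q : ℝ) ^ r) - b| = |(((Q : ℤ) * B - b * (q : ℤ) ^ r : ℤ) : ℝ)| / (q : ℝ) ^ r := by
    rw [← abs_of_pos (by positivity : (0 : ℝ) < (q : ℝ) ^ r), ← abs_div]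
    congr 1
    push_cast
    rw [abs_of_pos (by positivity : (0 : ℝ) < (q : ℝ) ^ r)]
    field_simp
  rw [h11, div_le_div_iff₀ (by positivity) (by positivity)] at hb
  have h12 : (T : ℝ) ^ K ≤ cI * u ^ mI * (q : ℝ) ^ r := by
    refine le_trans ?_ hb
    have : (0 : ℝ) ≤ (T : ℝ) ^ K := by positivity
    have h10' : (1 : ℝ) ≤ |(((Q : ℤ) * B - b * (q : ℤ) ^ r : ℤ) : ℝ)| := by exact_mod_cast h10
    nlinarith
  linarith

/-- uniform constants -/
lemma iw_unif (Km : ℕ) : ∃ cI mI : ℕ, 1 ≤ cI ∧ ∀ K : ℕ, 1 ≤ K → K ≤ Km →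
    ∀ (N : ℕ) (u α : ℝ) (φ : ℕ → ℝ), 1 ≤ N → 1 ≤ u → Ph K α φ →
      (N : ℝ) ≤ u * ‖∑ n ∈ range N, ee (φ n)‖ →
      ∃ Q : ℕ, 1 ≤ Q ∧ (Q : ℝ) ≤ cI * u ^ mI ∧ ∃ a : ℤ, |Q * α - a| ≤ cI * u ^ mI / (N : ℝ) ^ K := by
  induction Km with
  | zero => exact ⟨1, 1, le_rfl, fun K h1 h2 => absurd h1 (by omega)⟩
  | succ Km ih =>
    obtain ⟨c, m, hc, h⟩ := ih
    obtain ⟨c', m', hc', h'⟩ := IW_all (Km + 1) (by omega)
    have gen : ∀ {c₁ m₁ c₂ m₂ : ℕ} {u : ℝ}, c₁ ≤ c₂ → m₁ ≤ m₂ → 1 ≤ u → (c₁ : ℝ) * u ^ m₁ ≤ c₂ * u ^ m₂ := by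
      intro c₁ m₁ c₂ m₂ u hc hm hu
      apply mul_le_mul _ (pow_le_pow_right₀ hu hm) (by positivity) (by positivity)
      exact_mod_cast hc
    refine ⟨c + c', m + m', by omega, fun K h1 h2 N u α φ hN hu hφ hS => ?_⟩
    have hN0 : (0 : ℝ) < N := by exact_mod_cast hN
    rcases Nat.lt_or_ge K (Km + 1) with h3 | h3
    · obtain ⟨Q, hQ1, hQ2, a, ha⟩ := h K h1 (by omega) N u α φ hN hu hφ hS
      have g := gen (c₁ := c) (m₁ := m) (c₂ := c + c') (m₂ := m + m') (by omega) (by omega) hu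
      exact ⟨Q, hQ1, hQ2.trans g, a, ha.trans (div_le_div_of_nonneg_right g (by positivity))⟩
    · have h4 : K = Km + 1 := by omega
      subst h4
      obtain ⟨Q, hQ1, hQ2, a, ha⟩ := h' N u α φ hN hu hφ hS
      have g := gen (c₁ := c') (m₁ := m') (c₂ := c + c') (m₂ := m + m') (by omega) (by omega) hu
      exact ⟨Q, hQ1, hQ2.trans g, a, ha.trans (div_le_div_of_nonneg_right g (by positivity))⟩

/-- progressions -/
lemma sum_ap (f : ℕ → ℂ) (hf : ∀ n, ‖f n‖ ≤ 1) (M G : ℕ) (hG : 1 ≤ G) {B : ℝ}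
    (hB : ∀ n₀ < G, ‖∑ t ∈ range (M / G), f (n₀ + G * t)‖ ≤ B) :
    ‖∑ n ∈ range M, f n‖ ≤ G * B + G := by
  have h1 : ∑ n ∈ range M, f n = ∑ n ∈ range (G * (M / G)), f n + ∑ n ∈ range (M % G), f (G * (M / G) + n) := by
    conv_lhs => rw [← Nat.div_add_mod M G]
    rw [sum_range_add]
  have h2 : ∑ n ∈ range (G * (M / G)), f n = ∑ n₀ ∈ range G, ∑ t ∈ range (M / G), f (n₀ + G * t) := by
    rw [sum_comm, ← sum_product']
    refine sum_nbij' (fun n => (n / G, n % G)) (fun x => x.2 + G * x.1) ?_ ?_ ?_ ?_ ?_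
    · intro n hn
      simp only [mem_product, mem_range] at hn ⊢
      exact ⟨Nat.div_lt_of_lt_mul hn, Nat.mod_lt _ hG⟩
    · rintro ⟨x, y⟩ h
      simp only [mem_product, mem_range] at h ⊢
      have : G * (x + 1) ≤ G * (M / G) := Nat.mul_le_mul_left _ h.1
      rw [Nat.mul_succ] at this
      omega
    · intro n _
      exact Nat.mod_add_div n G
    · rintro ⟨x, y⟩ h
      simp only [mem_product, mem_range] at h
      simp only [Prod.mk.injEq]
      refine ⟨?_, ?_⟩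
      · rw [Nat.add_mul_div_left _ _ hG, Nat.div_eq_of_lt h.2, zero_add]
      · rw [Nat.add_mul_mod_self_left, Nat.mod_eq_of_lt h.2]
    · intro n _
      simp only
      rw [Nat.mod_add_div]
  rw [h1, h2]
  refine (norm_add_le _ _).trans (add_le_add ?_ ?_)
  · refine (norm_sum_le _ _).trans ((sum_le_sum fun n₀ hn => hB n₀ (mem_range.1 hn)).trans (le_of_eq ?_))
    rw [sum_const, card_range, nsmul_eq_mul]
  · refine (norm_sum_le _ _).trans ((sum_le_sum fun n _ => hf _).trans ?_)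
    rw [sum_const, card_range, nsmul_eq_mul, mul_one]
    exact_mod_cast (Nat.mod_lt M hG).le

end Pool.Agent.W301.TD.AA
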