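import Mathlib

/-! Finite Fourier analysis along progressions in `ZMod n`. -/

set_option autoImplicit false

namespace Pool.Agent.W301.TD

open Finset

/-- the standard character of `ZMod n` -/
noncomputable abbrev ψ (n : ℕ) [NeZero n] (x : ZMod n) : ℂ := ZMod.stdAddChar x

variable {n : ℕ} [NeZero n]

lemma norm_psi (x : ZMod n) : ‖ψ n x‖ = 1 := AddChar.norm_apply _ _

lemma psi_zero : ψ n 0 = 1 := AddChar.map_zero_eq_one _

lemma psi_add (x y : ZMod n) : ψ n (x + y) = ψ n x * ψ n y := AddChar.map_add_eq_mul _ _ _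

lemma psi_neg (x : ZMod n) : ψ n (-x) = (starRingEnd ℂ) (ψ n x) := AddChar.map_neg_eq_conj _ _

lemma psi_nsmul (k : ℕ) (x : ZMod n) : ψ n (k * x) = ψ n x ^ k := by
  rw [← nsmul_eq_mul]; exact AddChar.map_nsmul_eq_pow _ _ _

lemma psi_eq_one {x : ZMod n} (h : ψ n x = 1) : x = 0 := by
  apply ZMod.injective_stdAddChar
  rw [AddChar.map_zero_eq_one]
  exact h

/-- orthogonality along a progression of frequencies -/
lemma sum_prog {d m : ℕ} (hdm : d * m = n) (b : ZMod n) :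
    ∑ h ∈ range m, ψ n (((d * h : ℕ) : ZMod n) * b) = if (d : ZMod n) * b = 0 then (m : ℂ) else 0 := by
  have h1 : ∀ h ∈ range m, ψ n (((d * h : ℕ) : ZMod n) * b) = ψ n ((d : ZMod n) * b) ^ h := by
    intro h _
    rw [← psi_nsmul]
    congr 1
    push_cast
    ring
  rw [sum_congr rfl h1]
  split_ifs with h0
  · rw [h0, psi_zero]
    simp
  · have h2 : ψ n ((d : ZMod n) * b) ≠ 1 := fun h => h0 (psi_eq_one h)
    rw [geom_sum_eq h2, ← psi_nsmul]
    have h3 : (m : ZMod n) * ((d : ZMod n) * b) = 0 := by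
      have : ((m : ZMod n) * (d : ZMod n)) = 0 := by
        rw [← Nat.cast_mul, mul_comm, hdm]
        exact ZMod.natCast_self n
      rw [← mul_assoc, this, zero_mul]
    rw [h3, psi_zero]
    simp

/-- Parseval along a progression of frequencies -/
lemma parseval {ι : Type*} [DecidableEq ι] {d m : ℕ} (hdm : d * m = n) (A : Finset ι) (x : ι → ZMod n) :
    ∑ h ∈ range m, ‖∑ a ∈ A, ψ n (((d * h : ℕ) : ZMod n) * x a)‖ ^ 2 =
      m * (((A ×ˢ A).filter (fun p => (d : ZMod n) * (x p.1 - x p.2) = 0)).card : ℝ) := by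
  have h1 : ∀ h : ℕ, ((‖∑ a ∈ A, ψ n (((d * h : ℕ) : ZMod n) * x a)‖ ^ 2 : ℝ) : ℂ) =
      ∑ p ∈ A ×ˢ A, ψ n (((d * h : ℕ) : ZMod n) * (x p.1 - x p.2)) := by
    intro h
    rw [sum_product]
    have : ((‖∑ a ∈ A, ψ n (((d * h : ℕ) : ZMod n) * x a)‖ ^ 2 : ℝ) : ℂ) =
        (∑ a ∈ A, ψ n (((d * h : ℕ) : ZMod n) * x a)) *
          (starRingEnd ℂ) (∑ a ∈ A, ψ n (((d * h : ℕ) : ZMod n) * x a)) := by
      rw [Complex.mul_conj, Complex.normSq_eq_norm_sq]
    rw [this, map_sum, sum_mul_sum]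
    refine sum_congr rfl fun a _ => sum_congr rfl fun b _ => ?_
    rw [← psi_neg, ← psi_add]
    congr 1
    ring
  have h2 : ((∑ h ∈ range m, ‖∑ a ∈ A, ψ n (((d * h : ℕ) : ZMod n) * x a)‖ ^ 2 : ℝ) : ℂ) =
      ((m * (((A ×ˢ A).filter (fun p => (d : ZMod n) * (x p.1 - x p.2) = 0)).card : ℝ) : ℝ) : ℂ) := by
    push_cast
    have h3 : ∀ h ∈ range m, ((‖∑ a ∈ A, ψ n (((d * h : ℕ) : ZMod n) * x a)‖ : ℂ)) ^ 2 =
      ∑ p ∈ A ×ˢ A, ψ n (((d * h : ℕ) : ZMod n) * (x p.1 - x p.2)) := by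
      intro h _
      rw [← h1 h]; push_cast; rfl
    have h4 := sum_congr rfl h3
    push_cast at h4
    rw [h4, sum_comm]
    have h5 : ∀ p ∈ A ×ˢ A, ∑ h ∈ range m, ψ n (((d : ZMod n) * (h : ZMod n)) * (x p.1 - x p.2)) =
        if (d : ZMod n) * (x p.1 - x p.2) = 0 then (m : ℂ) else 0 := by
      intro p _
      rw [← sum_prog hdm]
      refine sum_congr rfl fun h _ => ?_
      push_cast; rfl
    rw [sum_congr rfl h5, ← sum_filter, sum_const, nsmul_eq_mul]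
    ring
  exact_mod_cast h2

end Pool.Agent.W301.TD
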