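import Pool.Agent.W301.TD.Moment
import Pool.Agent.H807R2.Dav1

/-! The `L¹` norm of the exponential sums over digit sets missing few digits. -/

set_option autoImplicit false

namespace Pool.Agent.W301.TD

open Finset
open Pool.Agent.H807R2.Dav (dd dd_ge)

variable {q : ℕ} {D : Finset ℕ}

lemma Phi_range (q : ℕ) (θ : ℝ) (h0 : 0 < θ) (h1 : θ < 1) :
    ‖Φ (range q) θ‖ ≤ 1 / (2 * θ) + 1 / (2 * (1 - θ)) := by
  have hdd := dd_ge h0.le h1.le
  have hmin : 0 < min θ (1 - θ) := lt_min h0 (by linarith)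
  have hddpos : 0 < dd θ := by linarith
  have hee : dd θ = ‖ee θ - 1‖ := by
    have : dd θ = ‖1 - ee θ‖ := rfl
    rw [this, norm_sub_rev]
  have hne : ee θ ≠ 1 := by
    intro h
    rw [hee, h, sub_self, norm_zero] at hddpos
    exact lt_irrefl _ hddpos
  have hgeo : Φ (range q) θ = (ee θ ^ q - 1) / (ee θ - 1) := by
    unfold Φ
    rw [← geom_sum_eq hne]
    apply sum_congr rfl
    rintro d -
    induction d with
    | zero => simp [ee]
    | succ d ih =>
      rw [pow_succ, ← ih, ← ee_add]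
      congr 1; push_cast; ring
  rw [hgeo, norm_div, ← hee]
  have hnum : ‖ee θ ^ q - 1‖ ≤ 2 := by
    refine (norm_sub_le _ _).trans ?_
    rw [norm_pow, norm_ee, one_pow, norm_one]; norm_num
  have h2 : ‖ee θ ^ q - 1‖ / dd θ ≤ 2 / (4 * min θ (1 - θ)) :=
    div_le_div₀ (by norm_num) hnum (by positivity) hdd
  refine h2.trans ?_
  rcases le_total θ (1 - θ) with h | h
  · rw [min_eq_left h]
    have e : 2 / (4 * θ) = 1 / (2 * θ) := by field_simp; ring
    rw [e]
    have : 0 ≤ 1 / (2 * (1 - θ)) := by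
      have : 0 < 1 - θ := by linarith
      positivity
    linarith
  · rw [min_eq_right h]
    have hp : 0 < 1 - θ := by linarith
    have e : 2 / (4 * (1 - θ)) = 1 / (2 * (1 - θ)) := by field_simp; ring
    rw [e]
    have : 0 ≤ 1 / (2 * θ) := by positivity
    linarith

lemma sum_inv_le (q : ℕ) (hq : 1 ≤ q) : ∑ a ∈ range q, (1 : ℝ) / a ≤ 1 + Real.log q := by
  obtain ⟨n, rfl⟩ : ∃ n, q = n + 1 := ⟨q - 1, by omega⟩
  rw [sum_range_succ']
  simp only [Nat.cast_zero, div_zero, add_zero]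
  have h1 : ∑ i ∈ range n, (1 : ℝ) / ((i + 1 : ℕ) : ℝ) = ((harmonic n : ℚ) : ℝ) := by
    unfold harmonic
    push_cast
    apply sum_congr rfl
    intro i _
    rw [one_div]
  rw [h1]
  refine (harmonic_le_one_add_log n).trans ?_
  rcases Nat.eq_zero_or_pos n with rfl | hn
  · simp
  · have : Real.log n ≤ Real.log ((n + 1 : ℕ) : ℝ) :=
      Real.log_le_log (by exact_mod_cast hn) (by push_cast; linarith)
    linarith

/-- the one digit bound -/
lemma one_digit_L1 (hq : 2 ≤ q) (hD : D ⊆ range q) (T : ℕ) (hT : q ≤ D.card + T) (t : ℝ) (ht0 : 0 ≤ t)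
    (ht1 : t < 1) : ∑ a ∈ range q, ‖Φ D ((a + t) / q)‖ ≤ q * (3 + Real.log q + T) := by
  have hq0 : (0 : ℝ) < q := by positivity
  have hpt : ∀ a ∈ range q, ‖Φ D ((a + t) / q)‖ ≤ (if a = 0 then (q : ℝ) else 0) + (if a = q - 1 then (q : ℝ) else 0) +
      (q / 2 * (1 / (a : ℝ)) + q / 2 * (1 / ((q - 1 - a : ℕ) : ℝ))) + T := by
    intro a ha
    have ha := mem_range.1 ha
    have hsplit : Φ D ((a + t) / q) = Φ (range q) ((a + t) / q) - Φ (range q \ D) ((a + t) / q) := by
      unfold Φ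
      rw [← sum_sdiff hD]; ring
    have hc : ‖Φ (range q \ D) ((a + t) / q)‖ ≤ T := by
      unfold Φ
      refine (norm_sum_le _ _).trans ?_
      simp only [norm_ee, sum_const, nsmul_eq_mul, mul_one]
      rw [card_sdiff_of_subset hD, card_range]
      exact_mod_cast (by omega : q - D.card ≤ T)
    rw [hsplit]
    refine (norm_sub_le _ _).trans (add_le_add ?_ hc)
    have htriv : ‖Φ (range q) ((a + t) / q)‖ ≤ q := by
      unfold Φ
      refine (norm_sum_le _ _).trans ?_
      simp [norm_ee]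
    have p1 : (0 : ℝ) ≤ q / 2 * (1 / (a : ℝ)) := by positivity
    have p2 : (0 : ℝ) ≤ q / 2 * (1 / ((q - 1 - a : ℕ) : ℝ)) := by positivity
    by_cases h0 : a = 0
    · rw [if_pos h0]
      have : (0 : ℝ) ≤ if a = q - 1 then (q : ℝ) else 0 := by split_ifs <;> linarith
      linarith
    by_cases h1 : a = q - 1
    · rw [if_pos h1, if_neg h0]
      linarith
    rw [if_neg h0, if_neg h1, zero_add, zero_add]
    have ha1 : (1 : ℝ) ≤ a := by exact_mod_cast Nat.one_le_iff_ne_zero.2 h0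
    have haq : (1 : ℝ) ≤ ((q - 1 - a : ℕ) : ℝ) := by exact_mod_cast (by omega : 1 ≤ q - 1 - a)
    have hcast : ((q - 1 - a : ℕ) : ℝ) = q - 1 - a := by
      rw [Nat.sub_sub, Nat.cast_sub (by omega)]; push_cast; ring
    have hθ0 : 0 < (a + t) / q := by positivity
    have hθ1 : (a + t) / q < 1 := by
      rw [div_lt_one hq0]
      rw [hcast] at haq
      linarith
    refine (Phi_range q _ hθ0 hθ1).trans (add_le_add ?_ ?_)
    · have e : (1 : ℝ) / (2 * ((a + t) / q)) = q / (2 * (a + t)) := by field_simp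
      have e2 : (q : ℝ) / 2 * (1 / (a : ℝ)) = q / (2 * a) := by field_simp
      rw [e, e2]
      exact div_le_div_of_nonneg_left hq0.le (by positivity) (by linarith)
    · have hp : 0 < q - (a + t) := by rw [hcast] at haq; linarith
      have e : (1 : ℝ) / (2 * (1 - (a + t) / q)) = q / (2 * (q - (a + t))) := by
        field_simp
      have e2 : (q : ℝ) / 2 * (1 / ((q - 1 - a : ℕ) : ℝ)) = q / (2 * ((q - 1 - a : ℕ) : ℝ)) := by field_simp
      rw [e, e2]
      refine div_le_div_of_nonneg_left hq0.le (by positivity) ?_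
      rw [hcast]; linarith
  refine (sum_le_sum hpt).trans ?_
  rw [sum_add_distrib, sum_add_distrib, sum_add_distrib, sum_add_distrib, ← mul_sum, ← mul_sum]
  have s1 : ∑ a ∈ range q, (if a = 0 then (q : ℝ) else 0) ≤ q := by
    rw [sum_ite_eq' (range q) 0]; split_ifs <;> linarith
  have s2 : ∑ a ∈ range q, (if a = q - 1 then (q : ℝ) else 0) ≤ q := by
    rw [sum_ite_eq' (range q) (q - 1)]; split_ifs <;> linarith
  have s3 := sum_inv_le q (by omega)
  have s4 : ∑ a ∈ range q, (1 : ℝ) / ((q - 1 - a : ℕ) : ℝ) ≤ 1 + Real.log q := by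
    rw [sum_range_reflect (fun a => (1 : ℝ) / (a : ℝ)) q]
    exact s3
  have s5 : ∑ _a ∈ range q, (T : ℝ) = q * T := by rw [sum_const, card_range, nsmul_eq_mul]
  rw [s5]
  have hq2 : (0 : ℝ) ≤ q / 2 := by positivity
  have m3 := mul_le_mul_of_nonneg_left s3 hq2
  have m4 := mul_le_mul_of_nonneg_left s4 hq2
  nlinarith

/-- induction on the number of digits -/
lemma lone_induction (hq : 0 < q) (hD : D ⊆ range q) (A : ℝ) (hA0 : 0 ≤ A)
    (hA : ∀ t : ℝ, 0 ≤ t → t < 1 → ∑ a ∈ range q, ‖Φ D ((a + t) / q)‖ ≤ A) (n : ℕ) :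
    ∀ t : ℝ, 0 ≤ t → t < 1 → ∑ y ∈ range (q ^ n), ‖T q D n ((y + t) / (q : ℝ) ^ n)‖ ≤ A ^ n := by
  have hqr : (0 : ℝ) < q := by exact_mod_cast hq
  have hq0 : (q : ℝ) ≠ 0 := hqr.ne'
  induction n with
  | zero => intro t _ _; simp [T_zero]
  | succ n ih =>
    intro t ht0 ht1
    have h1 : ∑ y ∈ range (q ^ (n + 1)), ‖T q D (n + 1) ((y + t) / (q : ℝ) ^ (n + 1))‖ =
        ∑ p ∈ range q ×ˢ range (q ^ n),
          ‖Φ D ((p.1 + (p.2 + t) / (q : ℝ) ^ n) / q)‖ *
          ‖T q D n ((p.2 + t) / (q : ℝ) ^ n)‖ := by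
      refine sum_nbij' (fun y => (y / q ^ n, y % q ^ n)) (fun p => p.2 + q ^ n * p.1) ?_ ?_ ?_ ?_ ?_
      · intro y hy
        simp only [mem_product, mem_range] at hy ⊢
        exact ⟨Nat.div_lt_of_lt_mul (by rw [← pow_succ]; exact hy), Nat.mod_lt _ (pow_pos hq n)⟩
      · rintro ⟨a, b⟩ hp
        simp only [mem_product, mem_range] at hp ⊢
        rw [pow_succ]
        nlinarith [hp.1, hp.2, pow_pos hq n]
      · intro y _
        exact Nat.mod_add_div y (q ^ n)
      · rintro ⟨a, b⟩ hp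
        simp only [mem_product, mem_range] at hp
        simp only [Prod.mk.injEq]
        refine ⟨?_, ?_⟩
        · rw [Nat.add_mul_div_left _ _ (pow_pos hq n), Nat.div_eq_of_lt hp.2, zero_add]
        · rw [Nat.add_mul_mod_self_left, Nat.mod_eq_of_lt hp.2]
      · intro y _
        simp only
        rw [T_succ hq hD, norm_mul]
        have e1 : (y : ℝ) = ((y % q ^ n : ℕ) : ℝ) + (q : ℝ) ^ n * ((y / q ^ n : ℕ) : ℝ) := by
          exact_mod_cast (Nat.mod_add_div y (q ^ n)).symm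
        have e2 : ((y : ℝ) + t) / (q : ℝ) ^ (n + 1) =
            (((y / q ^ n : ℕ) : ℝ) + (((y % q ^ n : ℕ) : ℝ) + t) / (q : ℝ) ^ n) / q := by
          conv_lhs => rw [e1]
          rw [pow_succ]
          field_simp
          ring
        have e3 : (q : ℝ) * (((y : ℝ) + t) / (q : ℝ) ^ (n + 1)) =
            (((y % q ^ n : ℕ) : ℝ) + t) / (q : ℝ) ^ n + ((y / q ^ n : ℕ) : ℝ) := by
          rw [e2]
          field_simp
          ring
        rw [e3, T_add_nat, e2]
    rw [h1, sum_product_right]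
    calc ∑ b ∈ range (q ^ n), ∑ a ∈ range q,
          ‖Φ D ((a + (b + t) / (q : ℝ) ^ n) / q)‖ * ‖T q D n ((b + t) / (q : ℝ) ^ n)‖
        ≤ ∑ b ∈ range (q ^ n), A * ‖T q D n ((b + t) / (q : ℝ) ^ n)‖ := by
          refine sum_le_sum fun b hb => ?_
          rw [← sum_mul]
          refine mul_le_mul_of_nonneg_right (hA _ (by positivity) ?_) (norm_nonneg _)
          rw [div_lt_one (by positivity)]
          have : (b : ℝ) + 1 ≤ (q : ℝ) ^ n := by exact_mod_cast mem_range.1 hb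
          linarith
      _ = A * ∑ b ∈ range (q ^ n), ‖T q D n ((b + t) / (q : ℝ) ^ n)‖ := by rw [mul_sum]
      _ ≤ A * A ^ n := mul_le_mul_of_nonneg_left (ih t ht0 ht1) hA0
      _ = A ^ (n + 1) := by ring

end Pool.Agent.W301.TD
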