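import Pool.Agent.W301.TD.Param

/-! High moments of the exponential sums over the digit sets. -/

set_option autoImplicit false

namespace Pool.Agent.W301.TD

open Finset

/-- `e(θ) = exp(2 π i θ)` -/
noncomputable def ee (θ : ℝ) : ℂ := Complex.exp (2 * Real.pi * Complex.I * θ)

lemma ee_add (x y : ℝ) : ee (x + y) = ee x * ee y := by
  unfold ee; rw [← Complex.exp_add]; congr 1; push_cast; ring

lemma norm_ee (x : ℝ) : ‖ee x‖ = 1 := by
  unfold ee
  rw [show 2 * (Real.pi : ℂ) * Complex.I * (x : ℂ) = ((2 * Real.pi * x : ℝ) : ℂ) * Complex.I by push_cast; ring]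
  exact Complex.norm_exp_ofReal_mul_I _

lemma ee_nat (k : ℕ) : ee k = 1 := by
  unfold ee
  rw [show 2 * (Real.pi : ℂ) * Complex.I * ((k : ℝ) : ℂ) = (k : ℂ) * (2 * Real.pi * Complex.I) by push_cast; ring]
  exact Complex.exp_nat_mul_two_pi_mul_I k

/-- the one digit sum -/
noncomputable def Φ (D : Finset ℕ) (θ : ℝ) : ℂ := ∑ d ∈ D, ee (d * θ)

/-- the sum over the digit set -/
noncomputable def T (q : ℕ) (D : Finset ℕ) (L : ℕ) (θ : ℝ) : ℂ := ∑ x ∈ Dg q D L, ee (x * θ)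

variable {q : ℕ} {D : Finset ℕ}

lemma sum_Dg_succ (hq : 0 < q) (hD : D ⊆ range q) (L : ℕ) (f : ℕ → ℂ) :
    ∑ x ∈ Dg q D (L + 1), f x = ∑ d ∈ D, ∑ x ∈ Dg q D L, f (d + q * x) := by
  rw [← sum_product']
  symm
  refine sum_nbij' (fun p => p.1 + q * p.2) (fun x => (x % q, x / q)) ?_ ?_ ?_ ?_ ?_
  · rintro ⟨d, x⟩ hp
    simp only [mem_product] at hp
    have hd := mem_range.1 (hD hp.1)
    have hx := mem_Dg.1 hp.2
    refine mem_Dg.2 ⟨?_, fun i hi => ?_⟩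
    · rw [pow_succ']
      have : x + 1 ≤ q ^ L := hx.1
      nlinarith
    · rcases i with _ | i
      · simp only [pow_zero, Nat.div_one, Nat.add_mul_mod_self_left]
        rw [Nat.mod_eq_of_lt hd]
        exact hp.1
      · rw [pow_succ', ← Nat.div_div_eq_div_mul, Nat.add_mul_div_left _ _ hq, Nat.div_eq_of_lt hd, zero_add]
        exact hx.2 i (by omega)
  · intro x hx
    have hx := mem_Dg.1 hx
    simp only [mem_product]
    refine ⟨by simpa using hx.2 0 (by omega), mem_Dg.2 ⟨?_, fun i hi => ?_⟩⟩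
    · apply Nat.div_lt_of_lt_mul
      rw [← pow_succ']
      exact hx.1
    · have := hx.2 (i + 1) (by omega)
      rw [Nat.div_div_eq_div_mul, ← pow_succ']
      exact this
  · rintro ⟨d, x⟩ hp
    simp only [mem_product] at hp
    have hd := mem_range.1 (hD hp.1)
    simp only [Prod.mk.injEq]
    refine ⟨?_, ?_⟩
    · rw [Nat.add_mul_mod_self_left, Nat.mod_eq_of_lt hd]
    · rw [Nat.add_mul_div_left _ _ hq, Nat.div_eq_of_lt hd, zero_add]
  · intro x _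
    exact Nat.mod_add_div x q
  · intro p _
    rfl

lemma T_zero (θ : ℝ) : T q D 0 θ = 1 := by
  unfold T Dg
  simp [ee]

lemma T_succ (hq : 0 < q) (hD : D ⊆ range q) (L : ℕ) (θ : ℝ) : T q D (L + 1) θ = Φ D θ * T q D L (q * θ) := by
  unfold T Φ
  rw [sum_Dg_succ hq hD, sum_mul_sum]
  refine sum_congr rfl fun d _ => sum_congr rfl fun x _ => ?_
  rw [← ee_add]
  congr 1
  push_cast
  ring

lemma T_add_nat (L : ℕ) (θ : ℝ) (k : ℕ) : T q D L (θ + k) = T q D L θ := by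
  unfold T
  refine sum_congr rfl fun x _ => ?_
  rw [mul_add, ee_add, ← Nat.cast_mul, ee_nat, mul_one]

lemma T_nat (hq : 0 < q) (hD : D ⊆ range q) (v : ℕ) (k : ℕ) : T q D v (k : ℝ) = (D.card : ℂ) ^ v := by
  induction v generalizing k with
  | zero => rw [T_zero, pow_zero]
  | succ v ih =>
    rw [T_succ hq hD, ← Nat.cast_mul, ih]
    unfold Φ
    have : ∀ d ∈ D, ee (d * (k : ℝ)) = 1 := fun d _ => by rw [← Nat.cast_mul, ee_nat]
    rw [sum_congr rfl this, sum_const, nsmul_eq_mul, mul_one, pow_succ, mul_comm]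

lemma T_split (hq : 0 < q) (hD : D ⊆ range q) (n v : ℕ) (h : ℕ) (θ : ℝ) (hθ : (q : ℝ) ^ n * θ = h) :
    T q D (n + v) θ = T q D n θ * (D.card : ℂ) ^ v := by
  induction n generalizing θ with
  | zero =>
    rw [pow_zero, one_mul] at hθ
    rw [zero_add, hθ, T_nat hq hD, T_zero, one_mul]
  | succ n ih =>
    rw [show n + 1 + v = (n + v) + 1 by ring, T_succ hq hD, T_succ hq hD,
      ih (q * θ) (by rw [← hθ, pow_succ]; ring)]
    ring

lemma psi_eq_ee {L : ℕ} [NeZero (q ^ L)] (hq : 0 < q) (y x : ℕ) :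
    ψ (q ^ L) ((y : ZMod (q ^ L)) * (x : ZMod (q ^ L))) = ee (x * ((y : ℝ) / (q : ℝ) ^ L)) := by
  have h1 : ((y : ZMod (q ^ L)) * (x : ZMod (q ^ L))) = (((y * x : ℕ) : ℤ) : ZMod (q ^ L)) := by push_cast; ring
  unfold ψ
  rw [h1, ZMod.stdAddChar_coe]
  unfold ee
  congr 1
  push_cast
  have : (q : ℂ) ^ L ≠ 0 := pow_ne_zero _ (by exact_mod_cast hq.ne')
  field_simp

lemma S_eq_T {L v : ℕ} [NeZero (q ^ L)] (hq : 0 < q) (hD : D ⊆ range q) (hv : v ≤ L) (h : ℕ) :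
    ‖S (DS q D L) ((q ^ v * h : ℕ) : ZMod (q ^ L))‖ =
      (D.card : ℝ) ^ v * ‖T q D (L - v) ((h : ℝ) / (q : ℝ) ^ (L - v))‖ := by
  have hq0 : (q : ℝ) ≠ 0 := by exact_mod_cast hq.ne'
  have h1 : S (DS q D L) ((q ^ v * h : ℕ) : ZMod (q ^ L)) = T q D L ((h : ℝ) / (q : ℝ) ^ (L - v)) := by
    rw [S_DS]
    unfold T
    refine sum_congr rfl fun x _ => ?_
    rw [psi_eq_ee hq]
    congr 2
    have e1 : (q : ℝ) ^ L = (q : ℝ) ^ v * (q : ℝ) ^ (L - v) := by rw [← pow_add, Nat.add_sub_cancel' hv]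
    rw [e1]
    push_cast
    field_simp
  have h2 := T_split hq hD (L - v) v h ((h : ℝ) / (q : ℝ) ^ (L - v)) (by field_simp)
  rw [Nat.sub_add_cancel hv] at h2
  rw [h1, h2, norm_mul, norm_pow, Complex.norm_natCast]
  ring

/-- induction on the number of digits -/
lemma moment_induction (hq : 0 < q) (hD : D ⊆ range q) (κ : ℕ) (A : ℝ)
    (hA : ∀ t : ℝ, ∑ a ∈ range q, ‖Φ D ((a + t) / q)‖ ^ (2 * κ) ≤ A) (n : ℕ) :
    ∀ t : ℝ, ∑ y ∈ range (q ^ n), ‖T q D n ((y + t) / (q : ℝ) ^ n)‖ ^ (2 * κ) ≤ A ^ n := by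
  have hq0 : (q : ℝ) ≠ 0 := by exact_mod_cast hq.ne'
  have hA0 : 0 ≤ A := le_trans (sum_nonneg fun _ _ => by positivity) (hA 0)
  induction n with
  | zero => intro t; simp [T_zero]
  | succ n ih =>
    intro t
    have h1 : ∑ y ∈ range (q ^ (n + 1)), ‖T q D (n + 1) ((y + t) / (q : ℝ) ^ (n + 1))‖ ^ (2 * κ) =
        ∑ p ∈ range q ×ˢ range (q ^ n),
          ‖Φ D ((p.1 + (p.2 + t) / (q : ℝ) ^ n) / q)‖ ^ (2 * κ) *
          ‖T q D n ((p.2 + t) / (q : ℝ) ^ n)‖ ^ (2 * κ) := by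
      refine sum_nbij' (fun y => (y / q ^ n, y % q ^ n)) (fun p => p.2 + q ^ n * p.1) ?_ ?_ ?_ ?_ ?_
      · intro y hy
        simp only [mem_product, mem_range] at hy ⊢
        exact ⟨Nat.div_lt_of_lt_mul (by rw [← pow_succ]; exact hy), Nat.mod_lt _ (pow_pos hq n)⟩
      · rintro ⟨a, b⟩ hp
        simp only [mem_product, mem_range] at hp ⊢
        rw [pow_succ]
        nlinarith [hp.1, hp.2, pow_pos hq n]
      · intro y _
        exact Nat.mod_add_div y (q ^ n)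
      · rintro ⟨a, b⟩ hp
        simp only [mem_product, mem_range] at hp
        simp only [Prod.mk.injEq]
        refine ⟨?_, ?_⟩
        · rw [Nat.add_mul_div_left _ _ (pow_pos hq n), Nat.div_eq_of_lt hp.2, zero_add]
        · rw [Nat.add_mul_mod_self_left, Nat.mod_eq_of_lt hp.2]
      · intro y _
        simp only
        rw [T_succ hq hD, norm_mul, mul_pow]
        have e1 : (y : ℝ) = ((y % q ^ n : ℕ) : ℝ) + (q : ℝ) ^ n * ((y / q ^ n : ℕ) : ℝ) := by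
          exact_mod_cast (Nat.mod_add_div y (q ^ n)).symm
        have e2 : ((y : ℝ) + t) / (q : ℝ) ^ (n + 1) =
            (((y / q ^ n : ℕ) : ℝ) + (((y % q ^ n : ℕ) : ℝ) + t) / (q : ℝ) ^ n) / q := by
          conv_lhs => rw [e1]
          rw [pow_succ]
          field_simp
          ring
        have e3 : (q : ℝ) * (((y : ℝ) + t) / (q : ℝ) ^ (n + 1)) =
            (((y % q ^ n : ℕ) : ℝ) + t) / (q : ℝ) ^ n + ((y / q ^ n : ℕ) : ℝ) := by
          rw [e2]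
          field_simp
          ring
        rw [e3, T_add_nat, e2]
    rw [h1, sum_product_right]
    calc ∑ b ∈ range (q ^ n), ∑ a ∈ range q,
          ‖Φ D ((a + (b + t) / (q : ℝ) ^ n) / q)‖ ^ (2 * κ) * ‖T q D n ((b + t) / (q : ℝ) ^ n)‖ ^ (2 * κ)
        ≤ ∑ b ∈ range (q ^ n), A * ‖T q D n ((b + t) / (q : ℝ) ^ n)‖ ^ (2 * κ) := by
          refine sum_le_sum fun b _ => ?_
          rw [← sum_mul]
          exact mul_le_mul_of_nonneg_right (hA _) (by positivity)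
      _ = A * ∑ b ∈ range (q ^ n), ‖T q D n ((b + t) / (q : ℝ) ^ n)‖ ^ (2 * κ) := by rw [mul_sum]
      _ ≤ A * A ^ n := mul_le_mul_of_nonneg_left (ih t) hA0
      _ = A ^ (n + 1) := by ring

lemma mom_of (hq : 0 < q) (hD : D ⊆ range q) (κ : ℕ) (η : ℝ)
    (hA : ∀ t : ℝ, ∑ a ∈ range q, ‖Φ D ((a + t) / q)‖ ^ (2 * κ) ≤ (D.card : ℝ) ^ (2 * κ) * (D.card * η ^ (2 * κ))) :
    Mom q D κ η := by
  intro L v _ hv
  have h1 := moment_induction hq hD κ _ hA (L - v) 0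
  have h2 : ∀ h ∈ range (q ^ (L - v)), ‖S (DS q D L) ((q ^ v * h : ℕ) : ZMod (q ^ L))‖ ^ (2 * κ) =
      ((D.card : ℝ) ^ v) ^ (2 * κ) * ‖T q D (L - v) ((h + 0) / (q : ℝ) ^ (L - v))‖ ^ (2 * κ) := by
    intro h _
    rw [S_eq_T hq hD hv, mul_pow, add_zero]
  rw [sum_congr rfl h2, ← mul_sum]
  refine (mul_le_mul_of_nonneg_left h1 (by positivity)).trans (le_of_eq ?_)
  rw [mul_pow ((D.card : ℝ) ^ (2 * κ))]
  have h3 : ((D.card : ℝ) ^ (2 * κ)) ^ L = ((D.card : ℝ) ^ v) ^ (2 * κ) * ((D.card : ℝ) ^ (2 * κ)) ^ (L - v) := by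
    rw [← pow_mul, ← pow_mul, ← pow_mul, ← pow_add]
    congr 1
    obtain ⟨u, rfl⟩ := Nat.exists_eq_add_of_le hv
    rw [Nat.add_sub_cancel_left]
    ring
  rw [h3]
  ring

end Pool.Agent.W301.TD
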