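import Pool.Agent.W301.TD.Moment

/-! A high moment of the one digit sum. -/

set_option autoImplicit false

namespace Pool.Agent.W301.TD

open Finset

variable {q : ℕ} {D : Finset ℕ}

lemma ee_eq_one_iff (hq : 0 < q) (k : ℕ) : ee ((k : ℝ) / q) = 1 ↔ q ∣ k := by
  have hq0 : (q : ℝ) ≠ 0 := by exact_mod_cast hq.ne'
  have hq0' : (q : ℂ) ≠ 0 := by exact_mod_cast hq.ne'
  constructor
  · intro h
    unfold ee at h
    rw [Complex.exp_eq_one_iff] at h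
    obtain ⟨n, hn⟩ := h
    have h2 : (2 * (Real.pi : ℂ) * Complex.I) ≠ 0 := Complex.two_pi_I_ne_zero
    have h3 : (((k : ℝ) / q : ℝ) : ℂ) = n := by
      have : (2 * (Real.pi : ℂ) * Complex.I) * (((k : ℝ) / q : ℝ) : ℂ) = (2 * (Real.pi : ℂ) * Complex.I) * n := by
        rw [hn]; ring
      exact mul_left_cancel₀ h2 this
    have h4 : ((k : ℝ) / q : ℝ) = n := by exact_mod_cast h3
    have h5 : (k : ℝ) = n * q := by
      rw [← h4]; field_simp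
    have h6 : (k : ℤ) = n * q := by exact_mod_cast h5
    have h7 : (q : ℤ) ∣ (k : ℤ) := ⟨n, by rw [h6]; ring⟩
    exact_mod_cast h7
  · rintro ⟨c, rfl⟩
    have : (((q * c : ℕ) : ℝ) / q) = (c : ℕ) := by push_cast; field_simp
    rw [this, ee_nat]

lemma ee_mod (hq : 0 < q) (k : ℕ) : ee ((k : ℝ) / q) = ee (((k % q : ℕ) : ℝ) / q) := by
  have hq0 : (q : ℝ) ≠ 0 := by exact_mod_cast hq.ne'
  have : (k : ℝ) / q = ((k % q : ℕ) : ℝ) / q + ((k / q : ℕ) : ℝ) := by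
    have h : (k : ℝ) = ((k % q : ℕ) : ℝ) + (q : ℝ) * ((k / q : ℕ) : ℝ) := by
      exact_mod_cast (Nat.mod_add_div k q).symm
    conv_lhs => rw [h]
    field_simp
  rw [this, ee_add, ee_nat, mul_one]

lemma root_sep (hq : 1 < q) : ∃ δ : ℝ, 0 < δ ∧ ∀ m : ℕ, ¬ q ∣ m → δ ≤ ‖ee ((m : ℝ) / q) - 1‖ := by
  have hne : (Finset.Ico 1 q).Nonempty := ⟨1, by simp; omega⟩
  obtain ⟨k, hk, hmin⟩ := exists_min_image (Finset.Ico 1 q) (fun k : ℕ => ‖ee ((k : ℝ) / q) - 1‖) hne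
  refine ⟨‖ee ((k : ℝ) / q) - 1‖, ?_, ?_⟩
  · rw [norm_pos_iff, sub_ne_zero]
    intro h
    rw [ee_eq_one_iff (by omega)] at h
    simp only [mem_Ico] at hk
    exact absurd (Nat.le_of_dvd (by omega) h) (by omega)
  · intro m hm
    rw [ee_mod (by omega) m]
    apply hmin
    simp only [mem_Ico]
    refine ⟨?_, Nat.mod_lt _ (by omega)⟩
    rcases Nat.eq_zero_or_pos (m % q) with h | h
    · exact absurd (Nat.dvd_of_mod_eq_zero h) hm
    · exact h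

lemma norm_Phi_le (θ : ℝ) : ‖Φ D θ‖ ≤ D.card := by
  unfold Φ
  refine (norm_sum_le _ _).trans ?_
  simp [norm_ee]

lemma norm_Phi_le' {d₁ d₂ : ℕ} (h₁ : d₁ ∈ D) (h₂ : d₂ ∈ D) (hlt : d₁ < d₂) (θ : ℝ) :
    ‖Φ D θ‖ ≤ (D.card : ℝ) - 2 + ‖1 + ee (((d₂ - d₁ : ℕ) : ℝ) * θ)‖ := by
  unfold Φ
  have hsub : ({d₁, d₂} : Finset ℕ) ⊆ D := by
    intro x hx
    simp only [mem_insert, mem_singleton] at hx
    rcases hx with rfl | rfl <;> assumption
  rw [← sum_sdiff hsub, sum_pair hlt.ne]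
  have hcard : ((D \ {d₁, d₂}).card : ℝ) = (D.card : ℝ) - 2 := by
    rw [card_sdiff_of_subset hsub, card_pair hlt.ne]
    have : 2 ≤ D.card := by
      have := card_le_card hsub
      rwa [card_pair hlt.ne] at this
    push_cast [this]
    ring
  have h3 : ee (d₁ * θ) + ee (d₂ * θ) = ee (d₁ * θ) * (1 + ee (((d₂ - d₁ : ℕ) : ℝ) * θ)) := by
    rw [mul_add, mul_one, ← ee_add]
    congr 2
    push_cast [hlt.le]
    ring
  refine (norm_add_le _ _).trans (add_le_add ?_ ?_)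
  · refine (norm_sum_le _ _).trans ?_
    simp only [norm_ee, sum_const, nsmul_eq_mul, mul_one]
    rw [hcard]
  · rw [h3, norm_mul, norm_ee, one_mul]

/-- only one of the points can be near zero -/
lemma bad_card (hq : q.Prime) {c : ℕ} (hc : ¬ q ∣ c) {δ : ℝ}
    (hδ : ∀ m : ℕ, ¬ q ∣ m → δ ≤ ‖ee ((m : ℝ) / q) - 1‖) (t : ℝ) :
    ((range q).filter (fun a : ℕ => ‖ee ((c : ℝ) * ((a + t) / q)) - 1‖ < δ / 2)).card ≤ 1 := by
  have hq0 : (q : ℝ) ≠ 0 := by exact_mod_cast hq.pos.ne'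
  have key : ∀ a b : ℕ, a < b → b < q → ‖ee ((c : ℝ) * ((a + t) / q)) - 1‖ < δ / 2 →
      ‖ee ((c : ℝ) * ((b + t) / q)) - 1‖ < δ / 2 → False := by
    intro a b hab hb h1 h2
    have h3 : ¬ q ∣ c * (b - a) := by
      rw [hq.dvd_mul]
      rintro (h | h)
      · exact hc h
      · exact absurd (Nat.le_of_dvd (by omega) h) (by omega)
    have h4 := hδ _ h3
    have h5 : ee ((c : ℝ) * ((b + t) / q)) = ee ((c : ℝ) * ((a + t) / q)) * ee (((c * (b - a) : ℕ) : ℝ) / q) := by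
      rw [← ee_add]
      congr 1
      push_cast [hab.le]
      field_simp
      ring
    have h6 : ‖ee (((c * (b - a) : ℕ) : ℝ) / q) - 1‖ =
        ‖ee ((c : ℝ) * ((b + t) / q)) - ee ((c : ℝ) * ((a + t) / q))‖ := by
      rw [h5, show ee ((c : ℝ) * ((a + t) / q)) * ee (((c * (b - a) : ℕ) : ℝ) / q) - ee ((c : ℝ) * ((a + t) / q)) =
        ee ((c : ℝ) * ((a + t) / q)) * (ee (((c * (b - a) : ℕ) : ℝ) / q) - 1) by ring, norm_mul, norm_ee, one_mul]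
    have h7 : ‖ee ((c : ℝ) * ((b + t) / q)) - ee ((c : ℝ) * ((a + t) / q))‖ ≤
        ‖ee ((c : ℝ) * ((b + t) / q)) - 1‖ + ‖ee ((c : ℝ) * ((a + t) / q)) - 1‖ := by
      have := norm_sub_le (ee ((c : ℝ) * ((b + t) / q)) - 1) (ee ((c : ℝ) * ((a + t) / q)) - 1)
      rwa [sub_sub_sub_cancel_right] at this
    linarith
  rw [card_le_one]
  intro a ha b hb
  simp only [mem_filter, mem_range] at ha hb
  by_contra hne
  rcases lt_or_gt_of_ne hne with h | h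
  · exact key a b h hb.1 ha.2 hb.2
  · exact key b a h ha.1 hb.2 ha.2

lemma norm_one_add_le {z : ℂ} (hz : ‖z‖ = 1) {s : ℝ} (hs : 0 ≤ s) (h : s ≤ ‖z - 1‖) :
    ‖1 + z‖ ≤ Real.sqrt (4 - s ^ 2) := by
  apply Real.le_sqrt_of_sq_le
  have h1 := parallelogram_law_with_norm ℝ (1 : ℂ) z
  rw [hz, norm_one] at h1
  have h2 : ‖z - 1‖ = ‖1 - z‖ := norm_sub_rev _ _
  rw [h2] at h
  nlinarith [mul_self_le_mul_self hs h]

/-- **A high moment of the one digit sum.** -/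
theorem one_digit (hq : q.Prime) (hD : D ⊆ range q) (hD2 : 2 ≤ D.card) :
    ∃ κ : ℕ, 1 ≤ κ ∧ ∀ t : ℝ, ∑ a ∈ range q, ‖Φ D ((a + t) / q)‖ ^ (2 * κ) ≤ (D.card : ℝ) ^ (2 * κ) * (3 / 2) := by
  have hq0 : (0 : ℝ) < q := by exact_mod_cast hq.pos
  obtain ⟨d₁, h₁, d₂, h₂, hne⟩ := one_lt_card.1 hD2
  wlog hlt : d₁ < d₂ generalizing d₁ d₂
  · exact this d₂ h₂ d₁ h₁ hne.symm (by omega)
  obtain ⟨δ, hδ0, hδ⟩ := root_sep hq.one_lt
  set c := d₂ - d₁ with hc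
  have hcq : ¬ q ∣ c := fun h => by
    have := mem_range.1 (hD h₂)
    exact absurd (Nat.le_of_dvd (by omega) h) (by omega)
  have hδ2 : δ ≤ 2 := by
    have h1 : ¬ q ∣ 1 := hq.one_lt.ne' ∘ Nat.dvd_one.1
    refine (hδ 1 h1).trans ((norm_sub_le _ _).trans ?_)
    rw [norm_ee, norm_one]; norm_num
  have hcard : (2 : ℝ) ≤ D.card := by exact_mod_cast hD2
  set ρ : ℝ := ((D.card : ℝ) - 2 + Real.sqrt (4 - (δ / 2) ^ 2)) / D.card with hρ
  have hs2 : Real.sqrt (4 - (δ / 2) ^ 2) < 2 := by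
    rw [Real.sqrt_lt' (by norm_num)]
    nlinarith
  have hρ0 : 0 ≤ ρ := div_nonneg (by have := Real.sqrt_nonneg (4 - (δ / 2) ^ 2); linarith) (by linarith)
  have hρ1 : ρ < 1 := by
    rw [hρ, div_lt_one (by linarith)]
    linarith
  have hρ2 : ρ ^ 2 < 1 := by nlinarith
  obtain ⟨n, hn⟩ := exists_pow_lt_of_lt_one (show (0 : ℝ) < 1 / (2 * q) by positivity) hρ2
  refine ⟨n + 1, by omega, fun t => ?_⟩
  have hn' : ρ ^ (2 * (n + 1)) ≤ 1 / (2 * q) := by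
    calc ρ ^ (2 * (n + 1)) = (ρ ^ 2) ^ n * ρ ^ 2 := by rw [← pow_succ, ← pow_mul]
      _ ≤ (1 / (2 * q)) * 1 := mul_le_mul hn.le hρ2.le (by positivity) (by positivity)
      _ = _ := mul_one _
  set κ := n + 1 with hκ
  set B := (range q).filter (fun a : ℕ => ‖ee ((c : ℝ) * ((a + t) / q)) - 1‖ < δ / 2) with hB
  have hBc : B.card ≤ 1 := bad_card hq hcq hδ t
  have hpt : ∀ a ∈ range q, ‖Φ D ((a + t) / q)‖ ^ (2 * κ) ≤
      (if a ∈ B then (D.card : ℝ) ^ (2 * κ) else 0) + (D.card : ℝ) ^ (2 * κ) * (1 / (2 * q)) := by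
    intro a ha
    by_cases hab : a ∈ B
    · rw [if_pos hab]
      have h1 : ‖Φ D ((a + t) / q)‖ ^ (2 * κ) ≤ (D.card : ℝ) ^ (2 * κ) :=
        pow_le_pow_left₀ (norm_nonneg _) (norm_Phi_le _) _
      have h2 : 0 ≤ (D.card : ℝ) ^ (2 * κ) * (1 / (2 * q)) := by positivity
      linarith
    · rw [if_neg hab, zero_add]
      have h1 : δ / 2 ≤ ‖ee ((c : ℝ) * ((a + t) / q)) - 1‖ := by
        by_contra h
        exact hab (mem_filter.2 ⟨ha, not_le.1 h⟩)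
      have h2 := norm_one_add_le (norm_ee _) (by positivity) h1
      have h3 := norm_Phi_le' h₁ h₂ hlt ((a + t) / q)
      have h4 : ‖Φ D ((a + t) / q)‖ ≤ D.card * ρ := by
        rw [hρ, mul_div_cancel₀ _ (by linarith : (D.card : ℝ) ≠ 0)]
        linarith
      calc ‖Φ D ((a + t) / q)‖ ^ (2 * κ) ≤ (D.card * ρ) ^ (2 * κ) :=
            pow_le_pow_left₀ (norm_nonneg _) h4 _
        _ = (D.card : ℝ) ^ (2 * κ) * ρ ^ (2 * κ) := mul_pow _ _ _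
        _ ≤ _ := mul_le_mul_of_nonneg_left hn' (by positivity)
  refine (sum_le_sum hpt).trans ?_
  rw [sum_add_distrib, sum_ite_mem, sum_const, sum_const, card_range, nsmul_eq_mul, nsmul_eq_mul]
  have h5 : ((range q ∩ B).card : ℝ) ≤ 1 := by
    exact_mod_cast (card_le_card inter_subset_right).trans hBc
  have h6 : (0 : ℝ) ≤ (D.card : ℝ) ^ (2 * κ) := by positivity
  have h7 : (q : ℝ) * ((D.card : ℝ) ^ (2 * κ) * (1 / (2 * q))) = (D.card : ℝ) ^ (2 * κ) * (1 / 2) := by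
    field_simp
  rw [h7]
  nlinarith

/-- the moment hypothesis holds for a suitable `κ` -/
theorem exists_mom (hq : q.Prime) (hq3 : 3 ≤ q) (hD : D ⊆ range q) (hD2 : 2 ≤ D.card) (hDq : D.card < q) :
    ∃ (κ : ℕ) (η : ℝ), 1 ≤ κ ∧ 0 < η ∧ 5 / 3 ≤ q * η ∧ η < 1 ∧ 1 < (D.card : ℝ) ^ 2 * η ∧ Mom q D κ η := by
  obtain ⟨κ, hκ, h⟩ := one_digit hq hD hD2
  have hcard : (2 : ℝ) ≤ D.card := by exact_mod_cast hD2
  have hq3' : (3 : ℝ) ≤ q := by exact_mod_cast hq3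
  have hDq' : (D.card : ℝ) ≤ q := by exact_mod_cast hDq.le
  have hb : (0 : ℝ) < (3 / 2) / D.card := by positivity
  set η : ℝ := ((3 / 2) / D.card) ^ (((2 * κ : ℕ) : ℝ)⁻¹) with hη
  have h2κ : 2 * κ ≠ 0 := by omega
  have hpow : η ^ (2 * κ) = (3 / 2) / D.card := Real.rpow_inv_natCast_pow hb.le h2κ
  have hη0 : 0 < η := Real.rpow_pos_of_pos hb _
  refine ⟨κ, η, hκ, hη0, ?_, ?_, ?_, ?_⟩
  · apply le_of_pow_le_pow_left₀ h2κ (by positivity)
    rw [mul_pow, hpow]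
    have h1 : (2 : ℝ) ≤ (9 / 5) ^ (2 * κ) := by
      rw [pow_mul]
      calc (2 : ℝ) ≤ ((9 / 5) ^ 2) ^ 1 := by norm_num
        _ ≤ ((9 / 5) ^ 2) ^ κ := pow_le_pow_right₀ (by norm_num) hκ
    have h2 : (5 / 3 : ℝ) ^ (2 * κ) * (9 / 5) ^ (2 * κ) = 3 ^ (2 * κ) := by
      rw [← mul_pow]; norm_num
    have h3 : (3 : ℝ) ^ (2 * κ) ≤ 2 * ((q : ℝ) ^ (2 * κ) * (3 / 2 / D.card)) := by
      obtain ⟨m, hm⟩ : ∃ m, 2 * κ = m + 1 := ⟨2 * κ - 1, by omega⟩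
      rw [hm, pow_succ, pow_succ]
      have e1 : (3 : ℝ) ^ m ≤ (q : ℝ) ^ m := pow_le_pow_left₀ (by norm_num) hq3' _
      have e2 : (1 : ℝ) ≤ q / D.card := by
        rw [one_le_div (by linarith)]; exact hDq'
      have e3 : 2 * ((q : ℝ) ^ m * q * (3 / 2 / D.card)) = 3 * (q : ℝ) ^ m * (q / D.card) := by
        field_simp
      rw [e3]
      have e4 : (0 : ℝ) ≤ (q : ℝ) ^ m := by positivity
      nlinarith
    have h4 : (0 : ℝ) ≤ (5 / 3 : ℝ) ^ (2 * κ) := by positivity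
    nlinarith
  · by_contra hcon
    have h1 : (1 : ℝ) ≤ η ^ (2 * κ) := one_le_pow₀ (not_lt.1 hcon)
    rw [hpow, le_div_iff₀ (by linarith)] at h1
    linarith
  · by_contra hcon
    have h1 : ((D.card : ℝ) ^ 2 * η) ^ (2 * κ) ≤ 1 := pow_le_one₀ (by positivity) (not_lt.1 hcon)
    rw [mul_pow, hpow] at h1
    have h2 : (D.card : ℝ) ≤ ((D.card : ℝ) ^ 2) ^ (2 * κ) := by
      calc (D.card : ℝ) = (D.card : ℝ) ^ 1 := (pow_one _).symm
        _ ≤ (D.card : ℝ) ^ (2 * (2 * κ)) := pow_le_pow_right₀ (by linarith) (by omega)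
        _ = _ := by rw [pow_mul]
    have h3 : (3 : ℝ) / 2 ≤ ((D.card : ℝ) ^ 2) ^ (2 * κ) * (3 / 2 / D.card) := by
      calc (3 : ℝ) / 2 = D.card * (3 / 2 / D.card) := by field_simp
        _ ≤ _ := mul_le_mul_of_nonneg_right h2 (by positivity)
    linarith
  · apply mom_of hq.pos hD
    intro t
    have h1 : (D.card : ℝ) * η ^ (2 * κ) = 3 / 2 := by
      rw [hpow]; field_simp
    rw [h1]
    exact h t

end Pool.Agent.W301.TD
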