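import Pool.Agent.W301.TD.Block

/-! The bound for all `N` and `m`, powers of `P ≡ 1 (mod q)`. -/

set_option autoImplicit false

namespace Pool.Agent.W301.TD

open Finset

/-- the number of `n < N` such that the lowest `m` digits of `l P^n` lie in `D` -/
def F (q : ℕ) (D : Finset ℕ) (P l N m : ℕ) : ℕ :=
  ((range N).filter (fun n => ∀ ι < m, l * P ^ n / q ^ ι % q ∈ D)).card

variable {q P : ℕ} {D : Finset ℕ}

lemma F_le (l N m : ℕ) : F q D P l N m ≤ N := (card_filter_le _ _).trans (by simp)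

lemma F_mono {l N N' m m' : ℕ} (hN : N ≤ N') (hm : m' ≤ m) : F q D P l N m ≤ F q D P l N' m' := by
  unfold F
  refine card_le_card fun n hn => ?_
  have hn := mem_filter.1 hn
  exact mem_filter.2 ⟨mem_range.2 ((mem_range.1 hn.1).trans_le hN), fun ι hι => hn.2 ι (by omega)⟩

lemma F_mul (l a b m : ℕ) : F q D P l (a * b) m ≤ ∑ c ∈ range a, F q D P (l * P ^ (b * c)) b m := by
  rcases Nat.eq_zero_or_pos b with rfl | hb
  · simp [F]
  unfold F
  rw [← card_sigma]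
  refine card_le_card_of_injOn (fun n => ⟨n / b, n % b⟩) ?_ ?_
  · intro n hn
    simp only [coe_filter, mem_range, Set.mem_ofPred_eq] at hn
    simp only [coe_sigma, Set.mem_sigma_iff, mem_coe, mem_filter, mem_range]
    refine ⟨?_, Nat.mod_lt _ hb, ?_⟩
    · exact Nat.div_lt_of_lt_mul (by rw [mul_comm]; exact hn.1)
    · intro ι hι
      have : l * P ^ (b * (n / b)) * P ^ (n % b) = l * P ^ n := by
        rw [mul_assoc, ← pow_add, Nat.div_add_mod]
      rw [this]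
      exact hn.2 ι hι
  · intro n _ n' _ h
    simp only [Sigma.mk.injEq, heq_eq_eq] at h
    rw [← Nat.div_add_mod n b, ← Nat.div_add_mod n' b, h.1, h.2]

lemma P_coprime (hq : q.Prime) (hP : 2 ≤ P) (hP1 : q ∣ P - 1) : P.Coprime q := by
  rw [Nat.coprime_comm, Nat.Prime.coprime_iff_not_dvd hq]
  intro h
  have h2 : q ∣ P - (P - 1) := Nat.dvd_sub h hP1
  have h3 : P - (P - 1) = 1 := by omega
  rw [h3] at h2
  exact hq.one_lt.ne' (Nat.dvd_one.1 h2)

/-- the constant `y = δ √η` -/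
noncomputable def yy (η : ℝ) (D : Finset ℕ) : ℝ := D.card * Real.sqrt η

lemma yy_sq {η : ℝ} (hη : 0 < η) : yy η D ^ 2 = (D.card : ℝ) ^ 2 * η := by
  unfold yy
  rw [mul_pow, Real.sq_sqrt hη.le]

lemma yy_nonneg {η : ℝ} : 0 ≤ yy η D := mul_nonneg (Nat.cast_nonneg _) (Real.sqrt_nonneg _)

lemma one_le_yy {η : ℝ} (hη : 0 < η) (h : 1 ≤ (D.card : ℝ) ^ 2 * η) : 1 ≤ yy η D := by
  rw [← yy_sq (D := D) hη] at h
  by_contra hc
  push Not at hc
  have := yy_nonneg (η := η) (D := D)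
  nlinarith

/-- middle range: `K + s ≤ m ≤ 2 (K + s)` -/
lemma F_middle (hq : q.Prime) (hq3 : 3 ≤ q) {κ : ℕ} (hκ : 1 ≤ κ) {η : ℝ} (hη : 0 < η)
    (hηq : 5 / 3 ≤ q * η) (hη1 : η ≤ 1) (hM' : Mom q D κ η) (hP : 2 ≤ P)
    (hP1 : q ∣ P - 1) {l K m s : ℕ} (hs : s = padicValNat q (P - 1)) (hl : l.Coprime q) (hK : s ≤ K)
    (hm1 : K + s ≤ m) (hm2 : m ≤ 2 * (K + s)) :
    (F q D P l (q ^ K) m : ℝ) ≤ 4 * (q : ℝ) ^ s * ((q : ℝ) ^ K * ((D.card : ℝ) / q) ^ m) +
      10 * q * yy η D ^ m := by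
  set L := m / 2 with hL
  set j := m - L with hj
  set i := j - s with hi
  set e := K - i with he
  have h1 : L ≤ j := by omega
  have h2 : j ≤ L + 1 := by omega
  have h3 : i ≤ K := by omega
  have h4 : e ≤ L := by omega
  have hb := block (D := D) hq hq3 hκ hη hηq hM' hP hP1 hl (i := i) (j := j) (L := L) (e := e) (by omega) h1 h4
  have e1 : i + e = K := by omega
  have e2 : j + L = m := by omega
  rw [e1, e2] at hb
  have hq0 : (0 : ℝ) < q := by exact_mod_cast hq.pos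
  have hb' : (F q D P l (q ^ K) m : ℝ) ≤ 4 * (D.card : ℝ) ^ m * (q : ℝ) ^ e / (q : ℝ) ^ L +
      10 * (D.card : ℝ) ^ m * η ^ L := hb
  refine hb'.trans (add_le_add (le_of_eq ?_) ?_)
  · rw [div_pow]
    have e3 : (q : ℝ) ^ m * (q : ℝ) ^ e = (q : ℝ) ^ s * (q : ℝ) ^ K * (q : ℝ) ^ L := by
      rw [← pow_add, ← pow_add, ← pow_add]
      congr 1
      omega
    field_simp
    linear_combination ((D.card : ℝ) ^ m) * e3
  · set z := Real.sqrt η with hz
    have hz2 : z ^ 2 = η := Real.sq_sqrt hη.le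
    have hz0 : 0 < z := Real.sqrt_pos.2 hη
    have hz1 : z ≤ 1 := by rw [hz, Real.sqrt_le_one]; exact hη1
    have hqz : 1 ≤ q * z := by
      have h5 : η ≤ z := by rw [← hz2]; nlinarith
      have h6 : q * η ≤ q * z := mul_le_mul_of_nonneg_left h5 hq0.le
      linarith
    have e4 : η ^ L ≤ q * z ^ m := by
      have e5 : z ^ (2 * L + 1) ≤ z ^ m := pow_le_pow_of_le_one hz0.le hz1 (by omega)
      calc η ^ L = z ^ (2 * L) * 1 := by rw [pow_mul, hz2, mul_one]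
        _ ≤ z ^ (2 * L) * (q * z) := mul_le_mul_of_nonneg_left hqz (by positivity)
        _ = q * z ^ (2 * L + 1) := by rw [pow_succ]; ring
        _ ≤ q * z ^ m := mul_le_mul_of_nonneg_left e5 hq0.le
    calc 10 * (D.card : ℝ) ^ m * η ^ L ≤ 10 * (D.card : ℝ) ^ m * (q * z ^ m) :=
          mul_le_mul_of_nonneg_left e4 (by positivity)
      _ = 10 * q * yy η D ^ m := by unfold yy; rw [mul_pow]; ring

/-- the bound for all `N`, `m` -/
theorem F_bound (hq : q.Prime) (hq3 : 3 ≤ q) {κ : ℕ} (hκ : 1 ≤ κ) {η : ℝ} (hη : 0 < η)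
    (hηq : 5 / 3 ≤ q * η) (hη1 : η ≤ 1) (hM' : Mom q D κ η) (hD1 : 1 ≤ D.card) (hDq : D.card ≤ q)
    (hDη : 1 ≤ (D.card : ℝ) ^ 2 * η) (hP : 2 ≤ P) (hP1 : q ∣ P - 1) : ∃ C : ℝ, 0 < C ∧ ∀ l : ℕ, l.Coprime q → ∀ N m : ℕ, 1 ≤ N →
      (F q D P l N m : ℝ) ≤ C * (N * ((D.card : ℝ) / q) ^ m + yy η D ^ m) := by
  set s := padicValNat q (P - 1) with hs
  have hq0 : (0 : ℝ) < q := by exact_mod_cast hq.pos
  have hq1 : (1 : ℝ) ≤ q := by exact_mod_cast hq.one_lt.le
  have hδ1 : (1 : ℝ) ≤ D.card := by exact_mod_cast hD1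
  have hδq : (D.card : ℝ) ≤ q := by exact_mod_cast hDq
  have hy1 := one_le_yy (D := D) hη hDη
  have hPq := P_coprime hq hP hP1
  have hρ0 : 0 < (D.card : ℝ) / q := by positivity
  have hρ1 : (D.card : ℝ) / q ≤ 1 := by rw [div_le_one hq0]; exact hδq
  refine ⟨14 * (q : ℝ) ^ (s + 1), by positivity, fun l hl N m hN => ?_⟩
  have hNq : N ≤ q ^ Nat.clog q N := Nat.le_pow_clog hq.one_lt N
  set K := Nat.clog q N with hK
  have hKN : (q : ℝ) ^ K ≤ q * N := by
    rcases Nat.lt_or_ge 1 N with h | h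
    · have h1 : q ^ (K - 1) < N := Nat.pow_pred_clog_lt_self hq.one_lt h
      have h2 : 0 < K := Nat.clog_pos hq.one_lt h
      have h3 : q ^ K = q ^ (K - 1) * q := by rw [← pow_succ]; congr 1; omega
      have h4 : q ^ K ≤ q * N := by rw [h3, mul_comm]; exact Nat.mul_le_mul_left _ h1.le
      exact_mod_cast h4
    · have h1 : N = 1 := by omega
      have h2 : K = 0 := by rw [hK, h1]; simp
      rw [h2, h1]; simpa using hq1
  have hA : 0 ≤ (N : ℝ) * ((D.card : ℝ) / q) ^ m := by positivity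
  have hqs : (1 : ℝ) ≤ (q : ℝ) ^ s := one_le_pow₀ hq1
  have hqs1 : (q : ℝ) ^ (s + 1) = (q : ℝ) ^ s * q := pow_succ _ _
  rcases Nat.lt_or_ge K s with hKs | hKs
  · -- bounded N
    have h1 : (F q D P l N m : ℝ) ≤ N := by exact_mod_cast F_le l N m
    have h2 : (N : ℝ) ≤ (q : ℝ) ^ s := by
      have : N ≤ q ^ s := hNq.trans (Nat.pow_le_pow_right hq.pos hKs.le)
      exact_mod_cast this
    have h3 : (1 : ℝ) ≤ yy η D ^ m := one_le_pow₀ hy1
    calc (F q D P l N m : ℝ) ≤ (q : ℝ) ^ s := h1.trans h2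
      _ ≤ 14 * (q : ℝ) ^ (s + 1) * 1 := by rw [hqs1]; nlinarith
      _ ≤ _ := mul_le_mul_of_nonneg_left (by linarith) (by positivity)
  have hmono : ∀ m' ≤ m, (F q D P l N m : ℝ) ≤ F q D P l (q ^ K) m' := fun m' hm' => by
    exact_mod_cast F_mono hNq hm'
  rcases Nat.lt_or_ge m s with hms | hms
  · -- few digits
    have h1 : (F q D P l N m : ℝ) ≤ N := by exact_mod_cast F_le l N m
    have h2 : (1 : ℝ) ≤ (q : ℝ) ^ s * ((D.card : ℝ) / q) ^ m := by
      rw [div_pow, ← mul_div_assoc, le_div_iff₀ (by positivity), one_mul]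
      have h3 : (q : ℝ) ^ m ≤ (q : ℝ) ^ s := pow_le_pow_right₀ hq1 hms.le
      have h4 : (1 : ℝ) ≤ (D.card : ℝ) ^ m := one_le_pow₀ hδ1
      nlinarith [pow_pos hq0 s]
    have h5 : (0 : ℝ) ≤ yy η D ^ m := pow_nonneg yy_nonneg _
    calc (F q D P l N m : ℝ) ≤ N * 1 := by rw [mul_one]; exact h1
      _ ≤ N * ((q : ℝ) ^ s * ((D.card : ℝ) / q) ^ m) := mul_le_mul_of_nonneg_left h2 (Nat.cast_nonneg _)
      _ = (q : ℝ) ^ s * (N * ((D.card : ℝ) / q) ^ m) := by ring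
      _ ≤ 14 * (q : ℝ) ^ (s + 1) * (N * ((D.card : ℝ) / q) ^ m) := by
          refine mul_le_mul_of_nonneg_right ?_ hA
          rw [hqs1]; nlinarith
      _ ≤ _ := mul_le_mul_of_nonneg_left (by linarith) (by positivity)
  rcases Nat.lt_or_ge m (K + s) with hmk | hmk
  · -- full period
    have hb : ∀ c, (F q D P (l * P ^ (q ^ (m - s) * c)) (q ^ (m - s)) m : ℝ) ≤ 14 * (D.card : ℝ) ^ m := by
      intro c
      have := block (D := D) hq hq3 hκ hη hηq hM' hP hP1 (l := l * P ^ (q ^ (m - s) * c))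
        (Nat.Coprime.mul_left hl (Nat.Coprime.pow_left _ hPq)) (i := m - s) (j := m) (L := 0) (e := 0)
        (by omega) (by omega) le_rfl
      have h2 : (F q D P (l * P ^ (q ^ (m - s) * c)) (q ^ (m - s)) m : ℝ) ≤
        4 * (D.card : ℝ) ^ (m + 0) * (q : ℝ) ^ 0 / (q : ℝ) ^ 0 + 10 * (D.card : ℝ) ^ (m + 0) * η ^ 0 := this
      simp only [add_zero, pow_zero, mul_one, div_one] at h2
      linarith
    have h1 : F q D P l (q ^ K) m ≤ ∑ c ∈ range (q ^ (K - (m - s))),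
        F q D P (l * P ^ (q ^ (m - s) * c)) (q ^ (m - s)) m := by
      have : q ^ K = q ^ (K - (m - s)) * q ^ (m - s) := by rw [← pow_add]; congr 1; omega
      rw [this]
      exact F_mul _ _ _ _
    have h2 : (F q D P l (q ^ K) m : ℝ) ≤ (q : ℝ) ^ (K - (m - s)) * (14 * (D.card : ℝ) ^ m) := by
      have h3 : (F q D P l (q ^ K) m : ℝ) ≤ ∑ c ∈ range (q ^ (K - (m - s))),
        (F q D P (l * P ^ (q ^ (m - s) * c)) (q ^ (m - s)) m : ℝ) := by exact_mod_cast h1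
      refine h3.trans ((sum_le_sum fun c _ => hb c).trans ?_)
      rw [sum_const, card_range, nsmul_eq_mul]
      push_cast
      exact le_rfl
    have h4 : (q : ℝ) ^ (K - (m - s)) * (14 * (D.card : ℝ) ^ m) =
        14 * (q : ℝ) ^ s * ((q : ℝ) ^ K * ((D.card : ℝ) / q) ^ m) := by
      rw [div_pow]
      have e3 : (q : ℝ) ^ (K - (m - s)) * (q : ℝ) ^ m = (q : ℝ) ^ s * (q : ℝ) ^ K := by
        rw [← pow_add, ← pow_add]; congr 1; omega
      field_simp
      linear_combination e3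
    have h5 : (0 : ℝ) ≤ yy η D ^ m := pow_nonneg yy_nonneg _
    calc (F q D P l N m : ℝ) ≤ 14 * (q : ℝ) ^ s * ((q : ℝ) ^ K * ((D.card : ℝ) / q) ^ m) := by
          rw [← h4]; exact (hmono m le_rfl).trans h2
      _ ≤ 14 * (q : ℝ) ^ s * ((q * N) * ((D.card : ℝ) / q) ^ m) :=
          mul_le_mul_of_nonneg_left (mul_le_mul_of_nonneg_right hKN (by positivity)) (by positivity)
      _ = 14 * (q : ℝ) ^ (s + 1) * (N * ((D.card : ℝ) / q) ^ m) := by rw [hqs1]; ring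
      _ ≤ _ := mul_le_mul_of_nonneg_left (by linarith) (by positivity)
  rcases Nat.lt_or_ge (2 * (K + s)) m with hm2 | hm2
  · -- very many digits
    have h1 := F_middle (D := D) hq hq3 hκ hη hηq hη1 hM' hP hP1 hs hl hKs (m := 2 * (K + s)) (by omega) le_rfl
    have h2 := (hmono (2 * (K + s)) hm2.le).trans h1
    have h3 : yy η D ^ (2 * (K + s)) ≤ yy η D ^ m := pow_le_pow_right₀ hy1 hm2.le
    have h4 : (q : ℝ) ^ s * ((q : ℝ) ^ K * ((D.card : ℝ) / q) ^ (2 * (K + s))) ≤ yy η D ^ (2 * (K + s)) := by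
      rw [pow_mul, pow_mul, yy_sq hη, ← mul_assoc, ← pow_add, Nat.add_comm s K, ← mul_pow]
      apply pow_le_pow_left₀ (by positivity)
      have h7 : 1 ≤ q * η := by linarith
      calc (q : ℝ) * ((D.card : ℝ) / q) ^ 2 = (D.card : ℝ) ^ 2 * (1 / q) := by field_simp
        _ ≤ (D.card : ℝ) ^ 2 * η := by
            refine mul_le_mul_of_nonneg_left ?_ (by positivity)
            rw [div_le_iff₀ hq0]; linarith
    have h5 : (0 : ℝ) ≤ yy η D ^ m := pow_nonneg yy_nonneg _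
    calc (F q D P l N m : ℝ) ≤ 4 * yy η D ^ (2 * (K + s)) + 10 * q * yy η D ^ (2 * (K + s)) := by
          refine h2.trans ?_
          have : 4 * (q : ℝ) ^ s * ((q : ℝ) ^ K * ((D.card : ℝ) / q) ^ (2 * (K + s))) =
            4 * ((q : ℝ) ^ s * ((q : ℝ) ^ K * ((D.card : ℝ) / q) ^ (2 * (K + s)))) := by ring
          rw [this]
          linarith
      _ ≤ 4 * yy η D ^ m + 10 * q * yy η D ^ m := by
          have : (0 : ℝ) ≤ 10 * q := by positivity
          nlinarith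
      _ ≤ 14 * (q : ℝ) ^ (s + 1) * yy η D ^ m := by
          rw [hqs1]
          have e1 : (4 : ℝ) + 10 * q ≤ 14 * ((q : ℝ) ^ s * q) := by nlinarith
          calc 4 * yy η D ^ m + 10 * q * yy η D ^ m = (4 + 10 * q) * yy η D ^ m := by ring
            _ ≤ _ := mul_le_mul_of_nonneg_right e1 h5
      _ ≤ _ := mul_le_mul_of_nonneg_left (by linarith) (by positivity)
  · have h1 := F_middle (D := D) hq hq3 hκ hη hηq hη1 hM' hP hP1 hs hl hKs hmk hm2
    have h5 : (0 : ℝ) ≤ yy η D ^ m := pow_nonneg yy_nonneg _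
    calc (F q D P l N m : ℝ) ≤ 4 * (q : ℝ) ^ s * ((q : ℝ) ^ K * ((D.card : ℝ) / q) ^ m) +
          10 * q * yy η D ^ m := (hmono m le_rfl).trans h1
      _ ≤ 4 * (q : ℝ) ^ s * ((q * N) * ((D.card : ℝ) / q) ^ m) + 10 * q * yy η D ^ m := by
          refine add_le_add ?_ le_rfl
          exact mul_le_mul_of_nonneg_left (mul_le_mul_of_nonneg_right hKN (by positivity)) (by positivity)
      _ = 4 * (q : ℝ) ^ (s + 1) * (N * ((D.card : ℝ) / q) ^ m) + 10 * q * yy η D ^ m := by rw [hqs1]; ring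
      _ ≤ 14 * (q : ℝ) ^ (s + 1) * (N * ((D.card : ℝ) / q) ^ m) + 14 * (q : ℝ) ^ (s + 1) * yy η D ^ m := by
          refine add_le_add (mul_le_mul_of_nonneg_right ?_ hA) (mul_le_mul_of_nonneg_right ?_ h5)
          · have : (0 : ℝ) ≤ (q : ℝ) ^ (s + 1) := by positivity
            linarith
          · rw [hqs1]; nlinarith
      _ = _ := by ring

end Pool.Agent.W301.TD
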