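import Pool.Agent.W301.TD.Dig

/-! The exponential sum over the digit set along the reciprocals of the digit set. -/

set_option autoImplicit false

namespace Pool.Agent.W301.TD

open Finset

variable {q : ℕ} {D : Finset ℕ} {L : ℕ} [NeZero (q ^ L)]

/-- the digit set in `ZMod (q ^ L)` -/
noncomputable def DS (q : ℕ) (D : Finset ℕ) (L : ℕ) : Finset (ZMod (q ^ L)) :=
  (Dg q D L).image (Nat.cast : ℕ → ZMod (q ^ L))

lemma cast_inj_on {n : ℕ} {x y : ℕ} (hx : x < n) (hy : y < n) (h : (x : ZMod n) = (y : ZMod n)) : x = y := by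
  have := (ZMod.natCast_eq_natCast_iff' x y n).1 h
  rwa [Nat.mod_eq_of_lt hx, Nat.mod_eq_of_lt hy] at this

lemma mem_DS {x : ℕ} : (x : ZMod (q ^ L)) ∈ DS q D L ↔ x % q ^ L ∈ Dg q D L := by
  unfold DS
  rw [mem_image]
  constructor
  · rintro ⟨y, hy, h⟩
    have h1 := (ZMod.natCast_eq_natCast_iff' y x (q ^ L)).1 h
    rw [Nat.mod_eq_of_lt (mem_Dg.1 hy).1] at h1
    rw [← h1]
    exact hy
  · intro h
    exact ⟨_, h, by simp⟩

lemma S_DS (y : ZMod (q ^ L)) : S (DS q D L) y = ∑ x ∈ Dg q D L, ψ (q ^ L) (y * (x : ZMod (q ^ L))) := by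
  unfold S DS
  rw [sum_image]
  intro x hx y hy h
  exact cast_inj_on (mem_Dg.1 (mem_coe.1 hx)).1 (mem_Dg.1 (mem_coe.1 hy)).1 h

lemma modeq_of_mul {v x y : ℕ} (hq : 0 < q) (hv : v ≤ L)
    (h : ((q ^ v * x : ℕ) : ZMod (q ^ L)) = ((q ^ v * y : ℕ) : ZMod (q ^ L))) : x ≡ y [MOD q ^ (L - v)] := by
  have h1 := (ZMod.natCast_eq_natCast_iff _ _ _).1 h
  have h2 : q ^ L = q ^ v * q ^ (L - v) := by rw [← pow_add, Nat.add_sub_cancel' hv]
  rw [h2] at h1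
  exact Nat.ModEq.mul_left_cancel' (pow_pos hq v).ne' h1

lemma energy (hq : 0 < q) {v : ℕ} (hv : v ≤ L) :
    ∑ h ∈ range (q ^ (L - v)), ‖S (DS q D L) ((q ^ v * h : ℕ) : ZMod (q ^ L))‖ ^ 2 ≤
      (q : ℝ) ^ (L - v) * ((D.card : ℝ) ^ L * (D.card : ℝ) ^ v) := by
  have h2 : q ^ v * q ^ (L - v) = q ^ L := by rw [← pow_add, Nat.add_sub_cancel' hv]
  have := parseval h2 (Dg q D L) (fun x : ℕ => (x : ZMod (q ^ L)))
  simp only [S_DS]
  rw [this]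
  push_cast
  refine mul_le_mul_of_nonneg_left ?_ (by positivity)
  have h3 : ((Dg q D L ×ˢ Dg q D L).filter (fun p : ℕ × ℕ =>
      (q : ZMod (q ^ L)) ^ v * ((p.1 : ZMod (q ^ L)) - (p.2 : ZMod (q ^ L))) = 0)).card ≤
      D.card ^ L * D.card ^ (L - (L - v)) := by
    refine le_trans (card_le_card ?_) (Dg_pairs hq (Nat.sub_le L v))
    intro p hp
    rw [mem_filter] at hp ⊢
    refine ⟨hp.1, modeq_of_mul hq hv ?_⟩
    push_cast
    rw [← sub_eq_zero, ← mul_sub]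
    exact hp.2
  rw [Nat.sub_sub_self hv] at h3
  exact_mod_cast h3

/-- moments of order `2 κ` of the exponential sums over the digit sets -/
def Mom (q : ℕ) (D : Finset ℕ) (κ : ℕ) (η : ℝ) : Prop :=
  ∀ (L v : ℕ) [NeZero (q ^ L)], v ≤ L →
    ∑ h ∈ range (q ^ (L - v)), ‖S (DS q D L) ((q ^ v * h : ℕ) : ZMod (q ^ L))‖ ^ (2 * κ) ≤
      ((D.card : ℝ) ^ (2 * κ)) ^ L * (D.card * η ^ (2 * κ)) ^ (L - v)

/-- the second moment -/
lemma mom_one (hq : 0 < q) (hD : 0 < D.card) : Mom q D 1 (Real.sqrt q / D.card) := by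
  intro L v _ hv
  have h1 := energy (D := D) hq hv
  rw [mul_one]
  refine h1.trans (le_of_eq ?_)
  have hδ : (0 : ℝ) < D.card := by exact_mod_cast hD
  have h2 : (D.card : ℝ) * (Real.sqrt q / D.card) ^ 2 = q / D.card := by
    rw [div_pow, Real.sq_sqrt (Nat.cast_nonneg _)]
    field_simp
  rw [h2, div_pow, ← pow_mul]
  have h3 : (D.card : ℝ) ^ (2 * L) = (D.card : ℝ) ^ L * (D.card : ℝ) ^ v * (D.card : ℝ) ^ (L - v) := by
    rw [← pow_add, ← pow_add]; congr 1; omega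
  rw [h3]
  field_simp

theorem sum_recip (hq : q.Prime) {κ : ℕ} (hκ : 1 ≤ κ) {η : ℝ} (hη : 0 ≤ η) (hM : Mom q D κ η)
    {j v : ℕ} (hLj : L ≤ j) (hv : v < L) (R : Finset ℕ) (hR : R ⊆ Dg q D j)
    (hcop : ∀ r ∈ R, r.Coprime q) (w w' : ZMod (q ^ L)) (hw : w * w' = 1) (h₀ : ℕ) (hh : ¬ q ∣ h₀) :
    ∑ r ∈ R, ‖S (DS q D L) (((q ^ v * h₀ : ℕ) : ZMod (q ^ L)) * (w' * (r : ZMod (q ^ L))⁻¹))‖ ≤
      (D.card : ℝ) ^ (j + L) * η ^ (L - v) := by
  set g : ℕ → ℕ := fun r => ((h₀ : ZMod (q ^ L)) * (w' * (r : ZMod (q ^ L))⁻¹)).val % q ^ (L - v) with hg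
  have h2 : q ^ v * q ^ (L - v) = q ^ L := by rw [← pow_add, Nat.add_sub_cancel' hv.le]
  have key1 : ∀ r : ℕ, ((q ^ v * g r : ℕ) : ZMod (q ^ L)) =
      ((q ^ v * h₀ : ℕ) : ZMod (q ^ L)) * (w' * (r : ZMod (q ^ L))⁻¹) := by
    intro r
    set z := (h₀ : ZMod (q ^ L)) * (w' * (r : ZMod (q ^ L))⁻¹) with hz
    have h3 : ((q ^ v * h₀ : ℕ) : ZMod (q ^ L)) * (w' * (r : ZMod (q ^ L))⁻¹) = (q ^ v : ℕ) * z := by
      rw [hz]; push_cast; ring
    rw [h3]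
    have h4 : z = ((z.val : ℕ) : ZMod (q ^ L)) := (ZMod.natCast_zmod_val z).symm
    have h5 : q ^ v * z.val = q ^ v * g r + q ^ L * (z.val / q ^ (L - v)) := by
      have hgr : g r = z.val % q ^ (L - v) := rfl
      have gen : ∀ y : ℕ, q ^ v * y = q ^ v * (y % q ^ (L - v)) + q ^ L * (y / q ^ (L - v)) := by
        intro y
        have := Nat.mod_add_div y (q ^ (L - v))
        calc q ^ v * y = q ^ v * (y % q ^ (L - v) + q ^ (L - v) * (y / q ^ (L - v))) := by rw [this]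
          _ = q ^ v * (y % q ^ (L - v)) + q ^ v * q ^ (L - v) * (y / q ^ (L - v)) := by ring
          _ = _ := by rw [h2]
      rw [hgr]
      exact gen _
    have h6 : ((q ^ v : ℕ) : ZMod (q ^ L)) * z = ((q ^ v * z.val : ℕ) : ZMod (q ^ L)) := by
      rw [Nat.cast_mul, ← h4]
    rw [h6, h5, Nat.cast_add, Nat.cast_mul (q ^ L), ZMod.natCast_self, zero_mul, add_zero]
  have key2 : ∀ r₁ ∈ R, ∀ r₂ ∈ R, g r₁ = g r₂ → r₁ % q ^ (L - v) = r₂ % q ^ (L - v) := by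
    intro r₁ hr₁ r₂ hr₂ h
    have h3 := key1 r₁
    rw [h, key1 r₂] at h3
    have u : ∀ r ∈ R, (r : ZMod (q ^ L)) * (r : ZMod (q ^ L))⁻¹ = 1 := fun r hr =>
      ZMod.coe_mul_inv_eq_one r (Nat.Coprime.pow_right L (hcop r hr))
    have u1 := u r₁ hr₁
    have u2 := u r₂ hr₂
    have h4 : ((q ^ v * h₀ : ℕ) : ZMod (q ^ L)) * (r₁ : ZMod (q ^ L)) =
        ((q ^ v * h₀ : ℕ) : ZMod (q ^ L)) * (r₂ : ZMod (q ^ L)) := by
      have e1 : ((q ^ v * h₀ : ℕ) : ZMod (q ^ L)) * (r₁ : ZMod (q ^ L)) =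
          (((q ^ v * h₀ : ℕ) : ZMod (q ^ L)) * (w' * (r₂ : ZMod (q ^ L))⁻¹)) *
            (w * ((r₁ : ZMod (q ^ L)) * (r₂ : ZMod (q ^ L)))) := by
        calc _ = ((q ^ v * h₀ : ℕ) : ZMod (q ^ L)) * (r₁ : ZMod (q ^ L)) * (w * w') *
            ((r₂ : ZMod (q ^ L)) * (r₂ : ZMod (q ^ L))⁻¹) := by rw [hw, u2]; ring
          _ = _ := by ring
      have e2 : ((q ^ v * h₀ : ℕ) : ZMod (q ^ L)) * (r₂ : ZMod (q ^ L)) =
          (((q ^ v * h₀ : ℕ) : ZMod (q ^ L)) * (w' * (r₁ : ZMod (q ^ L))⁻¹)) *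
            (w * ((r₁ : ZMod (q ^ L)) * (r₂ : ZMod (q ^ L)))) := by
        calc _ = ((q ^ v * h₀ : ℕ) : ZMod (q ^ L)) * (r₂ : ZMod (q ^ L)) * (w * w') *
            ((r₁ : ZMod (q ^ L)) * (r₁ : ZMod (q ^ L))⁻¹) := by rw [hw, u1]; ring
          _ = _ := by ring
      rw [e1, e2, h3]
    have h5 : ((q ^ v * (h₀ * r₁) : ℕ) : ZMod (q ^ L)) = ((q ^ v * (h₀ * r₂) : ℕ) : ZMod (q ^ L)) := by
      rw [← mul_assoc, ← mul_assoc, Nat.cast_mul (q ^ v * h₀), Nat.cast_mul (q ^ v * h₀)]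
      exact h4
    have h6 := modeq_of_mul hq.pos hv.le h5
    refine Nat.ModEq.cancel_left_of_coprime ?_ h6
    exact Nat.Coprime.pow_left _ ((Nat.Prime.coprime_iff_not_dvd hq).2 hh)
  have h3 : ∑ r ∈ R, ‖S (DS q D L) (((q ^ v * h₀ : ℕ) : ZMod (q ^ L)) * (w' * (r : ZMod (q ^ L))⁻¹))‖ ^ (2 * κ) ≤
      (D.card : ℝ) ^ (j - (L - v)) *
        (((D.card : ℝ) ^ (2 * κ)) ^ L * (D.card * η ^ (2 * κ)) ^ (L - v)) := by
    have e1 : ∑ r ∈ R, ‖S (DS q D L) (((q ^ v * h₀ : ℕ) : ZMod (q ^ L)) *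
        (w' * (r : ZMod (q ^ L))⁻¹))‖ ^ (2 * κ) =
        ∑ h ∈ range (q ^ (L - v)), ∑ r ∈ R.filter (fun r => g r = h),
          ‖S (DS q D L) ((q ^ v * h : ℕ) : ZMod (q ^ L))‖ ^ (2 * κ) := by
      rw [← sum_fiberwise_of_maps_to (s := R) (t := range (q ^ (L - v))) (g := g)
        (fun r _ => mem_range.2 (Nat.mod_lt _ (pow_pos hq.pos _)))]
      refine sum_congr rfl fun h _ => sum_congr rfl fun r hr => ?_
      rw [← (mem_filter.1 hr).2, key1]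
    rw [e1]
    refine le_trans (sum_le_sum (g := fun h => (D.card : ℝ) ^ (j - (L - v)) *
      ‖S (DS q D L) ((q ^ v * h : ℕ) : ZMod (q ^ L))‖ ^ (2 * κ)) fun h _ => ?_) ?_
    · rw [sum_const, nsmul_eq_mul]
      refine mul_le_mul_of_nonneg_right ?_ (by positivity)
      rcases (R.filter (fun r => g r = h)).eq_empty_or_nonempty with he | ⟨r₀, hr₀⟩
      · rw [he]; simp
      · have hr₀ := mem_filter.1 hr₀
        have : (R.filter (fun r => g r = h)).card ≤ D.card ^ (j - (L - v)) := by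
          refine le_trans (card_le_card ?_) (Dg_fiber (D := D) hq.pos (a := L - v) (m := j) (by omega)
            (r₀ % q ^ (L - v)))
          intro r hr
          have hr := mem_filter.1 hr
          exact mem_filter.2 ⟨hR hr.1, key2 r hr.1 r₀ hr₀.1 (by rw [hr.2, hr₀.2])⟩
        exact_mod_cast this
    · rw [← mul_sum]
      exact mul_le_mul_of_nonneg_left (hM L v hv.le) (by positivity)
  have h4 : (R.card : ℝ) ≤ (D.card : ℝ) ^ j := by
    have := (card_le_card hR).trans (Dg_card_le hq.pos j)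
    exact_mod_cast this
  have h5 : (∑ r ∈ R, ‖S (DS q D L) (((q ^ v * h₀ : ℕ) : ZMod (q ^ L)) *
      (w' * (r : ZMod (q ^ L))⁻¹))‖) ^ (2 * κ) ≤ ((D.card : ℝ) ^ (j + L) * η ^ (L - v)) ^ (2 * κ) := by
    have h6 := pow_sum_le_card_mul_sum_pow (s := R)
      (f := fun r => ‖S (DS q D L) (((q ^ v * h₀ : ℕ) : ZMod (q ^ L)) * (w' * (r : ZMod (q ^ L))⁻¹))‖)
      (fun _ _ => norm_nonneg _) (2 * κ - 1)
    have h7 : 2 * κ - 1 + 1 = 2 * κ := by omega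
    rw [h7] at h6
    calc _ ≤ (R.card : ℝ) ^ (2 * κ - 1) * ∑ r ∈ R,
          ‖S (DS q D L) (((q ^ v * h₀ : ℕ) : ZMod (q ^ L)) * (w' * (r : ZMod (q ^ L))⁻¹))‖ ^ (2 * κ) := h6
      _ ≤ ((D.card : ℝ) ^ j) ^ (2 * κ - 1) * ((D.card : ℝ) ^ (j - (L - v)) *
          (((D.card : ℝ) ^ (2 * κ)) ^ L * (D.card * η ^ (2 * κ)) ^ (L - v))) := by
          refine mul_le_mul (pow_le_pow_left₀ (Nat.cast_nonneg _) h4 _) h3
            (sum_nonneg fun _ _ => by positivity) (by positivity)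
      _ = ((D.card : ℝ) ^ (j + L) * η ^ (L - v)) ^ (2 * κ) := by
          have e0 : ∃ κ', κ = κ' + 1 := ⟨κ - 1, by omega⟩
          obtain ⟨κ', rfl⟩ := e0
          obtain ⟨u, hu⟩ : ∃ u, j = u + (L - v) := ⟨j - (L - v), by omega⟩
          have e1 : j - (L - v) = u := by omega
          have e2 : 2 * (κ' + 1) - 1 = 2 * κ' + 1 := by omega
          rw [e1, e2, hu]
          set z := L - v with hz
          rw [mul_pow, mul_pow]
          simp only [← pow_mul, pow_add, pow_mul, mul_add, add_mul, mul_one, pow_one]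
          ring
  exact le_of_pow_le_pow_left₀ (by omega) (by positivity) h5

end Pool.Agent.W301.TD
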